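import Pool.Agent.N860.TS.Stm

set_option autoImplicit false

/-! Lower bound for the binomial probabilities near the mean (helper494). -/

namespace Pool.Agent.N860.TS

namespace BinAux

/-- the terms of the binomial distribution -/
noncomputable def T (M : ℕ) (t : ℝ) (i : ℕ) : ℝ := (M.choose i : ℝ) * t ^ i * (1 - t) ^ (M - i)

theorem T_nonneg (M : ℕ) {t : ℝ} (h0 : 0 < t) (h1 : t < 1) (i : ℕ) : 0 ≤ T M t i := by
  unfold T
  have : 0 ≤ 1 - t := by linarith
  positivity

theorem T_succ (M : ℕ) (t : ℝ) (i : ℕ) (hi : i < M) :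
    T M t (i + 1) * ((i + 1) * (1 - t)) = T M t i * ((M - i) * t) := by
  unfold T
  have h1 : (M.choose (i + 1) : ℝ) * (i + 1) = (M.choose i : ℝ) * (M - i) := by
    have h := Nat.choose_succ_right_eq M i
    have h2 : ((M - i : ℕ) : ℝ) = (M : ℝ) - i := by
      rw [Nat.cast_sub hi.le]
    rw [← h2]
    exact_mod_cast h
  obtain ⟨r, hr⟩ : ∃ r, M - i = r + 1 := ⟨M - i - 1, by omega⟩
  have hr' : M - (i + 1) = r := by omega
  rw [hr, hr', pow_succ, pow_succ]
  linear_combination (t ^ i * t * (1 - t) ^ r * (1 - t)) * h1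

theorem T_up (M k : ℕ) (t : ℝ) (h0 : 0 < t) (h1 : t < 1) (hk : (k : ℝ) = M * t) (hkM : k < M)
    (i : ℕ) (hi : i < k) : T M t i ≤ T M t (i + 1) := by
  have h := T_succ M t i (by omega)
  have hi' : (i : ℝ) + 1 ≤ k := by exact_mod_cast hi
  have h2 : ((i : ℝ) + 1) * (1 - t) ≤ (M - i) * t := by nlinarith
  have h3 : 0 < ((i : ℝ) + 1) * (1 - t) := mul_pos (by positivity) (by linarith)
  have h4 : T M t i * (((i : ℝ) + 1) * (1 - t)) ≤ T M t (i + 1) * (((i : ℝ) + 1) * (1 - t)) := by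
    rw [h]
    exact mul_le_mul_of_nonneg_left h2 (T_nonneg M h0 h1 i)
  exact le_of_mul_le_mul_right h4 h3

theorem T_down (M k : ℕ) (t : ℝ) (h0 : 0 < t) (h1 : t < 1) (hk : (k : ℝ) = M * t)
    (i : ℕ) (hi : k ≤ i) (hiM : i < M) : T M t (i + 1) ≤ T M t i := by
  have h := T_succ M t i hiM
  have hi' : (k : ℝ) ≤ i := by exact_mod_cast hi
  have h2 : ((M : ℝ) - i) * t ≤ (i + 1) * (1 - t) := by nlinarith
  have h3 : 0 < ((i : ℝ) + 1) * (1 - t) := mul_pos (by positivity) (by linarith)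
  have h4 : T M t (i + 1) * (((i : ℝ) + 1) * (1 - t)) ≤ T M t i * (((i : ℝ) + 1) * (1 - t)) := by
    rw [h]
    exact mul_le_mul_of_nonneg_left h2 (T_nonneg M h0 h1 i)
  exact le_of_mul_le_mul_right h4 h3

theorem T_le (M k : ℕ) (t : ℝ) (h0 : 0 < t) (h1 : t < 1) (hk : (k : ℝ) = M * t) (hkM : k < M)
    (i : ℕ) (hi : i ≤ M) : T M t i ≤ T M t k := by
  rcases le_total i k with h | h
  · have key : ∀ j, i ≤ j → j ≤ k → T M t i ≤ T M t j := by
      intro j hj
      induction j, hj using Nat.le_induction with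
      | base => intro _; exact le_rfl
      | succ j _ ih => intro hjk; exact (ih (by omega)).trans (T_up M k t h0 h1 hk hkM j (by omega))
    exact key k h le_rfl
  · have key : ∀ j, k ≤ j → j ≤ M → T M t j ≤ T M t k := by
      intro j hj
      induction j, hj using Nat.le_induction with
      | base => intro _; exact le_rfl
      | succ j hkj ih =>
        intro hjM
        exact (T_down M k t h0 h1 hk j hkj (by omega)).trans (ih (by omega))
    exact key i h hi

theorem T_ge (M k : ℕ) (t : ℝ) (h0 : 0 < t) (h1 : t < 1) (hk : (k : ℝ) = M * t) (hkM : k < M) :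
    1 / ((M : ℝ) + 1) ≤ T M t k := by
  have hsum : ∑ i ∈ Finset.range (M + 1), T M t i = 1 := by
    have h := add_pow t (1 - t) M
    rw [add_sub_cancel, one_pow] at h
    rw [h]
    refine Finset.sum_congr rfl fun i _ => ?_
    unfold T
    ring
  have h2 : ∑ i ∈ Finset.range (M + 1), T M t i ≤ ∑ _i ∈ Finset.range (M + 1), T M t k :=
    Finset.sum_le_sum fun i hi => T_le M k t h0 h1 hk hkM i (by
      have := Finset.mem_range.1 hi
      omega)
  rw [hsum, Finset.sum_const, Finset.card_range, nsmul_eq_mul] at h2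
  push_cast at h2
  rw [div_le_iff₀ (by positivity)]
  linarith

end BinAux

open BinAux

theorem bin : S_BIN := by
  intro M k ρ hk hkM hρ0 hρ1
  have hM : (0 : ℝ) < M := by
    have : 0 < M := by omega
    exact_mod_cast this
  have hk' : (0 : ℝ) < k := by exact_mod_cast hk
  obtain ⟨t, ht⟩ : ∃ t : ℝ, t = k / M := ⟨_, rfl⟩
  have hkt : (k : ℝ) = M * t := by
    rw [ht]
    field_simp
  have ht0 : 0 < t := by
    rw [ht]
    positivity
  have ht1 : t < 1 := by
    rw [ht, div_lt_one hM]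
    exact_mod_cast hkM
  have h1t : 0 < 1 - t := by linarith
  have h1ρ : 0 < 1 - ρ := by linarith
  have hT := T_ge M k t ht0 ht1 hkt hkM
  have hsub : ((M - k : ℕ) : ℝ) = M * (1 - t) := by
    rw [Nat.cast_sub hkM.le, hkt]
    ring
  have hexp : Real.exp (-((k - M * ρ) ^ 2 / (M * ρ * (1 - ρ)))) ≤
      (ρ / t) ^ k * ((1 - ρ) / (1 - t)) ^ (M - k) := by
    have hpos : 0 < (ρ / t) ^ k * ((1 - ρ) / (1 - t)) ^ (M - k) := by positivity
    rw [← Real.le_log_iff_exp_le hpos, Real.log_mul (by positivity) (by positivity), Real.log_pow,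
      Real.log_pow, hsub, hkt]
    have e1 := Real.one_sub_inv_le_log_of_pos (show 0 < ρ / t by positivity)
    have e2 := Real.one_sub_inv_le_log_of_pos (show 0 < (1 - ρ) / (1 - t) by positivity)
    rw [inv_div] at e1 e2
    have e3 : M * t * (1 - t / ρ) ≤ M * t * Real.log (ρ / t) :=
      mul_le_mul_of_nonneg_left e1 (by positivity)
    have e4 : M * (1 - t) * (1 - (1 - t) / (1 - ρ)) ≤ M * (1 - t) * Real.log ((1 - ρ) / (1 - t)) :=
      mul_le_mul_of_nonneg_left e2 (by positivity)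
    have e5 : -((M * t - M * ρ) ^ 2 / (M * ρ * (1 - ρ))) =
        M * t * (1 - t / ρ) + M * (1 - t) * (1 - (1 - t) / (1 - ρ)) := by
      have hne : (1 : ℝ) - ρ ≠ 0 := h1ρ.ne'
      field_simp
      ring
    rw [e5]
    linarith
  have hfin : (M.choose k : ℝ) * ρ ^ k * (1 - ρ) ^ (M - k) =
      T M t k * ((ρ / t) ^ k * ((1 - ρ) / (1 - t)) ^ (M - k)) := by
    unfold T
    rw [div_pow, div_pow]
    have a1 : t ^ k ≠ 0 := (pow_pos ht0 k).ne'
    have a2 : (1 - t) ^ (M - k) ≠ 0 := (pow_pos h1t _).ne'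
    field_simp
  rw [hfin]
  exact mul_le_mul hT hexp (Real.exp_pos _).le (T_nonneg M ht0 ht1 k)

end Pool.Agent.N860.TS
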