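import Pool.Agent.N860.TS.Stm
import Pool.Agent.R528.RM.StrongLaw

/-! TS/CNT (helper134 for helper860). -/

set_option autoImplicit false

namespace Pool.Agent.N860.TS

open MeasureTheory Filter Finset
open scoped Topology

variable {Ω : Type} [MeasurableSpace Ω] {μ : Measure Ω} [IsProbabilityMeasure μ] {A : ℕ → Set Ω}
  {Q k₀ : ℕ} {θ : ℝ}

omit [IsProbabilityMeasure μ] in
theorem CNT_inter (h : ∀ k, MeasurableSet (A k)) (hi : ProbabilityTheory.iIndepSet A μ) {i j : ℕ} (hij : i ≠ j) :
    μ.real (A i ∩ A j) = μ.real (A i) * μ.real (A j) := by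
  have h1 := (ProbabilityTheory.iIndepSet_iff_meas_biInter h).1 hi {i, j}
  rw [Finset.prod_pair hij] at h1
  have h2 : (⋂ k ∈ ({i, j} : Finset ℕ), A k) = A i ∩ A j := by
    ext ω
    simp
  rw [h2] at h1
  simp only [Measure.real, h1, ENNReal.toReal_mul]

theorem CNT_logle (x : ℕ) (hx : 1 ≤ x) : Real.log x ≤ 2 * Real.sqrt x := by
  have hx0 : (0 : ℝ) < x := by exact_mod_cast hx
  have h1 : 0 < Real.sqrt x := Real.sqrt_pos.2 hx0
  have h2 := Real.log_le_sub_one_of_pos h1
  rw [Real.log_sqrt hx0.le] at h2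
  linarith

omit [IsProbabilityMeasure μ] in
/-- bounds of the mean -/
theorem CNT_lower (hQ : 1 ≤ Q) (hθ : 0 < θ) (hM : Model μ A Q k₀ θ) :
    ∀ᶠ x : ℕ in atTop, θ / (2 * Q) * (x / Real.log x) ≤ ∑ k ∈ range x, μ.real (A k) := by
  filter_upwards [eventually_ge_atTop (2 * Q * (k₀ + 5) + 3)] with x hx
  have hx3 : 3 ≤ x := by omega
  have hlog : 0 < Real.log x := Real.log_pos (by exact_mod_cast (by omega : 1 < x))
  obtain ⟨I, hI⟩ : ∃ I : Finset ℕ, I = (Ico (k₀ + 2) (x / Q - 1)).image (fun j => Q * j + 1) := ⟨_, rfl⟩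
  have hsub : I ⊆ range x := by
    intro k hk
    rw [hI, mem_image] at hk
    obtain ⟨j, hj, rfl⟩ := hk
    rw [mem_Ico] at hj
    rw [mem_range]
    have h1 : Q * (x / Q) ≤ x := Nat.mul_div_le x Q
    have h2 : Q * (j + 2) ≤ Q * (x / Q) := Nat.mul_le_mul_left _ (by omega)
    nlinarith
  have hval : ∀ k ∈ I, θ / Real.log x ≤ μ.real (A k) := by
    intro k hk
    have hkx := mem_range.1 (hsub hk)
    rw [hI, mem_image] at hk
    obtain ⟨j, hj, rfl⟩ := hk
    rw [mem_Ico] at hj
    have hkj : j ≤ Q * j := Nat.le_mul_of_pos_left _ hQ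
    rw [hM.prob (Q * j + 1) (by omega) (by simp)]
    refine div_le_div_of_nonneg_left hθ.le ?_ ?_
    · exact Real.log_pos (by exact_mod_cast (by omega : 1 < Q * j + 1))
    · exact Real.log_le_log (by positivity) (by exact_mod_cast hkx.le)
  have hcard : (x : ℝ) / (2 * Q) ≤ I.card := by
    rw [hI, card_image_of_injective _ (fun a b hab => by
      have : Q * a = Q * b := by simpa using hab
      exact Nat.eq_of_mul_eq_mul_left hQ this), Nat.card_Ico]
    have hQ0 : (0 : ℝ) < Q := by exact_mod_cast hQ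
    rw [div_le_iff₀ (by positivity)]
    have h1 : x < Q * (x / Q + 1) := Nat.lt_mul_div_succ x hQ
    have h4 : k₀ + 5 + (k₀ + 5) ≤ x / Q := by
      rw [Nat.le_div_iff_mul_le hQ]
      nlinarith
    have h2 : x ≤ (x / Q - 1 - (k₀ + 2)) * (2 * Q) := by
      obtain ⟨y, hy⟩ : ∃ y, x / Q = y + (k₀ + 5 + (k₀ + 5)) := ⟨x / Q - (k₀ + 5 + (k₀ + 5)), by omega⟩
      rw [hy] at h1 ⊢
      have h3 : y + (k₀ + 5 + (k₀ + 5)) - 1 - (k₀ + 2) = y + k₀ + 7 := by omega
      rw [h3]
      nlinarith
    exact_mod_cast h2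
  calc θ / (2 * Q) * (x / Real.log x) = (x / (2 * Q)) * (θ / Real.log x) := by
        field_simp
    _ ≤ I.card * (θ / Real.log x) := mul_le_mul_of_nonneg_right hcard (by positivity)
    _ = ∑ k ∈ I, θ / Real.log x := by rw [sum_const, nsmul_eq_mul]
    _ ≤ ∑ k ∈ I, μ.real (A k) := sum_le_sum hval
    _ ≤ ∑ k ∈ range x, μ.real (A k) := sum_le_sum_of_subset_of_nonneg hsub fun _ _ _ => measureReal_nonneg

theorem CNT_upper (hθ : 0 < θ) (hM : Model μ A Q k₀ θ) :
    ∀ᶠ x : ℕ in atTop, ∑ k ∈ range x, μ.real (A k) ≤ (2 * θ + 4) * (x / Real.log x) := by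
  filter_upwards [eventually_ge_atTop ((k₀ + 2) ^ 2 + 3)] with x hx
  have hx0 : (0 : ℝ) < x := by exact_mod_cast (by omega : 0 < x)
  have hlog : 0 < Real.log x := Real.log_pos (by exact_mod_cast (by omega : 1 < x))
  obtain ⟨s, hs⟩ : ∃ s : ℕ, s = Nat.sqrt x := ⟨_, rfl⟩
  have hs1 : s ^ 2 ≤ x := by rw [hs]; exact Nat.sqrt_le' x
  have hs2 : x < (s + 1) ^ 2 := by rw [hs]; exact Nat.lt_succ_sqrt' x
  have hs3 : k₀ + 2 ≤ s := by
    rw [hs, Nat.le_sqrt']
    omega
  have hbd : ∀ k ∈ range x, μ.real (A k) ≤ (if k < s + 1 then 1 else 0) + 2 * θ / Real.log x := by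
    intro k hk
    rw [mem_range] at hk
    have hpos : 0 ≤ 2 * θ / Real.log x := by positivity
    split_ifs with h
    · have := measureReal_le_one (μ := μ) (s := A k)
      linarith
    · rw [zero_add]
      by_cases hc : Nat.Coprime k Q
      · rw [hM.prob k (by omega) hc]
        have hk1 : (1 : ℝ) < k := by exact_mod_cast (by omega : 1 < k)
        have hlk : 0 < Real.log k := Real.log_pos hk1
        have h1 : Real.log x ≤ 2 * Real.log k := by
          have h2 : (x : ℝ) ≤ (k : ℝ) ^ 2 := by
            have : x ≤ k ^ 2 := hs2.le.trans (Nat.pow_le_pow_left (by omega) 2)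
            exact_mod_cast this
          have h3 := Real.log_le_log hx0 h2
          rwa [Real.log_pow] at h3
        rw [div_le_div_iff₀ hlk hlog]
        nlinarith
      · rw [hM.none k (by omega) hc]
        simpa using hpos
  have hsr : (s : ℝ) ≤ Real.sqrt x := by
    rw [← Real.sqrt_sq (Nat.cast_nonneg s)]
    exact Real.sqrt_le_sqrt (by exact_mod_cast hs1)
  have h1s : (1 : ℝ) ≤ s := by exact_mod_cast (by omega : 1 ≤ s)
  have hsx : Real.sqrt x ≤ 2 * (x / Real.log x) := by
    rw [← mul_div_assoc, le_div_iff₀ hlog]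
    have h1 := CNT_logle x (by omega)
    have h2 : Real.sqrt x * Real.sqrt x = x := Real.mul_self_sqrt hx0.le
    nlinarith [Real.sqrt_nonneg (x : ℝ)]
  calc ∑ k ∈ range x, μ.real (A k) ≤ ∑ k ∈ range x, ((if k < s + 1 then 1 else 0) + 2 * θ / Real.log x) :=
        sum_le_sum hbd
    _ = (((range x).filter fun k => k < s + 1).card : ℝ) + x * (2 * θ / Real.log x) := by
        rw [sum_add_distrib, sum_const, card_range, nsmul_eq_mul, card_filter]
        push_cast
        rfl
    _ ≤ (s + 1) + x * (2 * θ / Real.log x) := by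
        refine add_le_add_left ?_ _
        have : ((range x).filter fun k => k < s + 1).card ≤ s + 1 := by
          calc ((range x).filter fun k => k < s + 1).card ≤ (range (s + 1)).card := by
                refine card_le_card fun k hk => ?_
                rw [mem_filter] at hk
                exact mem_range.2 hk.2
            _ = s + 1 := card_range _
        exact_mod_cast this
    _ ≤ (2 * θ + 4) * (x / Real.log x) := by
        have h2 : x * (2 * θ / Real.log x) = 2 * θ * (x / Real.log x) := by ring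
        rw [h2]
        linarith

omit [IsProbabilityMeasure μ] in
theorem CNT_tendsto (hQ : 1 ≤ Q) (hθ : 0 < θ) (hM : Model μ A Q k₀ θ) :
    Tendsto (fun n => ∑ k ∈ range n, μ.real (A k)) atTop atTop := by
  have h1 : Tendsto (fun x : ℕ => θ / (2 * Q) / 2 * Real.sqrt x) atTop atTop := by
    refine Tendsto.const_mul_atTop (by positivity) ?_
    exact Real.tendsto_sqrt_atTop.comp tendsto_natCast_atTop_atTop
  refine tendsto_atTop_mono' atTop ?_ h1
  filter_upwards [CNT_lower hQ hθ hM, eventually_ge_atTop 3] with x hx hx3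
  refine le_trans ?_ hx
  have hx0 : (0 : ℝ) < x := by exact_mod_cast (by omega : 0 < x)
  have hlog : 0 < Real.log x := Real.log_pos (by exact_mod_cast (by omega : 1 < x))
  rw [div_mul_eq_mul_div, mul_div_assoc]
  refine mul_le_mul_of_nonneg_left ?_ (by positivity)
  rw [div_le_div_iff₀ (by norm_num) hlog]
  have h1 := CNT_logle x (by omega)
  have h2 : Real.sqrt x * Real.sqrt x = x := Real.mul_self_sqrt hx0.le
  nlinarith [Real.sqrt_nonneg (x : ℝ)]

theorem cntlaw : S_CNT := by
  classical
  intro Ω _ μ _ A Q k₀ θ hQ hθ hM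
  have hm : ∀ k, MeasurableSet (A k) := hM.meas
  have hint : ∀ k, Integrable ((A k).indicator (1 : Ω → ℝ)) μ := fun k =>
    (integrable_indicator_iff (hm k)).2 (integrable_const (1 : ℝ)).integrableOn
  have hI : ∀ k, ∫ ω, (A k).indicator (1 : Ω → ℝ) ω ∂μ = μ.real (A k) := fun k => integral_indicator_one (hm k)
  have key := Pool.Agent.R528.RM.strong_law (μ := μ) (fun k ω => (A k).indicator (1 : Ω → ℝ) ω)
    (fun k _ => μ.real (A k)) (fun k => μ.real (A k)) (fun _ => 1) (fun _ => measureReal_nonneg)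
    (fun _ => measureReal_le_one) (CNT_tendsto hQ hθ hM)
    (fun k => Eventually.of_forall fun ω => Set.indicator_nonneg (fun _ _ => zero_le_one) ω)
    (fun k => Eventually.of_forall fun ω => measureReal_nonneg)
    (fun k => Eventually.of_forall fun ω => le_rfl)
    (fun k => ((hint k).sub (integrable_const _)).aestronglyMeasurable)
    (fun k => Eventually.of_forall fun ω => by
      have h0 : 0 ≤ μ.real (A k) := measureReal_nonneg
      have h1 : μ.real (A k) ≤ 1 := measureReal_le_one
      rw [Real.norm_eq_abs, abs_le]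
      by_cases h : ω ∈ A k
      · rw [Set.indicator_of_mem h]
        simp only [Pi.one_apply]
        constructor <;> linarith
      · rw [Set.indicator_of_notMem h]
        constructor <;> linarith)
    (fun i j hij => by
      have e : ∀ ω, ((A i).indicator (1 : Ω → ℝ) ω - μ.real (A i)) * ((A j).indicator (1 : Ω → ℝ) ω - μ.real (A j)) =
          (A i ∩ A j).indicator (1 : Ω → ℝ) ω - (μ.real (A j) * (A i).indicator (1 : Ω → ℝ) ω +
            (μ.real (A i) * (A j).indicator (1 : Ω → ℝ) ω - μ.real (A i) * μ.real (A j))) := by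
        intro ω
        rw [Set.inter_indicator_one, Pi.mul_apply]
        ring
      have i1 : Integrable ((A i ∩ A j).indicator (1 : Ω → ℝ)) μ :=
        (integrable_indicator_iff ((hm i).inter (hm j))).2 (integrable_const (1 : ℝ)).integrableOn
      have i2 := (hint i).const_mul (μ.real (A j))
      have i3 := (hint j).const_mul (μ.real (A i))
      have i4 : Integrable (fun _ : Ω => μ.real (A i) * μ.real (A j)) μ := integrable_const _
      have i34 : Integrable (fun ω => μ.real (A i) * (A j).indicator (1 : Ω → ℝ) ω -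
          μ.real (A i) * μ.real (A j)) μ := i3.sub i4
      have i234 : Integrable (fun ω => μ.real (A j) * (A i).indicator (1 : Ω → ℝ) ω +
          (μ.real (A i) * (A j).indicator (1 : Ω → ℝ) ω - μ.real (A i) * μ.real (A j))) μ := i2.add i34
      rw [integral_congr_ae (Eventually.of_forall e), integral_sub i1 i234,
        integral_add i2 i34, integral_sub i3 i4, integral_const_mul, integral_const_mul, hI, hI,
        integral_indicator_one ((hm i).inter (hm j)), CNT_inter hm hM.indep hij.ne]
      simp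
      linarith)
    (fun k => by
      have e : ∀ ω, ((A k).indicator (1 : Ω → ℝ) ω - μ.real (A k)) ^ 2 =
          (1 - 2 * μ.real (A k)) * (A k).indicator (1 : Ω → ℝ) ω + μ.real (A k) ^ 2 := by
        intro ω
        by_cases h : ω ∈ A k
        · rw [Set.indicator_of_mem h, Pi.one_apply]
          ring
        · rw [Set.indicator_of_notMem h]
          ring
      have i2 := (hint k).const_mul (1 - 2 * μ.real (A k))
      rw [integral_congr_ae (Eventually.of_forall e), integral_add i2 (integrable_const _), integral_const_mul, hI]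
      simp
      nlinarith [sq_nonneg (μ.real (A k))])
  refine ⟨1 / 2 * (θ / (2 * Q)), 3 / 2 * (2 * θ + 4), by positivity, ?_⟩
  filter_upwards [key] with ω hω
  have hcnt : ∀ x, (cnt (Ch A ω) x : ℝ) = ∑ k ∈ range x, (A k).indicator (1 : Ω → ℝ) ω := by
    intro x
    unfold cnt
    rw [card_filter]
    push_cast
    refine sum_congr rfl fun k _ => ?_
    by_cases h : ω ∈ A k
    · rw [Set.indicator_of_mem h, if_pos (show k ∈ Ch A ω from h), Pi.one_apply]
    · rw [Set.indicator_of_notMem h, if_neg (show k ∉ Ch A ω from h)]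
  have h1 : ∀ᶠ n : ℕ in atTop, |(∑ k ∈ range n, ((A k).indicator (1 : Ω → ℝ) ω - μ.real (A k))) /
      ∑ k ∈ range n, μ.real (A k)| < 1 / 2 := by
    have := (tendsto_order.1 (tendsto_norm_zero.comp hω)).2 (1 / 2) (by norm_num)
    simpa [Real.norm_eq_abs] using this
  filter_upwards [h1, CNT_lower hQ hθ hM, CNT_upper hθ hM, (CNT_tendsto hQ hθ hM).eventually_gt_atTop 0]
    with x hx1 hx2 hx3 hx4
  rw [abs_div, abs_of_pos hx4, div_lt_iff₀ hx4, sum_sub_distrib, ← hcnt, abs_lt] at hx1
  constructor
  · nlinarith [hx1.1]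
  · nlinarith [hx1.2]

end Pool.Agent.N860.TS
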