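import Pool.Agent.N860.TS.Stm

/-!
# Project TS: the earlier bad events are decided in time; measurability
-/

set_option autoImplicit false

namespace Pool.Agent.N860.TS

open MeasureTheory Filter Finset
open scoped Topology

theorem cnt_congr_dbx {S S' : Set ℕ} {m : ℕ} (h : ∀ k, k < m → (k ∈ S ↔ k ∈ S')) :
    cnt S m = cnt S' m := by
  classical
  unfold cnt
  congr 1
  ext k
  simp only [mem_filter, mem_range]
  constructor
  · rintro ⟨h1, h2⟩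
    exact ⟨h1, (h k h1).1 h2⟩
  · rintro ⟨h1, h2⟩
    exact ⟨h1, (h k h1).2 h2⟩

theorem cnt_mono_dbx (S : Set ℕ) {m n : ℕ} (h : m ≤ n) : cnt S m ≤ cnt S n := by
  classical
  unfold cnt
  apply card_le_card
  intro k hk
  simp only [mem_filter, mem_range] at hk ⊢
  exact ⟨by omega, hk.2⟩

theorem db_half {N X Q j w : ℕ} {Z : ℕ → ℕ} {V : Finset ℕ} {v : ℕ} (hv : Par N X j w Z v)
    (hV : ∀ v' ∈ V, Par N X j w Z v' ∧ v' + j ≤ v) {x : ℕ} (_hx : N < x)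
    {S S' : Set ℕ} (hSS : ∀ k, k ≤ x → (k ∈ S ↔ k ∈ S'))
    (h : (∀ v' ∈ V, Bad N X Q j w Z v' S) ∧ St j v x S) :
    (∀ v' ∈ V, Bad N X Q j w Z v' S') ∧ St j v x S' := by
  obtain ⟨hB, hSt⟩ := h
  have hc : ∀ m, m ≤ x + 1 → cnt S m = cnt S' m := fun m hm =>
    cnt_congr_dbx fun k hk => hSS k (by omega)
  have hj := hv.hj
  obtain ⟨hxS, hcx⟩ := hSt
  refine ⟨?_, (hSS x le_rfl).1 hxS, ?_⟩
  · intro v' hv'
    obtain ⟨hP, hvj⟩ := hV v' hv'
    obtain ⟨⟨x', hNx', hx'X, ⟨hx'S, hcx'⟩, u, hu1, hu2, hQ, hum, hup⟩, hns⟩ := hB v' hv'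
    have hx'x : x' < x := by
      by_contra hcon
      have := cnt_mono_dbx S (by omega : x + 1 ≤ x' + 1)
      omega
    have hlow := hP.low x' hNx' hx'X
    have hupp := (hP.up x' hNx' hx'X).2
    have hv'j := hP.jv
    have hv'N := hP.vN
    refine ⟨⟨x', hNx', hx'X, ⟨(hSS x' (by omega)).1 hx'S, ?_⟩, u, hu1, hu2, hQ, ?_, ?_⟩, ?_⟩
    · rw [← hc (x' + 1) (by omega)]
      exact hcx'
    · exact (hSS _ (by omega)).1 hum
    · exact (hSS _ (by omega)).1 hup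
    · rintro ⟨h1, u', h2, h3, h4, h5, h6⟩
      apply hns
      have hle : u' + v' ≤ x := by
        by_contra hcon
        have h7 := cnt_mono_dbx S' (by omega : x + 1 ≤ u' + v')
        have h8 := hc (x + 1) le_rfl
        omega
      refine ⟨(hSS _ (by omega)).2 h1, u', h2, (hSS _ (by omega)).2 h3, (hSS _ (by omega)).2 h4,
        (hSS _ (by omega)).2 h5, ?_⟩
      rw [hc (u' + v') (by omega)]
      exact h6
  · rw [← hc (x + 1) le_rfl]
    exact hcx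

theorem db : S_DB := by
  intro N X Q j w Z V v hv hV x hx hxX S S' hSS
  constructor
  · exact db_half hv hV hx (fun k hk => hSS k (Nat.zero_le _) hk)
  · exact db_half hv hV hx (fun k hk => (hSS k (Nat.zero_le _) hk).symm)

theorem meas_dep_dbx {Ω : Type} [MeasurableSpace Ω] (A : ℕ → Set Ω) (hA : ∀ k, MeasurableSet (A k))
    (lo hi : ℕ) (P : Set ℕ → Prop) (hP : Dep lo hi P) : MeasurableSet {ω | P (Ch A ω)} := by
  classical
  have h1 : {ω | P (Ch A ω)} = ⋃ T ∈ (Icc lo hi).powerset.filter (fun T : Finset ℕ => P (T : Set ℕ)),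
      ⋂ k ∈ Icc lo hi, {ω | ω ∈ A k ↔ k ∈ T} := by
    ext ω
    simp only [Set.mem_ofPred_eq, Set.mem_iUnion, Set.mem_iInter, mem_filter, mem_powerset,
      exists_prop]
    constructor
    · intro h
      refine ⟨(Icc lo hi).filter (fun k => ω ∈ A k), ⟨filter_subset _ _, ?_⟩, ?_⟩
      · refine (hP (Ch A ω) _ ?_).1 h
        intro k h1 h2
        simp only [Ch, Set.mem_ofPred_eq, coe_filter, mem_Icc]
        exact ⟨fun h => ⟨⟨h1, h2⟩, h⟩, fun h => h.2⟩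
      · intro k hk
        rw [mem_filter]
        exact ⟨fun h => ⟨hk, h⟩, fun h => h.2⟩
    · rintro ⟨T, ⟨_, hT⟩, hk⟩
      refine (hP _ _ ?_).1 hT
      intro k h1 h2
      exact (hk k (mem_Icc.2 ⟨h1, h2⟩)).symm
  rw [h1]
  refine Finset.measurableSet_biUnion _ fun T _ => Finset.measurableSet_biInter _ fun k _ => ?_
  by_cases hk : k ∈ T
  · have : {ω | ω ∈ A k ↔ k ∈ T} = A k := by
      ext ω
      simp [hk]
    rw [this]
    exact hA k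
  · have : {ω | ω ∈ A k ↔ k ∈ T} = (A k)ᶜ := by
      ext ω
      simp [hk]
    rw [this]
    exact (hA k).compl

theorem mb' : S_MB := by
  intro Ω _ A hA N X Q j w Z v
  have h1 : {ω | Bad N X Q j w Z v (Ch A ω)} =
      (⋃ x : ℕ, {ω | (N < x ∧ x < X ∧ St j v x (Ch A ω) ∧ Gp Q w (Z x - v) (Ch A ω))}) ∩
        (⋃ u : ℕ, {ω | (v ∈ Ch A ω ∧ 1 ≤ u ∧ u - 1 ∈ Ch A ω ∧ u + 1 ∈ Ch A ω ∧ u + v ∈ Ch A ω ∧
          cnt (Ch A ω) (u + v) + 1 = v)})ᶜ := by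
    ext ω
    simp only [Set.mem_ofPred_eq, Bad, Suc, Set.mem_inter_iff, Set.mem_iUnion, Set.mem_compl_iff]
    constructor
    · rintro ⟨h1, h2⟩
      refine ⟨h1, ?_⟩
      rintro ⟨u, h3, h4⟩
      exact h2 ⟨h3, u, h4⟩
    · rintro ⟨h1, h2⟩
      refine ⟨h1, ?_⟩
      rintro ⟨h3, u, h4⟩
      exact h2 ⟨u, h3, h4⟩
  rw [h1]
  refine (MeasurableSet.iUnion fun x => ?_).inter (MeasurableSet.iUnion fun u => ?_).compl
  · refine meas_dep_dbx A hA 0 (x + (Z x - v) + w + 1)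
      (fun S => N < x ∧ x < X ∧ St j v x S ∧ Gp Q w (Z x - v) S) ?_
    have half : ∀ S S' : Set ℕ, (∀ k, 0 ≤ k → k ≤ x + (Z x - v) + w + 1 → (k ∈ S ↔ k ∈ S')) →
        (N < x ∧ x < X ∧ St j v x S ∧ Gp Q w (Z x - v) S) →
        (N < x ∧ x < X ∧ St j v x S' ∧ Gp Q w (Z x - v) S') := by
      rintro S S' h ⟨h1, h2, ⟨h3, h4⟩, u, h5, h6, h7, h8, h9⟩
      refine ⟨h1, h2, ⟨(h x (Nat.zero_le _) (by omega)).1 h3, ?_⟩, u, h5, h6, h7,
        (h _ (Nat.zero_le _) (by omega)).1 h8, (h _ (Nat.zero_le _) (by omega)).1 h9⟩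
      rw [← cnt_congr_dbx (fun k hk => h k (Nat.zero_le _) (by omega))]
      exact h4
    intro S S' h
    exact ⟨half S S' h, half S' S (fun k h1 h2 => (h k h1 h2).symm)⟩
  · refine meas_dep_dbx A hA 0 (u + v + 1)
      (fun S => v ∈ S ∧ 1 ≤ u ∧ u - 1 ∈ S ∧ u + 1 ∈ S ∧ u + v ∈ S ∧ cnt S (u + v) + 1 = v) ?_
    have half : ∀ S S' : Set ℕ, (∀ k, 0 ≤ k → k ≤ u + v + 1 → (k ∈ S ↔ k ∈ S')) →
        (v ∈ S ∧ 1 ≤ u ∧ u - 1 ∈ S ∧ u + 1 ∈ S ∧ u + v ∈ S ∧ cnt S (u + v) + 1 = v) →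
        (v ∈ S' ∧ 1 ≤ u ∧ u - 1 ∈ S' ∧ u + 1 ∈ S' ∧ u + v ∈ S' ∧ cnt S' (u + v) + 1 = v) := by
      rintro S S' h ⟨h1, h2, h3, h4, h5, h6⟩
      refine ⟨(h _ (Nat.zero_le _) (by omega)).1 h1, h2, (h _ (Nat.zero_le _) (by omega)).1 h3,
        (h _ (Nat.zero_le _) (by omega)).1 h4, (h _ (Nat.zero_le _) (by omega)).1 h5, ?_⟩
      rw [← cnt_congr_dbx (fun k hk => h k (Nat.zero_le _) (by omega))]
      exact h6
    intro S S' h
    exact ⟨half S S' h, half S' S (fun k h1 h2 => (h k h1 h2).symm)⟩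

theorem mb : S_IND → S_MB := fun _ => mb'

end Pool.Agent.N860.TS
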