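import Pool.Agent.N860.TS.Stm

set_option autoImplicit false

/-!
# Project TS (helper860), part EXA: exactly `k` of independent events
-/

namespace Pool.Agent.N860.TS

namespace ExaAux

open MeasureTheory Finset

variable {Ω : Type} [MeasurableSpace Ω] {μ : Measure Ω} [IsProbabilityMeasure μ]

open Classical in
/-- the event or its complement -/
noncomputable def f (A : ℕ → Set Ω) (B : Finset ℕ) (i : ℕ) : Set Ω := if i ∈ B then A i else (A i)ᶜ

theorem f_meas {A : ℕ → Set Ω} (hA : ∀ k, MeasurableSet (A k)) (B : Finset ℕ) (i : ℕ) :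
    MeasurableSet (f A B i) := by
  unfold f
  split_ifs
  · exact hA i
  · exact (hA i).compl

theorem f_prod {A : ℕ → Set Ω} (hind : ProbabilityTheory.iIndepSet A μ) (I B : Finset ℕ) :
    μ.real (⋂ i ∈ I, f A B i) = ∏ i ∈ I, μ.real (f A B i) := by
  have h1 : μ (⋂ i ∈ I, f A B i) = ∏ i ∈ I, μ (f A B i) := by
    refine ProbabilityTheory.iIndep.meas_biInter hind fun i _ => ?_
    have hg : MeasurableSet[MeasurableSpace.generateFrom {A i}] (A i) :=
      MeasurableSpace.measurableSet_generateFrom rfl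
    unfold f
    split_ifs
    · exact hg
    · exact hg.compl
  rw [Measure.real, h1, ENNReal.toReal_prod]
  rfl

omit [MeasurableSpace Ω] in
theorem f_mem {A : ℕ → Set Ω} {I B : Finset ℕ} (ω : Ω) (h : ω ∈ ⋂ i ∈ I, f A B i) :
    ∀ i ∈ I, (ω ∈ A i ↔ i ∈ B) := by
  intro i hi
  rw [Set.mem_iInter₂] at h
  have h1 := h i hi
  unfold f at h1
  by_cases hB : i ∈ B
  · rw [if_pos hB] at h1
    exact ⟨fun _ => hB, fun _ => h1⟩
  · rw [if_neg hB] at h1
    exact ⟨fun h2 => absurd h2 h1, fun h2 => absurd h2 hB⟩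

end ExaAux

open MeasureTheory Finset ExaAux in
theorem exa : S_EXA := by
  classical
  intro Ω _ μ _ A hA hind I k r R hr hR hI
  have hlow : ∀ B ∈ I.powersetCard k, r ^ k * (1 - R) ^ (I.card - k) ≤ μ.real (⋂ i ∈ I, f A B i) := by
    intro B hB
    rw [mem_powersetCard] at hB
    rw [f_prod hind]
    have h1 : ∏ i ∈ I, (if i ∈ B then r else 1 - R) = r ^ k * (1 - R) ^ (I.card - k) := by
      rw [prod_ite, prod_const, prod_const]
      have h2 : I.filter (fun i => i ∈ B) = B := by
        ext i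
        rw [mem_filter]
        exact ⟨fun h => h.2, fun h => ⟨hB.1 h, h⟩⟩
      have h3 : I.filter (fun i => i ∉ B) = I \ B := by
        ext i
        rw [mem_filter, mem_sdiff]
      rw [h2, h3, card_sdiff_of_subset hB.1, hB.2]
    rw [← h1]
    refine prod_le_prod (fun i _ => ?_) fun i hi => ?_
    · split_ifs
      · exact hr
      · linarith
    · unfold f
      split_ifs
      · exact (hI i hi).1
      · rw [probReal_compl_eq_one_sub (hA i)]
        linarith [(hI i hi).2]
  have hdisj : Set.PairwiseDisjoint (↑(I.powersetCard k) : Set (Finset ℕ))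
      (fun B => ⋂ i ∈ I, f A B i) := by
    intro B hB B' hB' hne
    rw [Function.onFun, Set.disjoint_left]
    intro ω h1 h2
    apply hne
    have hB1 := (mem_powersetCard.1 (mem_coe.1 hB)).1
    have hB2 := (mem_powersetCard.1 (mem_coe.1 hB')).1
    ext i
    constructor
    · intro hi
      exact (f_mem ω h2 i (hB1 hi)).1 ((f_mem ω h1 i (hB1 hi)).2 hi)
    · intro hi
      exact (f_mem ω h1 i (hB2 hi)).1 ((f_mem ω h2 i (hB2 hi)).2 hi)
  have hmeas : ∀ B ∈ I.powersetCard k, MeasurableSet (⋂ i ∈ I, f A B i) := fun B _ =>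
    Finset.measurableSet_biInter _ fun i _ => f_meas hA B i
  have hun := measureReal_biUnion_finset (μ := μ) hdisj hmeas
  have hsub : (⋃ B ∈ I.powersetCard k, ⋂ i ∈ I, f A B i) ⊆
      {ω | (I.filter (fun i => ω ∈ A i)).card = k} := by
    intro ω hω
    rw [Set.mem_iUnion₂] at hω
    obtain ⟨B, hB, hω⟩ := hω
    rw [mem_powersetCard] at hB
    have h1 : I.filter (fun i => ω ∈ A i) = B := by
      ext i
      rw [mem_filter]
      constructor
      · rintro ⟨h2, h3⟩
        exact (f_mem ω hω i h2).1 h3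
      · intro h2
        exact ⟨hB.1 h2, (f_mem ω hω i (hB.1 h2)).2 h2⟩
    show (I.filter (fun i => ω ∈ A i)).card = k
    rw [h1, hB.2]
  calc (I.card.choose k : ℝ) * r ^ k * (1 - R) ^ (I.card - k)
      = ∑ _B ∈ I.powersetCard k, r ^ k * (1 - R) ^ (I.card - k) := by
        rw [sum_const, card_powersetCard, nsmul_eq_mul, mul_assoc]
    _ ≤ ∑ B ∈ I.powersetCard k, μ.real (⋂ i ∈ I, f A B i) := sum_le_sum hlow
    _ = μ.real (⋃ B ∈ I.powersetCard k, ⋂ i ∈ I, f A B i) := hun.symm
    _ ≤ μ.real {ω | (I.filter (fun i => ω ∈ A i)).card = k} := measureReal_mono hsub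

end Pool.Agent.N860.TS
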