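import Pool.Agent.N860.TS.Stm

/-!
# Every value of `q(n,k)` is taken at most `n^0.98` times (part FIB)
-/

set_option autoImplicit false

namespace Pool.Agent.N860.TS

open MeasureTheory Filter Finset
open scoped Topology

/-- the linear relation between the primes -/
theorem fib_rel {n k a b p p' v : ℕ} (hp : p.Prime) (hp' : p'.Prime) (hap : a < p) (hbp : b < p')
    (ha : 1 ≤ a) (hb : 1 ≤ b) (h2 : 2 < p') (hk : k = a * p) (hnk : n - k = b * p') (hv : q n k = v) :
    2 * (Nat.totient a : ℤ) * p + Nat.totient b * p' = 2 * ((v : ℤ) - 1) + 2 * Nat.totient a + Nat.totient b := by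
  have c1 : Nat.Coprime a p := by
    rw [Nat.coprime_comm, Nat.Prime.coprime_iff_not_dvd hp]
    intro h
    exact absurd (Nat.le_of_dvd ha h) (by omega)
  have c2 : Nat.Coprime b p' := by
    rw [Nat.coprime_comm, Nat.Prime.coprime_iff_not_dvd hp']
    intro h
    exact absurd (Nat.le_of_dvd hb h) (by omega)
  have e1 : Nat.totient k = Nat.totient a * (p - 1) := by
    rw [hk, Nat.totient_mul c1, Nat.totient_prime hp]
  have e2 : Nat.totient (n - k) = Nat.totient b * (p' - 1) := by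
    rw [hnk, Nat.totient_mul c2, Nat.totient_prime hp']
  obtain ⟨s, hs⟩ : ∃ s, p' = 2 * s + 1 := by
    rcases hp'.eq_two_or_odd' with h | h
    · omega
    · exact h
  obtain ⟨t, ht⟩ : ∃ t, p = t + 1 := ⟨p - 1, by have := hp.one_lt; omega⟩
  have e3 : Nat.totient (n - k) / 2 = Nat.totient b * s := by
    rw [e2, hs]
    have : Nat.totient b * (2 * s + 1 - 1) = 2 * (Nat.totient b * s) := by
      have : 2 * s + 1 - 1 = 2 * s := by omega
      rw [this]; ring
    rw [this]; omega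
  have e4 : Nat.totient k = Nat.totient a * t := by
    rw [e1, ht]; congr 1
  unfold q at hv
  rw [e3, e4] at hv
  have hvz : (v : ℤ) = Nat.totient a * t + Nat.totient b * s + 1 := by
    rw [← hv]; push_cast; ring
  rw [hvz, ht, hs]
  push_cast
  ring

theorem fib_lt {n k a p : ℕ} (hn : 1 ≤ n) (hp : (n : ℝ) ^ (51 / 100 : ℝ) < p) (hk : k = a * p) (hkn : k < n) :
    (a : ℝ) < (n : ℝ) ^ (49 / 100 : ℝ) := by
  by_contra hcon
  push Not at hcon
  have hn0 : (0 : ℝ) < n := by exact_mod_cast hn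
  have h1 : (n : ℝ) ^ (49 / 100 : ℝ) * (n : ℝ) ^ (51 / 100 : ℝ) = n := by
    rw [← Real.rpow_add hn0]; norm_num
  have h2 : (0 : ℝ) < (n : ℝ) ^ (49 / 100 : ℝ) := Real.rpow_pos_of_pos hn0 _
  have h3 : (0 : ℝ) < (n : ℝ) ^ (51 / 100 : ℝ) := Real.rpow_pos_of_pos hn0 _
  have h4 : (n : ℝ) < a * p := by
    calc (n : ℝ) = (n : ℝ) ^ (49 / 100 : ℝ) * (n : ℝ) ^ (51 / 100 : ℝ) := h1.symm
      _ < a * p := mul_lt_mul' hcon hp h3.le (lt_of_lt_of_le h2 hcon)
  have h5 : (k : ℝ) < n := by exact_mod_cast hkn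
  rw [hk] at h5
  push_cast at h5
  linarith

theorem fib_large : ∀ᶠ n : ℕ in atTop, 1 ≤ n ∧ (2 : ℝ) < (n : ℝ) ^ (51 / 100 : ℝ) := by
  have h : Tendsto (fun n : ℕ => (n : ℝ) ^ (51 / 100 : ℝ)) atTop atTop :=
    (tendsto_rpow_atTop (by norm_num)).comp tendsto_natCast_atTop_atTop
  filter_upwards [eventually_ge_atTop 1, h.eventually_gt_atTop 2] with n h1 h2
  exact ⟨h1, h2⟩

open Classical in
theorem fib : S_FIB := by
  filter_upwards [fib_large] with n hn v
  obtain ⟨hn1, hn2⟩ := hn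
  have hn0 : (0 : ℝ) < n := by exact_mod_cast hn1
  have hmono : (n : ℝ) ^ (49 / 100 : ℝ) ≤ (n : ℝ) ^ (51 / 100 : ℝ) :=
    Real.rpow_le_rpow_of_exponent_le (by exact_mod_cast hn1) (by norm_num)
  set A : ℕ := ⌊(n : ℝ) ^ (49 / 100 : ℝ)⌋₊ with hA
  have hcard : (((Ico 1 n).filter (fun k => Gen n k ∧ q n k = v)).card : ℕ) ≤
      (Icc 1 A ×ˢ Icc 1 A).card := by
    refine Finset.card_le_card_of_forall_subsingleton
      (fun (k : ℕ) (ab : ℕ × ℕ) => ∃ p p' : ℕ, p.Prime ∧ p'.Prime ∧ (n : ℝ) ^ (51 / 100 : ℝ) < p ∧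
        (n : ℝ) ^ (51 / 100 : ℝ) < p' ∧ k = ab.1 * p ∧ n - k = ab.2 * p' ∧
        ab.1 * Nat.totient ab.2 ≠ 2 * ab.2 * Nat.totient ab.1) ?_ ?_
    · intro k hk
      rw [Finset.mem_filter, Finset.mem_Ico] at hk
      obtain ⟨⟨hk1, hkn⟩, ⟨a, b, p, p', hp, hp', h1, h2, hka, hkb, hne⟩, hv⟩ := hk
      refine ⟨(a, b), ?_, p, p', hp, hp', h1, h2, hka, hkb, hne⟩
      have ha : 1 ≤ a := by
        rcases Nat.eq_zero_or_pos a with h | h
        · rw [h, zero_mul] at hka; omega
        · exact h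
      have hb : 1 ≤ b := by
        rcases Nat.eq_zero_or_pos b with h | h
        · rw [h, zero_mul] at hkb; omega
        · exact h
      have ha2 := fib_lt hn1 h1 hka hkn
      have hb2 := fib_lt (k := n - k) hn1 h2 hkb (by omega)
      simp only [Finset.mem_product, Finset.mem_Icc]
      exact ⟨⟨ha, Nat.le_floor ha2.le⟩, ⟨hb, Nat.le_floor hb2.le⟩⟩
    · rintro ⟨a, b⟩ hab k₁ hk₁ k₂ hk₂
      simp only [Finset.mem_product, Finset.mem_Icc] at hab
      obtain ⟨⟨ha, -⟩, ⟨hb, -⟩⟩ := hab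
      simp only [Finset.mem_filter, Finset.mem_Ico, Set.mem_setOf_eq] at hk₁ hk₂
      obtain ⟨⟨⟨hk1, hkn⟩, -, hv⟩, p, p', hp, hp', h1, h2, hka, hkb, hne⟩ := hk₁
      obtain ⟨⟨⟨lk1, lkn⟩, -, lv⟩, r, r', lp, lp', l1, l2, lka, lkb, -⟩ := hk₂
      have ha2 := fib_lt hn1 h1 hka hkn
      have hb2 := fib_lt (k := n - k₁) hn1 h2 hkb (by omega)
      have f1 : a < p := by exact_mod_cast (ha2.trans_le hmono).trans h1
      have f2 : b < p' := by exact_mod_cast (hb2.trans_le hmono).trans h2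
      have f3 : a < r := by exact_mod_cast (ha2.trans_le hmono).trans l1
      have f4 : b < r' := by exact_mod_cast (hb2.trans_le hmono).trans l2
      have f5 : 2 < p' := by exact_mod_cast hn2.trans h2
      have f6 : 2 < r' := by exact_mod_cast hn2.trans l2
      have g1 := fib_rel hp hp' f1 f2 ha hb f5 hka hkb hv
      have g2 := fib_rel lp lp' f3 f4 ha hb f6 lka lkb lv
      have g3 : (a : ℤ) * p + b * p' = n := by
        have : a * p + b * p' = n := by omega
        exact_mod_cast this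
      have g4 : (a : ℤ) * r + b * r' = n := by
        have : a * r + b * r' = n := by omega
        exact_mod_cast this
      have g5 : (2 * (b : ℤ) * Nat.totient a - a * Nat.totient b) * ((p : ℤ) - r) = 0 := by
        linear_combination b * g1 - b * g2 - Nat.totient b * g3 + Nat.totient b * g4
      have g6 : (2 * (b : ℤ) * Nat.totient a - a * Nat.totient b) ≠ 0 := by
        intro h
        apply hne
        have : (a : ℤ) * Nat.totient b = 2 * b * Nat.totient a := by linarith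
        exact_mod_cast this
      have g7 : (p : ℤ) = r := by
        rcases mul_eq_zero.1 g5 with h | h
        · exact absurd h g6
        · linarith
      have g8 : p = r := by exact_mod_cast g7
      rw [hka, lka, g8]
  have hc2 : ((Icc 1 A ×ˢ Icc 1 A).card : ℝ) ≤ (n : ℝ) ^ (98 / 100 : ℝ) := by
    rw [Finset.card_product, Nat.card_Icc]
    push_cast
    have hA1 : (A : ℝ) ≤ (n : ℝ) ^ (49 / 100 : ℝ) := Nat.floor_le (Real.rpow_nonneg hn0.le _)
    have hAA : ((A + 1 - 1 : ℕ) : ℝ) = A := by simp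
    try rw [hAA]
    try simp only [Nat.add_sub_cancel]
    calc (A : ℝ) * A ≤ (n : ℝ) ^ (49 / 100 : ℝ) * (n : ℝ) ^ (49 / 100 : ℝ) :=
          mul_le_mul hA1 hA1 (Nat.cast_nonneg _) (Real.rpow_nonneg hn0.le _)
      _ = (n : ℝ) ^ (98 / 100 : ℝ) := by rw [← Real.rpow_add hn0]; norm_num
  exact (Nat.cast_le.2 hcard).trans hc2

end Pool.Agent.N860.TS
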