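import Pool.Agent.N860.TS.Stm

/-!
# Project TS: gaps between twins of the random set (part GAP, by helper655)
-/

set_option autoImplicit false

namespace Pool.Agent.N860.TS

open MeasureTheory Filter Finset
open scoped Topology

namespace GapAux

/-- the multiple number `i` of `m` after `z` -/
def U (m z i : ℕ) : ℕ := m * (z / m + 1 + i)

/-- none of the first `r` pairs is chosen -/
def PR (m z r : ℕ) (S : Set ℕ) : Prop := ∀ i < r, ¬ (U m z i - 1 ∈ S ∧ U m z i + 1 ∈ S)

theorem U_step {m z i j : ℕ} (hm : 3 ≤ m) (h : i < j) : U m z i + 3 ≤ U m z j := by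
  unfold U
  have h1 : m * (z / m + 1 + (i + 1)) ≤ m * (z / m + 1 + j) := Nat.mul_le_mul_left _ (by omega)
  have h2 : m * (z / m + 1 + (i + 1)) = m * (z / m + 1 + i) + m := by ring
  omega

theorem U_gt {m z : ℕ} (hm : 3 ≤ m) (i : ℕ) : z < U m z i := by
  unfold U
  have h1 : z < m * (z / m + 1) := Nat.lt_mul_div_succ z (by omega)
  have h2 : m * (z / m + 1) ≤ m * (z / m + 1 + i) := Nat.mul_le_mul_left _ (by omega)
  omega

theorem U_le {m z r i : ℕ} (hi : i < r) : U m z i ≤ z + m * r := by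
  unfold U
  have h1 : m * (z / m) ≤ z := Nat.mul_div_le z m
  have h2 : m * (z / m + 1 + i) = m * (z / m) + m * (1 + i) := by ring
  have h3 : m * (1 + i) ≤ m * r := Nat.mul_le_mul_left _ (by omega)
  omega

section

variable {Ω : Type} [MeasurableSpace Ω] {μ : Measure Ω} [IsProbabilityMeasure μ] {A : ℕ → Set Ω}

theorem pair (hI : S_IND) (hA : ∀ k, MeasurableSet (A k))
    (hi : ProbabilityTheory.iIndepSet A μ) (u : ℕ) (hu : 1 ≤ u) :
    μ.real {ω | u - 1 ∈ Ch A ω ∧ u + 1 ∈ Ch A ω} = μ.real (A (u - 1)) * μ.real (A (u + 1)) := by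
  have h := (hI Ω μ A hA hi).2 (u - 1) (u + 1) (fun S => u - 1 ∈ S) (fun S => u + 1 ∈ S)
    (fun S S' hS => hS _ (Nat.zero_le _) le_rfl)
    (fun S S' hS => hS _ (by omega) le_rfl)
  exact h

theorem prob_PR (hI : S_IND) (hA : ∀ k, MeasurableSet (A k))
    (hi : ProbabilityTheory.iIndepSet A μ) {m z : ℕ} (hm : 3 ≤ m) (s : ℝ) : ∀ r : ℕ,
    (∀ i < r, s ≤ μ.real (A (U m z i - 1)) * μ.real (A (U m z i + 1))) →
    μ.real {ω | PR m z r (Ch A ω)} ≤ Real.exp (-(s * r)) := by
  intro r
  induction r with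
  | zero =>
    intro _
    rw [Nat.cast_zero, mul_zero, neg_zero, Real.exp_zero]
    exact measureReal_le_one
  | succ r ih =>
    intro hs
    have hge : 3 ≤ U m z r := by
      have := U_gt (z := z) hm r
      rcases Nat.eq_zero_or_pos r with h0 | h0
      · subst h0
        unfold U
        calc 3 ≤ m := hm
          _ = m * 1 := (mul_one m).symm
          _ ≤ m * (z / m + 1 + 0) := Nat.mul_le_mul_left _ (Nat.le_add_left 1 (z / m))
      · have := U_step (z := z) hm h0
        omega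
    have h1 := (hI Ω μ A hA hi).2 (U m z r - 2) (U m z r + 1) (PR m z r)
      (fun S => ¬ (U m z r - 1 ∈ S ∧ U m z r + 1 ∈ S)) (by
        intro S S' hS
        unfold PR
        refine forall₂_congr fun i hi' => ?_
        have h2 := U_step (z := z) hm hi'
        rw [hS (U m z i - 1) (Nat.zero_le _) (by omega), hS (U m z i + 1) (Nat.zero_le _) (by omega)])
      (by
        intro S S' hS
        show ¬ (U m z r - 1 ∈ S ∧ U m z r + 1 ∈ S) ↔ ¬ (U m z r - 1 ∈ S' ∧ U m z r + 1 ∈ S')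
        rw [hS (U m z r - 1) (by omega) (by omega), hS (U m z r + 1) (by omega) le_rfl])
    have h2 : {ω | PR m z (r + 1) (Ch A ω)} = {ω | PR m z r (Ch A ω) ∧
        ¬ (U m z r - 1 ∈ Ch A ω ∧ U m z r + 1 ∈ Ch A ω)} := by
      ext ω
      simp only [Set.mem_ofPred_eq]
      unfold PR
      constructor
      · intro h
        exact ⟨fun i hi' => h i (Nat.lt_succ_of_lt hi'), h r (Nat.lt_succ_self r)⟩
      · rintro ⟨h3, h4⟩ i hi'
        rcases Nat.lt_succ_iff_lt_or_eq.1 hi' with h5 | h5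
        · exact h3 i h5
        · rw [h5]
          exact h4
    have hmeas : MeasurableSet {ω | U m z r - 1 ∈ Ch A ω ∧ U m z r + 1 ∈ Ch A ω} :=
      (hA _).inter (hA _)
    have h3 : μ.real {ω | ¬ (U m z r - 1 ∈ Ch A ω ∧ U m z r + 1 ∈ Ch A ω)} =
        1 - μ.real (A (U m z r - 1)) * μ.real (A (U m z r + 1)) := by
      rw [← pair hI hA hi (U m z r) (by omega), ← probReal_compl_eq_one_sub hmeas]
      rfl
    rw [h2, h1, h3]
    have h4 := hs r (Nat.lt_succ_self r)
    have h5 := ih fun i hi' => hs i (Nat.lt_succ_of_lt hi')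
    have h6 : 1 - μ.real (A (U m z r - 1)) * μ.real (A (U m z r + 1)) ≤ Real.exp (-s) := by
      have := Real.add_one_le_exp (-s)
      linarith
    have h7 : 0 ≤ 1 - μ.real (A (U m z r - 1)) * μ.real (A (U m z r + 1)) := by
      rw [← h3]
      exact measureReal_nonneg
    calc _ ≤ Real.exp (-(s * r)) * Real.exp (-s) :=
          mul_le_mul h5 h6 h7 (Real.exp_pos _).le
      _ = Real.exp (-(s * ((r + 1 : ℕ) : ℝ))) := by
          rw [← Real.exp_add]
          congr 1
          push_cast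
          ring

end

end GapAux

open GapAux

theorem gap (hI : S_IND) : S_GAP := by
  intro Ω _ μ _ A Q k₀ θ hQ hθ hM
  obtain ⟨m, hm⟩ : ∃ m, m = 3 * Q := ⟨_, rfl⟩
  have hm3 : 3 ≤ m := by omega
  have hm0 : (0 : ℝ) < m := by exact_mod_cast (by omega : 0 < m)
  have hQm : Q ∣ m := ⟨3, by rw [hm]; ring⟩
  obtain ⟨K, hK⟩ : ∃ K, K = 8 * m / θ ^ 2 := ⟨_, rfl⟩
  have hK0 : 0 < K := by rw [hK]; positivity
  refine ⟨K, hK0, ?_⟩
  have hlog : Tendsto (fun N : ℕ => Real.log N) atTop atTop :=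
    Real.tendsto_log_atTop.comp tendsto_natCast_atTop_atTop
  -- the number of the multiples
  obtain ⟨R, hR⟩ : ∃ R : ℕ → ℕ, ∀ z, R z = ⌊K * Real.log z ^ 3 / m⌋₊ := ⟨fun z => _, fun z => rfl⟩
  have hbig : ∀ᶠ z : ℕ in atTop, K * Real.log z ^ 3 ≤ z := by
    have h1 := (Real.isLittleO_pow_log_id_atTop (n := 3)).def (c := 1 / K) (by positivity)
    filter_upwards [tendsto_natCast_atTop_atTop.eventually h1, hlog.eventually_ge_atTop 0]
      with z h2 h3
    rw [Real.norm_of_nonneg (by positivity), id, Real.norm_of_nonneg (Nat.cast_nonneg z)] at h2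
    calc K * Real.log z ^ 3 ≤ K * (1 / K * z) := mul_le_mul_of_nonneg_left h2 hK0.le
      _ = z := by field_simp
  have hev : ∀ᶠ z : ℕ in atTop, (k₀ + 3 ≤ z ∧ θ ≤ Real.log z ∧ 1 ≤ Real.log z) ∧
      K * Real.log z ^ 3 ≤ z := by
    filter_upwards [eventually_ge_atTop (k₀ + 3), hlog.eventually_ge_atTop θ,
      hlog.eventually_ge_atTop 1, hbig] with z h1 h2 h3 h4
    exact ⟨⟨h1, h2, h3⟩, h4⟩
  obtain ⟨Z, hZ⟩ := eventually_atTop.1 hev
  have hmain : ∀ z, Z ≤ z → μ.real {ω | PR m z (R z) (Ch A ω)} ≤ Real.exp 1 * (1 / (z : ℝ) ^ 2) := by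
    intro z hz
    obtain ⟨⟨h1, h2, h3⟩, h4⟩ := hZ z hz
    obtain ⟨L, hL⟩ : ∃ L, L = Real.log z := ⟨_, rfl⟩
    rw [← hL] at h2 h3 h4
    have hL0 : 0 < L := by linarith
    have hz3 : 3 ≤ z := by omega
    have hzr : (3 : ℝ) ≤ z := by exact_mod_cast hz3
    have hRm : (m : ℝ) * R z ≤ K * L ^ 3 := by
      have h5 : ((R z : ℕ) : ℝ) ≤ K * L ^ 3 / m := by
        rw [hR, ← hL]
        exact Nat.floor_le (by positivity)
      rw [le_div_iff₀ hm0] at h5
      linarith
    obtain ⟨s, hs⟩ : ∃ s, s = (θ / (2 * L)) * (θ / (2 * L)) := ⟨_, rfl⟩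
    have hlow : ∀ i < R z, s ≤ μ.real (A (U m z i - 1)) * μ.real (A (U m z i + 1)) := by
      intro i hi
      have hu1 := U_gt (z := z) hm3 i
      have hu2 : U m z i ≤ z + m * R z := U_le hi
      have hQu : Q ∣ U m z i := hQm.mul_right _
      have hu3 : ((U m z i : ℕ) : ℝ) ≤ z + K * L ^ 3 := by
        have : ((U m z i : ℕ) : ℝ) ≤ ((z + m * R z : ℕ) : ℝ) := by exact_mod_cast hu2
        push_cast at this
        linarith
      have hu4 : ((U m z i : ℕ) : ℝ) + 1 ≤ (z : ℝ) ^ 2 := by nlinarith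
      have hc1 : Nat.Coprime (U m z i - 1) Q := by
        obtain ⟨w, hw⟩ : ∃ w, U m z i = w + 1 := ⟨U m z i - 1, by omega⟩
        have h6 : Nat.Coprime w (w + 1) := by simp
        rw [hw, Nat.add_sub_cancel]
        rw [hw] at hQu
        exact h6.coprime_dvd_right hQu
      have hc2 : Nat.Coprime (U m z i + 1) Q := by
        have h6 : Nat.Coprime (U m z i + 1) (U m z i) := by simp
        exact h6.coprime_dvd_right hQu
      have hl1 : Real.log ((U m z i + 1 : ℕ) : ℝ) ≤ 2 * L := by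
        have h6 : Real.log ((U m z i + 1 : ℕ) : ℝ) ≤ Real.log ((z : ℝ) ^ 2) := by
          apply Real.log_le_log
          · exact_mod_cast Nat.succ_pos _
          · push_cast
            exact hu4
        rw [Real.log_pow, ← hL] at h6
        exact_mod_cast h6
      have hl2 : Real.log ((U m z i - 1 : ℕ) : ℝ) ≤ 2 * L := by
        refine le_trans ?_ hl1
        apply Real.log_le_log
        · exact_mod_cast (by omega : 0 < U m z i - 1)
        · exact_mod_cast (by omega : U m z i - 1 ≤ U m z i + 1)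
      have hp1 : 0 < Real.log ((U m z i + 1 : ℕ) : ℝ) :=
        Real.log_pos (by exact_mod_cast (by omega : 1 < U m z i + 1))
      have hp2 : 0 < Real.log ((U m z i - 1 : ℕ) : ℝ) :=
        Real.log_pos (by exact_mod_cast (by omega : 1 < U m z i - 1))
      rw [hM.prob _ (by omega) hc1, hM.prob _ (by omega) hc2, hs]
      have g1 : θ / (2 * L) ≤ θ / Real.log ((U m z i - 1 : ℕ) : ℝ) :=
        div_le_div_of_nonneg_left hθ.le hp2 hl2
      have g2 : θ / (2 * L) ≤ θ / Real.log ((U m z i + 1 : ℕ) : ℝ) :=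
        div_le_div_of_nonneg_left hθ.le hp1 hl1
      exact mul_le_mul g1 g2 (by positivity) (le_trans (by positivity) g1)
    have h5 := prob_PR hI hM.meas hM.indep (m := m) (z := z) hm3 s (R z) hlow
    refine h5.trans ?_
    have hs0 : 0 ≤ s := by rw [hs]; positivity
    have hs1 : s ≤ 1 := by
      have g1 : θ / (2 * L) ≤ 1 := by
        rw [div_le_one (by positivity)]
        linarith
      have g0 : 0 ≤ θ / (2 * L) := by positivity
      rw [hs]
      exact mul_le_one₀ g1 g0 g1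
    have h6 : K * L ^ 3 / m - 1 ≤ (R z : ℝ) := by
      rw [hR, ← hL]
      exact (Nat.sub_one_lt_floor _).le
    have h7 : s * (K * L ^ 3 / m) = 2 * L := by
      rw [hs, hK]
      field_simp
      ring
    have h8 : 2 * L - 1 ≤ s * R z := by
      have := mul_le_mul_of_nonneg_left h6 hs0
      rw [mul_sub, h7, mul_one] at this
      linarith
    have hz0 : (0 : ℝ) < z := by linarith
    calc Real.exp (-(s * R z)) ≤ Real.exp (1 + -(2 * L)) := Real.exp_le_exp.2 (by linarith)
      _ = Real.exp 1 * (1 / (z : ℝ) ^ 2) := by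
          rw [Real.exp_add]
          congr 1
          rw [Real.exp_neg, one_div]
          congr 1
          rw [hL, ← Real.log_rpow hz0, Real.exp_log (by positivity)]
          norm_num
  -- Borel-Cantelli
  let F : ℕ → Set Ω := fun z => if Z ≤ z then {ω | PR m z (R z) (Ch A ω)} else ∅
  have hsum : ∑' z, μ (F z) ≠ ⊤ := by
    have hs : Summable fun z : ℕ => Real.exp 1 * (1 / (z : ℝ) ^ 2) :=
      (Real.summable_one_div_nat_pow.2 (by norm_num)).mul_left _
    refine ne_top_of_le_ne_top hs.tsum_ofReal_ne_top (ENNReal.tsum_le_tsum fun z => ?_)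
    by_cases hz : Z ≤ z
    · simp only [F, if_pos hz]
      rw [← ofReal_measureReal]
      exact ENNReal.ofReal_le_ofReal (hmain z hz)
    · simp only [F, if_neg hz, measure_empty]
      exact zero_le
  filter_upwards [ae_eventually_notMem hsum] with ω hω
  filter_upwards [hω, eventually_ge_atTop Z] with z h1 hz
  simp only [F, if_pos hz, Set.mem_ofPred_eq] at h1
  unfold PR at h1
  push Not at h1
  obtain ⟨i, hi, h2, h3⟩ := h1
  obtain ⟨⟨g1, g2, g3⟩, g4⟩ := hZ z hz
  refine ⟨U m z i, (U_gt hm3 i).le, ?_, hQm.mul_right _, h2, h3⟩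
  have h4 : ((U m z i : ℕ) : ℝ) ≤ ((z + m * R z : ℕ) : ℝ) := by exact_mod_cast U_le hi
  have h5 : ((R z : ℕ) : ℝ) ≤ K * Real.log z ^ 3 / m := by
    rw [hR]
    exact Nat.floor_le (by positivity)
  rw [le_div_iff₀ hm0] at h5
  push_cast at h4
  linarith

end Pool.Agent.N860.TS
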