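import Pool.Agent.N860.TS.Stm

/-!
# Project TS, leaf IND: measurability and independence of events depending on finitely many choices
-/

set_option autoImplicit false

namespace Pool.Agent.N860.TS

open MeasureTheory Filter Finset

open Classical in
/-- events which depend on the choices in `[lo, hi]` only are measurable for each sigma-algebra which
contains the sets `A k`, `lo ≤ k ≤ hi` -/
theorem ind_meas {Ω : Type} [m : MeasurableSpace Ω] (A : ℕ → Set Ω) (lo hi : ℕ)
    (hA : ∀ k, lo ≤ k → k ≤ hi → MeasurableSet (A k)) (P : Set ℕ → Prop) (hP : Dep lo hi P) :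
    MeasurableSet {ω | P (Ch A ω)} := by
  have e : {ω | P (Ch A ω)} = ⋃ B ∈ (Icc lo hi).powerset.filter (fun B : Finset ℕ => P (B : Set ℕ)),
      ⋂ k ∈ Icc lo hi, (if k ∈ B then A k else (A k)ᶜ) := by
    ext ω
    simp only [Set.mem_setOf_eq, Set.mem_iUnion, Set.mem_iInter, mem_filter, mem_powerset,
      exists_prop]
    constructor
    · intro h
      refine ⟨(Icc lo hi).filter (fun k => k ∈ Ch A ω), ⟨filter_subset _ _, ?_⟩, ?_⟩
      · refine (hP _ _ ?_).1 h
        intro k h1 h2
        rw [mem_coe, mem_filter, mem_Icc]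
        exact ⟨fun h3 => ⟨⟨h1, h2⟩, h3⟩, fun h3 => h3.2⟩
      · intro k hk
        by_cases hkA : ω ∈ A k
        · rw [if_pos]
          · exact hkA
          · rw [mem_filter]
            exact ⟨hk, hkA⟩
        · rw [if_neg]
          · exact hkA
          · rw [mem_filter]
            exact fun h3 => hkA h3.2
    · rintro ⟨B, ⟨hB, hPB⟩, h⟩
      refine (hP _ _ ?_).1 hPB
      intro k h1 h2
      have h3 := h k (mem_Icc.2 ⟨h1, h2⟩)
      rw [mem_coe]
      constructor
      · intro hk
        rw [if_pos hk] at h3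
        exact h3
      · intro hk
        by_contra hk'
        rw [if_neg hk'] at h3
        exact h3 hk
  rw [e]
  refine Finset.measurableSet_biUnion _ fun B _ => Finset.measurableSet_biInter _ fun k hk => ?_
  rw [mem_Icc] at hk
  split_ifs
  · exact hA k hk.1 hk.2
  · exact (hA k hk.1 hk.2).compl

theorem ind : S_IND := by
  intro Ω _ μ _ A hA hI
  refine ⟨fun lo hi P hP => ind_meas A lo hi (fun k _ _ => hA k) P hP, ?_⟩
  intro x hi P P' hP hP'
  have hdis : Disjoint (Set.Iic x) (Set.Ioi x) := by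
    rw [Set.disjoint_left]
    intro k hk hk'
    rw [Set.mem_Iic] at hk
    rw [Set.mem_Ioi] at hk'
    omega
  have h := hI.indep_generateFrom_of_disjoint hA _ _ hdis
  rw [ProbabilityTheory.Indep_iff] at h
  have h1 := h {ω | P (Ch A ω)} {ω | P' (Ch A ω)}
    (@ind_meas Ω (MeasurableSpace.generateFrom {t | ∃ n ∈ Set.Iic x, A n = t}) A 0 x
      (fun k _ hk => MeasurableSpace.measurableSet_generateFrom ⟨k, hk, rfl⟩) P hP)
    (@ind_meas Ω (MeasurableSpace.generateFrom {t | ∃ n ∈ Set.Ioi x, A n = t}) A (x + 1) hi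
      (fun k hk _ => MeasurableSpace.measurableSet_generateFrom ⟨k, hk, rfl⟩) P' hP')
  have h2 : {ω | P (Ch A ω) ∧ P' (Ch A ω)} = {ω | P (Ch A ω)} ∩ {ω | P' (Ch A ω)} := rfl
  rw [h2, measureReal_def, h1, ENNReal.toReal_mul, measureReal_def, measureReal_def]

end Pool.Agent.N860.TS
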