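import Mathlib

/-!
# Project TS: totient sums and random primes (MP_61a569_nt)

Model: independent events `A k` (`k` is chosen), `P(A k) = θ / log k` for all large `k` coprime to `Q`, no other large
`k` is chosen.  `S = {k | ω ∈ A k}`, `p_m` the `m`-th element of `S`.
Goal: almost surely for all large `n` there is `k` with `q = φ(k) + φ(n-k)/2 + 1 ∈ S`, `p_q - q - 1 ∈ S`,
`p_q - q + 1 ∈ S`.
-/

set_option autoImplicit false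

namespace Pool.Agent.N860.TS

open MeasureTheory Filter Finset
open scoped Topology

/-- `q(n,k) = φ(k) + φ(n-k)/2 + 1` -/
def q (n k : ℕ) : ℕ := Nat.totient k + Nat.totient (n - k) / 2 + 1

/-- the random model -/
structure Model {Ω : Type} [MeasurableSpace Ω] (μ : Measure Ω) (A : ℕ → Set Ω) (Q k₀ : ℕ) (θ : ℝ) : Prop where
  meas : ∀ k, MeasurableSet (A k)
  indep : ProbabilityTheory.iIndepSet A μ
  prob : ∀ k, k₀ ≤ k → Nat.Coprime k Q → μ.real (A k) = θ / Real.log k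
  none : ∀ k, k₀ ≤ k → ¬ Nat.Coprime k Q → A k = ∅

/-- the set of the chosen integers -/
def Ch {Ω : Type} (A : ℕ → Set Ω) (ω : Ω) : Set ℕ := {k | ω ∈ A k}

open Classical in
/-- the number of the elements of `S` below `m` -/
noncomputable def cnt (S : Set ℕ) (m : ℕ) : ℕ := ((range m).filter (· ∈ S)).card

open Classical in
/-- the number of the elements of `S` in the open interval `(x, y)` -/
noncomputable def bet (S : Set ℕ) (x y : ℕ) : ℕ := ((Ioo x y).filter (· ∈ S)).card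

/-! ### Number theory -/

open Classical in
/-- MERT: more than half (at least three fifths) of the integers below `n` have a prime factor larger than `n^0.51`. -/
def S_MERT : Prop := ∀ᶠ n : ℕ in atTop,
  (3 / 5 : ℝ) * n ≤ (((Ico 1 n).filter (fun k => ∃ p : ℕ, p.Prime ∧ p ∣ k ∧ (n : ℝ) ^ (51 / 100 : ℝ) < p)).card : ℝ)

open Classical in
/-- PHM: `Q` divides `φ(k)` for almost all `k`. -/
def S_PHM : Prop := ∀ Q : ℕ, 1 ≤ Q → ∀ ε : ℝ, 0 < ε → ∀ᶠ n : ℕ in atTop,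
  (((Ico 1 n).filter (fun k => ¬ Q ∣ Nat.totient k)).card : ℝ) ≤ ε * n

open Classical in
/-- PHL: `φ(k) ≥ c k` for at least 95 percent of the `k`. -/
def S_PHL : Prop := ∃ c : ℝ, 0 < c ∧ ∀ n : ℕ, 1 ≤ n →
  (((Ico 1 n).filter (fun k => (Nat.totient k : ℝ) < c * k)).card : ℝ) ≤ n / 20

/-- `k = a p`, `n - k = b p'` with primes `p, p' > n^0.51` and `a φ(b) ≠ 2 b φ(a)` -/
def Gen (n k : ℕ) : Prop := ∃ a b p p' : ℕ, p.Prime ∧ p'.Prime ∧ (n : ℝ) ^ (51 / 100 : ℝ) < p ∧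
  (n : ℝ) ^ (51 / 100 : ℝ) < p' ∧ k = a * p ∧ n - k = b * p' ∧ a * Nat.totient b ≠ 2 * b * Nat.totient a

open Classical in
/-- FIB: every value is taken at most `n^0.98` times. -/
def S_FIB : Prop := ∀ᶠ n : ℕ in atTop, ∀ v : ℕ,
  (((Ico 1 n).filter (fun k => Gen n k ∧ q n k = v)).card : ℝ) ≤ (n : ℝ) ^ (98 / 100 : ℝ)

/-- VAL: for EVERY large `n` there are at least `n^0.01` distinct numbers `q(n,k)` which are `1` modulo `Q`. -/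
def S_VAL : Prop := ∃ c : ℝ, 0 < c ∧ ∀ Q : ℕ, 1 ≤ Q → ∀ᶠ n : ℕ in atTop, ∃ V : Finset ℕ,
  (n : ℝ) ^ (1 / 100 : ℝ) ≤ V.card ∧ ∀ v ∈ V, c * n ≤ v ∧ v ≤ 2 * n ∧ v % Q = 1 % Q ∧
    ∃ k, 1 ≤ k ∧ k + 2 < n ∧ q n k = v

/-- SEP: a separated subset -/
def S_SEP : Prop := ∀ (V : Finset ℕ) (J : ℕ), 1 ≤ J → ∃ W : Finset ℕ, W ⊆ V ∧ V.card ≤ J * W.card ∧
  ∀ a ∈ W, ∀ b ∈ W, a < b → a + J ≤ b

/-! ### Probability -/

/-- BIN: the binomial distribution near its mean -/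
def S_BIN : Prop := ∀ (M k : ℕ) (ρ : ℝ), 0 < k → k < M → 0 < ρ → ρ < 1 →
  1 / ((M : ℝ) + 1) * Real.exp (-((k - M * ρ) ^ 2 / (M * ρ * (1 - ρ)))) ≤
    (M.choose k : ℝ) * ρ ^ k * (1 - ρ) ^ (M - k)

open Classical in
/-- EXA: exactly `k` of the events in `I` -/
def S_EXA : Prop := ∀ (Ω : Type) [MeasurableSpace Ω] (μ : Measure Ω) [IsProbabilityMeasure μ] (A : ℕ → Set Ω),
  (∀ k, MeasurableSet (A k)) → ProbabilityTheory.iIndepSet A μ → ∀ (I : Finset ℕ) (k : ℕ) (r R : ℝ),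
  0 ≤ r → R ≤ 1 → (∀ i ∈ I, r ≤ μ.real (A i) ∧ μ.real (A i) ≤ R) →
  (I.card.choose k : ℝ) * r ^ k * (1 - R) ^ (I.card - k) ≤
    μ.real {ω | (I.filter (fun i => ω ∈ A i)).card = k}

/-- `J = ⌈(log n)^4⌉` -/
noncomputable def J (n : ℕ) : ℕ := ⌈(Real.log n) ^ 4⌉₊

/-- `g = ⌈K (log n)^3⌉` -/
noncomputable def g (K : ℝ) (n : ℕ) : ℕ := ⌈K * (Real.log n) ^ 3⌉₊

/-- `Y = x + ⌈J log x Q / (φ(Q) θ)⌉`: the place where the `J`-th element after `x` is expected -/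
noncomputable def Y (Q : ℕ) (θ : ℝ) (n x : ℕ) : ℕ :=
  x + ⌈(J n : ℝ) * Real.log x * Q / (Nat.totient Q * θ)⌉₊

/-- PAT: the probability that `y` is the `J`-th chosen number after `x` is not very small -/
def S_PAT : Prop := ∀ (Ω : Type) [MeasurableSpace Ω] (μ : Measure Ω) [IsProbabilityMeasure μ] (A : ℕ → Set Ω)
  (Q k₀ : ℕ) (θ : ℝ), 1 ≤ Q → 0 < θ → Model μ A Q k₀ θ → ∀ K : ℝ, 0 < K → ∀ᶠ n : ℕ in atTop,
  ∀ x : ℕ, 2 * n < x → x < n ^ 2 → ∀ y : ℕ, Y Q θ n x ≤ y → y ≤ Y Q θ n x + g K n → Nat.Coprime y Q →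
    (n : ℝ) ^ (-(1 / 1000 : ℝ)) ≤ μ.real {ω | bet (Ch A ω) x y + 1 = J n ∧ y ∈ Ch A ω}

/-- GAP: the gaps between the `u ∈ Q ℤ` with `u - 1, u + 1` chosen -/
def S_GAP : Prop := ∀ (Ω : Type) [MeasurableSpace Ω] (μ : Measure Ω) [IsProbabilityMeasure μ] (A : ℕ → Set Ω)
  (Q k₀ : ℕ) (θ : ℝ), 1 ≤ Q → 0 < θ → Model μ A Q k₀ θ → ∃ K : ℝ, 0 < K ∧ ∀ᵐ ω ∂μ, ∀ᶠ z : ℕ in atTop,
    ∃ u : ℕ, z ≤ u ∧ (u : ℝ) ≤ z + K * (Real.log z) ^ 3 ∧ Q ∣ u ∧ u - 1 ∈ Ch A ω ∧ u + 1 ∈ Ch A ω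

/-- CNT: the number of the chosen integers -/
def S_CNT : Prop := ∀ (Ω : Type) [MeasurableSpace Ω] (μ : Measure Ω) [IsProbabilityMeasure μ] (A : ℕ → Set Ω)
  (Q k₀ : ℕ) (θ : ℝ), 1 ≤ Q → 0 < θ → Model μ A Q k₀ θ → ∃ c C : ℝ, 0 < c ∧ ∀ᵐ ω ∂μ, ∀ᶠ x : ℕ in atTop,
    c * (x / Real.log x) ≤ (cnt (Ch A ω) x : ℝ) ∧ (cnt (Ch A ω) x : ℝ) ≤ C * (x / Real.log x)

/-- the property `P` of a set depends only on the elements in `[lo, hi]` -/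
def Dep (lo hi : ℕ) (P : Set ℕ → Prop) : Prop :=
  ∀ S S' : Set ℕ, (∀ k, lo ≤ k → k ≤ hi → (k ∈ S ↔ k ∈ S')) → (P S ↔ P S')

/-- IND: measurability and independence -/
def S_IND : Prop := ∀ (Ω : Type) [MeasurableSpace Ω] (μ : Measure Ω) [IsProbabilityMeasure μ] (A : ℕ → Set Ω),
  (∀ k, MeasurableSet (A k)) → ProbabilityTheory.iIndepSet A μ →
  (∀ (lo hi : ℕ) (P : Set ℕ → Prop), Dep lo hi P → MeasurableSet {ω | P (Ch A ω)}) ∧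
  (∀ (x hi : ℕ) (P P' : Set ℕ → Prop), Dep 0 x P → Dep (x + 1) hi P' →
    μ.real {ω | P (Ch A ω) ∧ P' (Ch A ω)} = μ.real {ω | P (Ch A ω)} * μ.real {ω | P' (Ch A ω)})

/-- `x` is the element number `v - j` of `S` -/
def St (j v x : ℕ) (S : Set ℕ) : Prop := x ∈ S ∧ cnt S (x + 1) + j = v

/-- a multiple `u` of `Q` in `[z, z + w]` with `u - 1, u + 1 ∈ S` -/
def Gp (Q w z : ℕ) (S : Set ℕ) : Prop := ∃ u, z ≤ u ∧ u ≤ z + w ∧ Q ∣ u ∧ u - 1 ∈ S ∧ u + 1 ∈ S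

/-- `v ∈ S`, and `u - 1, u + 1 ∈ S` for `u = p_v - v ≥ 1` -/
def Suc (v : ℕ) (S : Set ℕ) : Prop :=
  v ∈ S ∧ ∃ u, 1 ≤ u ∧ u - 1 ∈ S ∧ u + 1 ∈ S ∧ u + v ∈ S ∧ cnt S (u + v) + 1 = v

/-- the bad event for `v`: the exploration starts well but `v` is not a solution -/
def Bad (N X Q j w : ℕ) (Z : ℕ → ℕ) (v : ℕ) (S : Set ℕ) : Prop :=
  (∃ x, N < x ∧ x < X ∧ St j v x S ∧ Gp Q w (Z x - v) S) ∧ ¬ Suc v S

/-- the conditions on the parameters for one value `v` -/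
structure Par (N X j w : ℕ) (Z : ℕ → ℕ) (v : ℕ) : Prop where
  vN : v ≤ N
  hj : 1 ≤ j
  jv : j ≤ v
  low : ∀ x, N < x → x < X → v < Z x
  up : ∀ x, N < x → x < X → x < Z x ∧ Z x + w + 1 < x + v

/-- STEP: one step of the exploration -/
def S_STEP : Prop := ∀ (Ω : Type) [MeasurableSpace Ω] (μ : Measure Ω) [IsProbabilityMeasure μ] (A : ℕ → Set Ω),
  (∀ k, MeasurableSet (A k)) → ProbabilityTheory.iIndepSet A μ →
  ∀ (N X Q j w : ℕ) (Z : ℕ → ℕ) (v : ℕ) (δ : ℝ), Par N X j w Z v → 0 ≤ δ → δ ≤ 1 →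
  (∀ x y : ℕ, N < x → x < X → Z x ≤ y → y ≤ Z x + w → y % Q = v % Q →
    δ ≤ μ.real {ω | bet (Ch A ω) x y + 1 = j ∧ y ∈ Ch A ω}) →
  ∀ D W : Set ℕ → Prop, Dep 0 N D → MeasurableSet {ω | W (Ch A ω)} →
  (∀ x, N < x → x < X → Dep 0 x (fun S => W S ∧ St j v x S)) →
    μ.real {ω | D (Ch A ω) ∧ W (Ch A ω) ∧ Bad N X Q j w Z v (Ch A ω)} ≤
      μ.real {ω | D (Ch A ω) ∧ W (Ch A ω)} - δ * μ.real {ω | D (Ch A ω) ∧ W (Ch A ω) ∧ v ∈ Ch A ω}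

/-- DB: the earlier bad events are decided before the next exploration starts -/
def S_DB : Prop := ∀ (N X Q j w : ℕ) (Z : ℕ → ℕ) (V : Finset ℕ) (v : ℕ), Par N X j w Z v →
  (∀ v' ∈ V, Par N X j w Z v' ∧ v' + j ≤ v) →
  ∀ x, N < x → x < X → Dep 0 x (fun S => (∀ v' ∈ V, Bad N X Q j w Z v' S) ∧ St j v x S)

/-- MB: the bad events are measurable -/
def S_MB : Prop := ∀ (Ω : Type) [MeasurableSpace Ω] (A : ℕ → Set Ω), (∀ k, MeasurableSet (A k)) →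
  ∀ (N X Q j w : ℕ) (Z : ℕ → ℕ) (v : ℕ), MeasurableSet {ω | Bad N X Q j w Z v (Ch A ω)}

/-- REC: all steps together -/
def S_REC : Prop := ∀ (Ω : Type) [MeasurableSpace Ω] (μ : Measure Ω) [IsProbabilityMeasure μ] (A : ℕ → Set Ω),
  (∀ k, MeasurableSet (A k)) → ProbabilityTheory.iIndepSet A μ →
  ∀ (N X Q j w : ℕ) (Z : ℕ → ℕ) (V : Finset ℕ) (δ : ℝ), (∀ v ∈ V, Par N X j w Z v) →
  (∀ v ∈ V, ∀ v' ∈ V, v < v' → v + j ≤ v') → 0 ≤ δ → δ ≤ 1 →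
  (∀ v ∈ V, ∀ x y : ℕ, N < x → x < X → Z x ≤ y → y ≤ Z x + w → y % Q = v % Q →
    δ ≤ μ.real {ω | bet (Ch A ω) x y + 1 = j ∧ y ∈ Ch A ω}) →
  μ.real {ω | ∀ v ∈ V, Bad N X Q j w Z v (Ch A ω)} ≤ ∏ v ∈ V, (1 - δ * μ.real (A v))

/-- SUM: the failure probabilities are summable -/
def S_SUM : Prop := ∀ (Ω : Type) [MeasurableSpace Ω] (μ : Measure Ω) [IsProbabilityMeasure μ] (A : ℕ → Set Ω)
  (Q k₀ : ℕ) (θ : ℝ), 1 ≤ Q → 0 < θ → Model μ A Q k₀ θ → ∀ K : ℝ, 0 < K → ∀ c : ℝ, 0 < c →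
  ∀ V : ℕ → Finset ℕ, (∀ᶠ n : ℕ in atTop, (n : ℝ) ^ (1 / 100 : ℝ) ≤ (J n : ℝ) * (V n).card ∧
    (∀ v ∈ V n, c * n ≤ v ∧ v ≤ 2 * n ∧ v % Q = 1 % Q) ∧ ∀ a ∈ V n, ∀ b ∈ V n, a < b → a + J n ≤ b) →
  ∀ᵐ ω ∂μ, ∀ᶠ n : ℕ in atTop, ∃ v ∈ V n, ¬ Bad (2 * n) (n ^ 2) Q (J n) (g K n) (Y Q θ n) v (Ch A ω)

/-- START: almost surely all explorations start well -/
def S_START : Prop := ∀ (Ω : Type) [MeasurableSpace Ω] (μ : Measure Ω) [IsProbabilityMeasure μ] (A : ℕ → Set Ω)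
  (Q k₀ : ℕ) (θ : ℝ), 1 ≤ Q → 0 < θ → Model μ A Q k₀ θ → ∃ K : ℝ, 0 < K ∧ ∀ c : ℝ, 0 < c →
  ∀ᵐ ω ∂μ, ∀ᶠ n : ℕ in atTop, ∀ v : ℕ, c * n ≤ v → v ≤ 2 * n →
    ∃ x, 2 * n < x ∧ x < n ^ 2 ∧ St (J n) v x (Ch A ω) ∧ Gp Q (g K n) (Y Q θ n x - v) (Ch A ω)

end Pool.Agent.N860.TS
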