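import Mathlib
import Pool.Agent.N860.TS.Stm
import Pool.Agent.H305R2.MertensM

/-!
# TS/MERT: most integers have a large prime factor (helper803)
-/

set_option autoImplicit false

namespace Pool.Agent.N860.TS

open Filter Finset
open scoped Topology

namespace MertAux

/-- disjoint sets of multiples -/
theorem cnt_lower (n z : ℕ) (y : ℝ) (hz : ∀ p : ℕ, z < p → y < p) (hy0 : 0 ≤ y)
    (hy : (n : ℝ) ≤ y * y) (F : Finset ℕ)
    (hF : ∀ k ∈ Ico 1 n, (∃ p : ℕ, p.Prime ∧ p ∣ k ∧ y < p) → k ∈ F) :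
    ∑ p ∈ ((Icc 1 (n - 1)).filter Nat.Prime) \ ((Icc 1 z).filter Nat.Prime), (n - 1) / p ≤
      F.card := by
  classical
  have hP : ∀ p ∈ ((Icc 1 (n - 1)).filter Nat.Prime) \ ((Icc 1 z).filter Nat.Prime),
      p.Prime ∧ z < p := by
    intro p hp
    rw [Finset.mem_sdiff, mem_filter, mem_filter, mem_Icc, mem_Icc] at hp
    refine ⟨hp.1.2, ?_⟩
    by_contra hcon
    exact hp.2 ⟨⟨hp.1.1.1, by omega⟩, hp.1.2⟩
  have hdis : Set.PairwiseDisjoint
      (((((Icc 1 (n - 1)).filter Nat.Prime) \ ((Icc 1 z).filter Nat.Prime) : Finset ℕ)) : Set ℕ)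
      (fun p => (Ioc 0 (n - 1)).filter (fun k => p ∣ k)) := by
    intro p hp p' hp' hne
    rw [Function.onFun, Finset.disjoint_left]
    intro k hk hk'
    obtain ⟨h1, h2⟩ := hP p hp
    obtain ⟨h1', h2'⟩ := hP p' hp'
    rw [mem_filter, mem_Ioc] at hk hk'
    have h3 : p * p' ∣ k := ((Nat.coprime_primes h1 h1').2 hne).mul_dvd_of_dvd_of_dvd hk.2 hk'.2
    have h4 : p * p' ≤ k := Nat.le_of_dvd hk.1.1 h3
    have h5 : (p : ℝ) * p' ≤ (k : ℝ) := by exact_mod_cast h4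
    have h6 : (k : ℝ) < n := by
      have : k < n := by omega
      exact_mod_cast this
    have h7 : y * y ≤ (p : ℝ) * p' :=
      mul_le_mul (hz p h2).le (hz p' h2').le hy0 (Nat.cast_nonneg p)
    linarith
  have h1 : ∑ p ∈ ((Icc 1 (n - 1)).filter Nat.Prime) \ ((Icc 1 z).filter Nat.Prime), (n - 1) / p =
      ((((Icc 1 (n - 1)).filter Nat.Prime) \ ((Icc 1 z).filter Nat.Prime)).biUnion
        (fun p => (Ioc 0 (n - 1)).filter (fun k => p ∣ k))).card := by
    rw [Finset.card_biUnion hdis]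
    exact Finset.sum_congr rfl fun p _ => (Nat.Ioc_filter_dvd_card_eq_div (n - 1) p).symm
  rw [h1]
  apply Finset.card_le_card
  intro k hk
  rw [mem_biUnion] at hk
  obtain ⟨p, hp, hk⟩ := hk
  rw [mem_filter, mem_Ioc] at hk
  obtain ⟨h2, h3⟩ := hP p hp
  exact hF k (by rw [mem_Ico]; omega) ⟨p, h2, hk.2, hz p h3⟩

theorem div_ge (a b : ℕ) (hb : 0 < b) : (a : ℝ) * (1 / b) - 1 ≤ ((a / b : ℕ) : ℝ) := by
  have h1 : a < a / b * b + b := Nat.lt_div_mul_add hb
  have h2 : (a : ℝ) < ((a / b : ℕ) : ℝ) * b + b := by exact_mod_cast h1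
  have hb' : (0 : ℝ) < b := by exact_mod_cast hb
  have h3 : (a : ℝ) * (1 / b) < ((a / b : ℕ) : ℝ) + 1 := by
    rw [mul_one_div, div_lt_iff₀ hb']
    linarith
  linarith

theorem log_bound : (65 / 100 : ℝ) ≤ Real.log (33 / 17) := by
  rw [Real.le_log_iff_exp_le (by norm_num)]
  have h1 : Real.exp (65 / 100) ^ 20 ≤ (33 / 17 : ℝ) ^ 20 := by
    have h2 : Real.exp (65 / 100) ^ 20 = Real.exp 1 ^ 13 := by
      rw [← Real.exp_nat_mul, ← Real.exp_nat_mul]
      congr 1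
      norm_num
    rw [h2]
    calc Real.exp 1 ^ 13 ≤ (2.7182818286 : ℝ) ^ 13 :=
          pow_le_pow_left₀ (Real.exp_pos 1).le Real.exp_one_lt_d9.le 13
      _ ≤ _ := by norm_num
  exact le_of_pow_le_pow_left₀ (by norm_num) (by norm_num) h1

end MertAux

open MertAux

theorem mert : S_MERT := by
  classical
  obtain ⟨M, hM⟩ := Pool.Agent.H305R2.mertens_inv_tendsto
  obtain ⟨Z, hZ⟩ : ∃ Z : ℕ → ℕ, Z = fun n : ℕ => ⌊(n : ℝ) ^ (51 / 100 : ℝ)⌋₊ := ⟨_, rfl⟩
  have hzt : Tendsto Z atTop atTop := by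
    rw [hZ]
    exact tendsto_nat_floor_atTop.comp
      ((tendsto_rpow_atTop (by norm_num)).comp tendsto_natCast_atTop_atTop)
  have hn1 : Tendsto (fun n : ℕ => n - 1) atTop atTop := tendsto_sub_atTop_nat 1
  have hT := (hM.comp hn1).sub (hM.comp hzt)
  rw [sub_self] at hT
  have hev1 := hT.eventually (lt_mem_nhds (show (-(1 / 100) : ℝ) < 0 by norm_num))
  have hlog : Tendsto (fun n : ℕ => Real.log (n : ℝ)) atTop atTop :=
    Real.tendsto_log_atTop.comp tendsto_natCast_atTop_atTop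
  have hev2 : ∀ᶠ n : ℕ in atTop, (300 : ℝ) ≤ Real.log n := hlog.eventually_ge_atTop 300
  have hev3 : ∀ᶠ n : ℕ in atTop, (Nat.primeCounting ⌊(n : ℝ)⌋₊ : ℝ) ≤
      (Real.log 4 + 1) * (n : ℝ) / Real.log n :=
    tendsto_natCast_atTop_atTop.eventually (Chebyshev.eventually_primeCounting_le one_pos)
  have hev4 : ∀ᶠ n : ℕ in atTop, 2 ≤ Z n := hzt.eventually_ge_atTop 2
  filter_upwards [hev1, hev2, hev3, hev4, eventually_ge_atTop 100] with n h1 h2 h3 h4 h5
  have hn : (100 : ℝ) ≤ n := by exact_mod_cast h5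
  have hn0 : (0 : ℝ) < n := by linarith
  obtain ⟨y, hy⟩ : ∃ y : ℝ, y = (n : ℝ) ^ (51 / 100 : ℝ) := ⟨_, rfl⟩
  have hy0 : 0 < y := by rw [hy]; exact Real.rpow_pos_of_pos hn0 _
  have hZn : Z n = ⌊y⌋₊ := by rw [hZ, hy]
  have hZy : (Z n : ℝ) ≤ y := by rw [hZn]; exact Nat.floor_le hy0.le
  have hyy : (n : ℝ) ≤ y * y := by
    rw [hy, ← Real.rpow_add hn0]
    calc (n : ℝ) = (n : ℝ) ^ (1 : ℝ) := (Real.rpow_one _).symm
      _ ≤ _ := Real.rpow_le_rpow_of_exponent_le (by linarith) (by norm_num)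
  have hyn : y < n := by
    rw [hy]
    calc (n : ℝ) ^ (51 / 100 : ℝ) < (n : ℝ) ^ (1 : ℝ) :=
          Real.rpow_lt_rpow_of_exponent_lt (by linarith) (by norm_num)
      _ = n := Real.rpow_one _
  have hZlt : Z n < n := by
    have : (Z n : ℝ) < n := lt_of_le_of_lt hZy hyn
    exact_mod_cast this
  obtain ⟨P, hP⟩ : ∃ P : Finset ℕ, P = ((Icc 1 (n - 1)).filter Nat.Prime) \
      ((Icc 1 (Z n)).filter Nat.Prime) := ⟨_, rfl⟩
  have hlow := cnt_lower n (Z n) y (fun p hp => by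
    rw [hZn] at hp
    exact (Nat.floor_lt hy0.le).1 hp) hy0.le hyy
    ((Ico 1 n).filter (fun k => ∃ p : ℕ, p.Prime ∧ p ∣ k ∧ (n : ℝ) ^ (51 / 100 : ℝ) < p))
    (fun k hk hp => by
      rw [mem_filter]
      refine ⟨hk, ?_⟩
      rw [← hy]
      exact hp)
  rw [← hP] at hlow
  -- the sum of `1 / p`
  have hsum : ∑ p ∈ P, (1 : ℝ) / p = ∑ p ∈ (Icc 1 (n - 1)).filter Nat.Prime, (1 : ℝ) / p -
      ∑ p ∈ (Icc 1 (Z n)).filter Nat.Prime, (1 : ℝ) / p := by
    rw [hP, eq_sub_iff_add_eq]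
    apply Finset.sum_sdiff
    intro p hp
    rw [mem_filter, mem_Icc] at hp ⊢
    exact ⟨⟨hp.1.1, by omega⟩, hp.2⟩
  have hlogn : 0 < Real.log n := by linarith
  have hZ2 : (2 : ℝ) ≤ Z n := by exact_mod_cast h4
  have hlz : 0 < Real.log (Z n) := Real.log_pos (by linarith)
  have hlz2 : Real.log (Z n) ≤ 51 / 100 * Real.log n := by
    have := Real.log_le_log (by linarith) hZy
    rwa [hy, Real.log_rpow hn0] at this
  have hcast : ((n - 1 : ℕ) : ℝ) = (n : ℝ) - 1 := by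
    rw [Nat.cast_sub (by omega)]; norm_num
  have hln1 : 99 / 100 * Real.log n ≤ Real.log ((n - 1 : ℕ) : ℝ) := by
    have h6 : Real.log (n / 2) ≤ Real.log ((n - 1 : ℕ) : ℝ) := by
      apply Real.log_le_log (by positivity)
      rw [hcast]
      linarith
    rw [Real.log_div hn0.ne' two_ne_zero] at h6
    have h7 := Real.log_two_lt_d9
    linarith
  have hll : (65 / 100 : ℝ) ≤ Real.log (Real.log ((n - 1 : ℕ) : ℝ)) -
      Real.log (Real.log (Z n)) := by
    have h6 : Real.log (99 / 100 * Real.log n) ≤ Real.log (Real.log ((n - 1 : ℕ) : ℝ)) :=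
      Real.log_le_log (by positivity) hln1
    have h7 : Real.log (Real.log (Z n)) ≤ Real.log (51 / 100 * Real.log n) :=
      Real.log_le_log hlz hlz2
    have h8 : Real.log (99 / 100 * Real.log n) - Real.log (51 / 100 * Real.log n) =
        Real.log (33 / 17) := by
      rw [← Real.log_div (by positivity) (by positivity)]
      congr 1
      field_simp
      norm_num
    have h9 := log_bound
    linarith
  have hS : (64 / 100 : ℝ) ≤ ∑ p ∈ P, (1 : ℝ) / p := by
    rw [hsum]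
    simp only [Function.comp_apply] at h1
    linarith
  -- the number of primes
  have hPc : (P.card : ℝ) ≤ 1 / 100 * n := by
    have h6 : P.card ≤ Nat.primeCounting n := by
      rw [Nat.primeCounting, Nat.primeCounting', Nat.count_eq_card_filter_range]
      apply Finset.card_le_card
      intro p hp
      rw [hP, Finset.mem_sdiff, mem_filter, mem_Icc] at hp
      rw [mem_filter, mem_range]
      exact ⟨by omega, hp.1.2⟩
    have h7 : (P.card : ℝ) ≤ Nat.primeCounting n := by exact_mod_cast h6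
    rw [Nat.floor_natCast] at h3
    have h8 : (Real.log 4 + 1) * (n : ℝ) / Real.log n ≤ 1 / 100 * n := by
      rw [div_le_iff₀ hlogn]
      have h9 : Real.log 4 ≤ 2 := by
        have h10 : Real.log 4 = 2 * Real.log 2 := by
          have : (4 : ℝ) = 2 ^ 2 := by norm_num
          rw [this, Real.log_pow]
          norm_num
        rw [h10]
        have := Real.log_two_lt_d9
        linarith
      have h11 : (Real.log 4 + 1) * (n : ℝ) ≤ 3 * n :=
        mul_le_mul_of_nonneg_right (by linarith) hn0.le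
      have h12 : 3 * (n : ℝ) ≤ 1 / 100 * n * Real.log n := by
        nlinarith
      linarith
    linarith
  -- conclusion
  have hPp : ∀ p ∈ P, 0 < p := by
    intro p hp
    rw [hP, Finset.mem_sdiff, mem_filter, mem_Icc] at hp
    omega
  have hfin : ((n - 1 : ℕ) : ℝ) * ∑ p ∈ P, (1 : ℝ) / p - P.card ≤
      ((∑ p ∈ P, (n - 1) / p : ℕ) : ℝ) := by
    rw [Nat.cast_sum, Finset.mul_sum, Finset.card_eq_sum_ones, Nat.cast_sum,
      ← Finset.sum_sub_distrib]
    refine Finset.sum_le_sum fun p hp => ?_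
    have := div_ge (n - 1) p (hPp p hp)
    simpa using this
  have hlow' : ((∑ p ∈ P, (n - 1) / p : ℕ) : ℝ) ≤ (((Ico 1 n).filter
      (fun k => ∃ p : ℕ, p.Prime ∧ p ∣ k ∧ (n : ℝ) ^ (51 / 100 : ℝ) < p)).card : ℝ) := by
    exact_mod_cast hlow
  have h6 : ((n : ℝ) - 1) * (64 / 100) ≤ ((n - 1 : ℕ) : ℝ) * ∑ p ∈ P, (1 : ℝ) / p := by
    rw [hcast]
    exact mul_le_mul_of_nonneg_left hS (by linarith)
  have h7 : (3 / 5 : ℝ) * n ≤ ((n : ℝ) - 1) * (64 / 100) - 1 / 100 * n := by linarith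
  refine h7.trans (le_trans ?_ hlow')
  linarith

end Pool.Agent.N860.TS
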