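import Pool.Agent.N860.TS.Stm

/-!
# Project TS, PAT: the probability that a given number is the `J`-th chosen number after `x`

Written by helper470.
-/

set_option autoImplicit false

namespace Pool.Agent.N860.TS

open MeasureTheory Filter Finset
open scoped Topology

namespace Pat

/-- The number of integers in an interval which are coprime to `Q`. -/
lemma cop_count (Q : ℕ) (hQ : 1 ≤ Q) (a : ℕ) : ∀ m : ℕ,
    Q * ((Ico a (a + m)).filter fun k => Nat.Coprime k Q).card ≤ Q.totient * m + Q * Q ∧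
      Q.totient * m ≤ Q * ((Ico a (a + m)).filter fun k => Nat.Coprime k Q).card + Q * Q := by
  intro m
  induction m using Nat.strong_induction_on with
  | _ m ih =>
    rcases lt_or_ge m Q with h | h
    · have h1 : ((Ico a (a + m)).filter fun k => Nat.Coprime k Q).card ≤ m := by
        refine (card_filter_le _ _).trans ?_
        rw [Nat.card_Ico]
        omega
      have h2 : Q.totient ≤ Q := Nat.totient_le Q
      constructor
      · have : Q * ((Ico a (a + m)).filter fun k => Nat.Coprime k Q).card ≤ Q * Q :=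
          Nat.mul_le_mul_left Q (h1.trans h.le)
        omega
      · have : Q.totient * m ≤ Q * Q := Nat.mul_le_mul h2 h.le
        omega
    · obtain ⟨t, rfl⟩ : ∃ t, m = t + Q := ⟨m - Q, by omega⟩
      have h1 := ih t (by omega)
      have h2 : ((Ico a (a + (t + Q))).filter fun k => Nat.Coprime k Q).card =
          ((Ico a (a + t)).filter fun k => Nat.Coprime k Q).card + Q.totient := by
        have h3 : Ico a (a + (t + Q)) = Ico a (a + t) ∪ Ico (a + t) (a + t + Q) := by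
          rw [Finset.Ico_union_Ico_eq_Ico (by omega) (by omega), add_assoc]
        rw [h3, filter_union, card_union_of_disjoint]
        · congr 1
          rw [← Nat.filter_coprime_Ico_eq_totient Q (a + t)]
          congr 1
          apply filter_congr
          intro k _
          exact Nat.coprime_comm
        · apply disjoint_filter_filter
          rw [Finset.disjoint_left]
          intro k hk hk'
          rw [mem_Ico] at hk hk'
          omega
      rw [h2, mul_add, mul_add]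
      have h5 : Q * Q.totient = Q.totient * Q := mul_comm _ _
      constructor
      · have := h1.1
        omega
      · have := h1.2
        omega

lemma MR_bounds {Q φ θ K L lx D M J : ℝ} (hQ : 1 ≤ Q) (hφ1 : 1 ≤ φ) (hφQ : φ ≤ Q) (hθ : 0 < θ)
    (hK : 0 < K) (hL : 1 ≤ L) (hlx : L ≤ lx) (hD0 : J * lx * Q / (φ * θ) ≤ D)
    (hD1 : D ≤ J * lx * Q / (φ * θ) + K * L ^ 3 + 2) (hM1 : Q * M ≤ φ * D + Q ^ 2)
    (hM2 : φ * D ≤ Q * M + 2 * Q ^ 2) :
    J - 2 * Q * θ / L ≤ M * (θ / lx) ∧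
      M * (θ / lx) ≤ J + θ * K * L ^ 2 + (2 + Q) * θ / L := by
  have hlx0 : 0 < lx := by linarith
  have hQ0 : 0 < Q := by linarith
  have hφ0 : 0 < φ := by linarith
  have hL0 : 0 < L := by linarith
  have hr : 0 < θ / lx := by positivity
  have e1 : φ * (J * lx * Q / (φ * θ)) = Q * (J * lx / θ) := by
    field_simp
  have h1 : J * lx / θ - 2 * Q ≤ M := by
    have h2 : φ * (J * lx * Q / (φ * θ)) ≤ φ * D := mul_le_mul_of_nonneg_left hD0 hφ0.le
    rw [e1] at h2
    have h3 : Q * (J * lx / θ) ≤ Q * (M + 2 * Q) := by nlinarith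
    have h4 := le_of_mul_le_mul_left h3 hQ0
    linarith
  have h2 : M ≤ J * lx / θ + (K * L ^ 3 + 2) + Q := by
    have h3 : φ * D ≤ φ * (J * lx * Q / (φ * θ)) + φ * (K * L ^ 3 + 2) := by
      have := mul_le_mul_of_nonneg_left hD1 hφ0.le
      nlinarith
    rw [e1] at h3
    have hp : 0 ≤ K * L ^ 3 + 2 := by positivity
    have h4 : φ * (K * L ^ 3 + 2) ≤ Q * (K * L ^ 3 + 2) := mul_le_mul_of_nonneg_right hφQ hp
    have h5 : Q * M ≤ Q * (J * lx / θ + (K * L ^ 3 + 2) + Q) := by nlinarith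
    exact le_of_mul_le_mul_left h5 hQ0
  have e2 : (J * lx / θ) * (θ / lx) = J := by field_simp
  have hle : θ / lx ≤ θ / L := div_le_div_of_nonneg_left hθ.le hL0 hlx
  constructor
  · have h3 := mul_le_mul_of_nonneg_right h1 hr.le
    rw [sub_mul, e2] at h3
    have h4 : 2 * Q * (θ / lx) ≤ 2 * Q * (θ / L) := mul_le_mul_of_nonneg_left hle (by positivity)
    have e3 : 2 * Q * θ / L = 2 * Q * (θ / L) := by ring
    rw [e3]
    linarith
  · have h3 := mul_le_mul_of_nonneg_right h2 hr.le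
    rw [add_assoc, add_mul, e2] at h3
    have hp : 0 ≤ K * L ^ 3 + 2 + Q := by positivity
    have h4 : (K * L ^ 3 + 2 + Q) * (θ / lx) ≤ (K * L ^ 3 + 2 + Q) * (θ / L) :=
      mul_le_mul_of_nonneg_left hle hp
    have e3 : (K * L ^ 3 + 2 + Q) * (θ / L) = θ * K * L ^ 2 + (2 + Q) * θ / L := by
      field_simp
      ring
    linarith

/-- The estimate at one place. -/
lemma point (hBIN : S_BIN) (hEXA : S_EXA) (hIND : S_IND) {Ω : Type} [MeasurableSpace Ω]
    (μ : Measure Ω) [IsProbabilityMeasure μ] (A : ℕ → Set Ω) (Q k₀ : ℕ) (θ : ℝ) (hQ : 1 ≤ Q)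
    (hθ : 0 < θ) (hM : Model μ A Q k₀ θ) (K : ℝ) (hK : 0 < K) (n : ℕ) (L : ℝ)
    (hL : L = Real.log n) (hn0 : k₀ ≤ n) (hn2 : 2 ≤ n) (hL1 : 4 * Q / θ + K + 2 ≤ L)
    (hL2 : 2 * θ ≤ L) (hL4 : (2 + 2 * Q) * θ ≤ L) (hn : L ^ 6 * (L ^ 4 + 1) ≤ n)
    (x : ℕ) (hx1 : 2 * n < x) (hx2 : x < n ^ 2) (y : ℕ) (hy1 : Y Q θ n x ≤ y)
    (hy2 : y ≤ Y Q θ n x + g K n) (hyQ : Nat.Coprime y Q) :
    θ * Real.exp (-(4 * (θ * K + 2) ^ 2)) / 12 / L ^ 7 ≤
      μ.real {ω | bet (Ch A ω) x y + 1 = J n ∧ y ∈ Ch A ω} := by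
  classical
  have hQr : (1 : ℝ) ≤ Q := by exact_mod_cast hQ
  have hQ0 : (0 : ℝ) < Q := by linarith
  obtain ⟨φ, hφ⟩ : ∃ φ, φ = Q.totient := ⟨_, rfl⟩
  have hφ1 : (1 : ℝ) ≤ φ := by
    rw [hφ]
    exact_mod_cast Nat.totient_pos.2 hQ
  have hφQ : (φ : ℝ) ≤ Q := by
    rw [hφ]
    exact_mod_cast Nat.totient_le Q
  have hLa : 2 ≤ L := by
    have : 0 ≤ 4 * Q / θ := by positivity
    linarith
  have hL0 : 0 < L := by linarith
  have hnr : (2 : ℝ) ≤ n := by exact_mod_cast hn2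
  have hxr : 2 * (n : ℝ) < x := by exact_mod_cast hx1
  have hxr2 : (x : ℝ) < (n : ℝ) ^ 2 := by exact_mod_cast hx2
  obtain ⟨lx, hlx⟩ : ∃ lx, lx = Real.log x := ⟨_, rfl⟩
  have hlx1 : L ≤ lx := by
    rw [hL, hlx]
    exact Real.log_le_log (by linarith) (by linarith)
  have hlx2 : lx ≤ 2 * L := by
    rw [hL, hlx]
    have h := Real.log_le_log (show (0 : ℝ) < x by linarith) hxr2.le
    rwa [Real.log_pow, Nat.cast_ofNat] at h
  have hlx0 : 0 < lx := by linarith
  -- the sizes of `J` and `g`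
  have hJ1 : L ^ 4 ≤ (J n : ℝ) := by
    unfold J
    rw [hL]
    exact Nat.le_ceil _
  have hJ2 : (J n : ℝ) ≤ L ^ 4 + 1 := by
    unfold J
    rw [hL]
    exact (Nat.ceil_lt_add_one (by positivity)).le
  have hg2 : (g K n : ℝ) ≤ K * L ^ 3 + 1 := by
    unfold g
    rw [hL]
    have : 0 ≤ Real.log n := by rw [← hL]; exact hL0.le
    exact (Nat.ceil_lt_add_one (by positivity)).le
  have hL4b : (16 : ℝ) ≤ L ^ 4 := by
    calc (16 : ℝ) = 2 ^ 4 := by norm_num
      _ ≤ L ^ 4 := pow_le_pow_left₀ (by norm_num) hLa 4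
  obtain ⟨D0, hD0⟩ : ∃ D0, D0 = (J n : ℝ) * lx * Q / (φ * θ) := ⟨_, rfl⟩
  have hD0n : 0 ≤ D0 := by
    rw [hD0]
    positivity
  have hY1 : (x : ℝ) + D0 ≤ Y Q θ n x := by
    unfold Y
    push_cast
    rw [hD0, hlx, hφ]
    have := Nat.le_ceil ((J n : ℝ) * Real.log x * Q / (Nat.totient Q * θ))
    linarith
  have hY2 : (Y Q θ n x : ℝ) ≤ x + D0 + 1 := by
    unfold Y
    push_cast
    have h0 : 0 ≤ (J n : ℝ) * Real.log x * Q / (Nat.totient Q * θ) := by
      rw [← hφ, ← hlx, ← hD0]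
      exact hD0n
    have := (Nat.ceil_lt_add_one h0).le
    rw [hD0, hlx, hφ]
    linarith
  have hyr1 : (Y Q θ n x : ℝ) ≤ y := by exact_mod_cast hy1
  have hyr2 : (y : ℝ) ≤ Y Q θ n x + g K n := by exact_mod_cast hy2
  obtain ⟨D, hD⟩ : ∃ D : ℝ, D = y - x := ⟨_, rfl⟩
  have hDl : D0 ≤ D := by linarith
  have hDu : D ≤ D0 + K * L ^ 3 + 2 := by linarith
  have hD6 : D ≤ L ^ 6 := by
    have h1 : D0 ≤ 4 * Q / θ * L ^ 5 := by
      have h2 : D0 ≤ (L ^ 4 + 1) * (2 * L) * Q / (1 * θ) := by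
        rw [hD0]
        gcongr
      have h3 : (L ^ 4 + 1) * (2 * L) ≤ 4 * L ^ 5 := by
        have h4 : L * 1 ≤ L * L ^ 4 := mul_le_mul_of_nonneg_left (by linarith) hL0.le
        calc (L ^ 4 + 1) * (2 * L) = 2 * (L * L ^ 4) + 2 * (L * 1) := by ring
          _ ≤ 2 * (L * L ^ 4) + 2 * (L * L ^ 4) := by linarith
          _ = 4 * L ^ 5 := by ring
      calc D0 ≤ (L ^ 4 + 1) * (2 * L) * Q / (1 * θ) := h2
        _ ≤ 4 * L ^ 5 * Q / (1 * θ) := by gcongr
        _ = 4 * Q / θ * L ^ 5 := by ring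
    have h4 : K * L ^ 3 ≤ K * L ^ 5 := by
      have : L ^ 3 ≤ L ^ 5 := pow_le_pow_right₀ (by linarith) (by norm_num)
      exact mul_le_mul_of_nonneg_left this hK.le
    have h5 : (2 : ℝ) ≤ 2 * L ^ 5 := by
      have : (1 : ℝ) ≤ L ^ 5 := one_le_pow₀ (by linarith)
      linarith
    have h6 : (4 * Q / θ + K + 2) * L ^ 5 ≤ L * L ^ 5 :=
      mul_le_mul_of_nonneg_right hL1 (by positivity)
    calc D ≤ D0 + K * L ^ 3 + 2 := hDu
      _ ≤ (4 * Q / θ + K + 2) * L ^ 5 := by linarith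
      _ ≤ L * L ^ 5 := h6
      _ = L ^ 6 := by ring
  have hD1 : 1 < D := by
    have : 8 ≤ D0 := by
      have h2 : φ * θ ≤ Q * θ := mul_le_mul_of_nonneg_right hφQ hθ.le
      have h3 : (J n : ℝ) * lx * Q / (Q * θ) ≤ D0 := by
        rw [hD0]
        gcongr
      have h4 : (J n : ℝ) * lx * Q / (Q * θ) = J n * (lx / θ) := by field_simp
      rw [h4] at h3
      have h5 : 2 ≤ lx / θ := by
        rw [le_div_iff₀ hθ]
        linarith
      have h6 : (16 : ℝ) * 2 ≤ J n * (lx / θ) :=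
        mul_le_mul (by linarith) h5 (by norm_num) (by linarith)
      linarith
    linarith
  have hxy : x < y := by
    have : (x : ℝ) < y := by linarith
    exact_mod_cast this
  have hyx1 : ((y - x - 1 : ℕ) : ℝ) = D - 1 := by
    have : y = x + 1 + (y - x - 1) := by omega
    have h := congrArg (Nat.cast : ℕ → ℝ) this
    push_cast at h
    linarith
  -- the coprime integers in between
  obtain ⟨I, hI⟩ : ∃ I, I = (Ioo x y).filter fun k => Nat.Coprime k Q := ⟨_, rfl⟩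
  have hIco : Ico (x + 1) (x + 1 + (y - x - 1)) = Ioo x y := by
    ext k
    simp only [mem_Ico, mem_Ioo]
    omega
  have hc := cop_count Q hQ (x + 1) (y - x - 1)
  rw [hIco, ← hI, ← hφ] at hc
  obtain ⟨M, hMc⟩ : ∃ M, M = I.card := ⟨_, rfl⟩
  rw [← hMc] at hc
  have hM1 : (Q : ℝ) * M ≤ φ * D + Q ^ 2 := by
    have h := hc.1
    have h' : (Q : ℝ) * M ≤ φ * ((y - x - 1 : ℕ) : ℝ) + Q * Q := by exact_mod_cast h
    rw [hyx1, mul_sub, mul_one] at h'
    rw [sq]
    linarith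
  have hM2 : (φ : ℝ) * D ≤ Q * M + 2 * (Q : ℝ) ^ 2 := by
    have h := hc.2
    have h' : (φ : ℝ) * ((y - x - 1 : ℕ) : ℝ) ≤ Q * M + Q * Q := by exact_mod_cast h
    rw [hyx1, mul_sub, mul_one] at h'
    have h2 : (Q : ℝ) * 1 ≤ Q * Q := mul_le_mul_of_nonneg_left hQr hQ0.le
    rw [sq]
    linarith
  have hMD : (M : ℝ) ≤ D := by
    have h1 : M ≤ y - x - 1 := by
      rw [hMc, hI]
      refine (card_filter_le _ _).trans ?_
      rw [Nat.card_Ioo]
    have h2 : (M : ℝ) ≤ ((y - x - 1 : ℕ) : ℝ) := by exact_mod_cast h1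
    linarith
  obtain ⟨R, hR⟩ : ∃ R, R = θ / lx := ⟨_, rfl⟩
  have hR0 : 0 < R := by rw [hR]; positivity
  have hR2 : R ≤ 1 / 2 := by
    rw [hR, div_le_iff₀ hlx0]
    linarith
  have hMR := MR_bounds (Q := (Q : ℝ)) (φ := (φ : ℝ)) (θ := θ) (K := K) (L := L) (lx := lx)
    (D := D) (M := (M : ℝ)) (J := (J n : ℝ)) hQr hφ1 hφQ hθ hK (by linarith) hlx1
    (by rw [← hD0]; exact hDl) (by rw [← hD0]; exact hDu) hM1 hM2
  rw [← hR] at hMR
  have hb1 : 2 * Q * θ / L ≤ 1 := by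
    rw [div_le_one hL0]
    have : (2 + 2 * (Q : ℝ)) * θ = 2 * θ + 2 * Q * θ := by ring
    linarith
  have hb2 : (2 + Q) * θ / L ≤ 1 := by
    rw [div_le_one hL0]
    have h1 : (2 + 2 * (Q : ℝ)) * θ = (2 + Q) * θ + Q * θ := by ring
    have h2 : 0 < (Q : ℝ) * θ := mul_pos hQ0 hθ
    linarith
  have hMRl : (J n : ℝ) - 1 ≤ M * R := by linarith [hMR.1]
  have hMRu : M * R ≤ (J n : ℝ) + θ * K * L ^ 2 + 1 := by linarith [hMR.2]
  obtain ⟨k, hk⟩ : ∃ k, k + 1 = J n := by
    refine ⟨J n - 1, ?_⟩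
    have : 0 < J n := by
      have : (0 : ℝ) < J n := by linarith
      exact_mod_cast this
    omega
  have hkr : (k : ℝ) = J n - 1 := by
    rw [← hk]
    push_cast
    ring
  have hk0 : 0 < k := by
    have : (0 : ℝ) < k := by linarith
    exact_mod_cast this
  have hkM : k < M := by
    have h1 : (k : ℝ) < M := by
      have h2 : (M : ℝ) * R ≤ M * (1 / 2) := mul_le_mul_of_nonneg_left hR2 (Nat.cast_nonneg M)
      have h3 : (0 : ℝ) < k := by exact_mod_cast hk0
      linarith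
    exact_mod_cast h1
  -- the exponent
  have hden : L ^ 4 / 4 ≤ M * R * (1 - R) := by
    have h1 : L ^ 4 / 2 ≤ M * R := by linarith
    have h2 : 1 / 2 ≤ 1 - R := by linarith
    calc L ^ 4 / 4 = L ^ 4 / 2 * (1 / 2) := by ring
      _ ≤ M * R * (1 - R) := mul_le_mul h1 h2 (by norm_num) (by positivity)
  have hnum : ((k : ℝ) - M * R) ^ 2 ≤ (θ * K + 2) ^ 2 * L ^ 4 := by
    have h1 : |(k : ℝ) - M * R| ≤ (θ * K + 2) * L ^ 2 := by
      have hθK : 0 < θ * K := by positivity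
      have h4 : (1 : ℝ) ≤ L ^ 2 := one_le_pow₀ (by linarith)
      have h5 : (θ * K + 2) * L ^ 2 = θ * K * L ^ 2 + 2 * L ^ 2 := by ring
      rw [abs_le]
      constructor
      · linarith
      · have : 0 ≤ (θ * K + 2) * L ^ 2 := by positivity
        linarith
    calc ((k : ℝ) - M * R) ^ 2 = |(k : ℝ) - M * R| ^ 2 := (sq_abs _).symm
      _ ≤ ((θ * K + 2) * L ^ 2) ^ 2 := pow_le_pow_left₀ (abs_nonneg _) h1 2
      _ = (θ * K + 2) ^ 2 * L ^ 4 := by ring
  have hexp : ((k : ℝ) - M * R) ^ 2 / (M * R * (1 - R)) ≤ 4 * (θ * K + 2) ^ 2 := by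
    have hd0 : 0 < M * R * (1 - R) := lt_of_lt_of_le (by positivity) hden
    rw [div_le_iff₀ hd0]
    calc ((k : ℝ) - M * R) ^ 2 ≤ (θ * K + 2) ^ 2 * L ^ 4 := hnum
      _ = 4 * (θ * K + 2) ^ 2 * (L ^ 4 / 4) := by ring
      _ ≤ 4 * (θ * K + 2) ^ 2 * (M * R * (1 - R)) := by gcongr
  have hbin := hBIN M k R hk0 hkM hR0 (by linarith)
  -- comparison of the logarithms
  have hyr : (y : ℝ) = x + D := by linarith
  have hx0 : (0 : ℝ) < x := by linarith
  have hy0 : (0 : ℝ) < y := by linarith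
  obtain ⟨ly, hly⟩ : ∃ ly, ly = Real.log y := ⟨_, rfl⟩
  have hlyx : lx ≤ ly := by
    rw [hlx, hly]
    exact Real.log_le_log hx0 (by linarith)
  have hly0 : 0 < ly := by linarith
  have hlyd : ly - lx ≤ D / x := by
    have h1 : ly - lx = Real.log (1 + D / x) := by
      rw [hly, hlx, ← Real.log_div hy0.ne' hx0.ne']
      congr 1
      rw [hyr]
      field_simp
    rw [h1]
    have h2 : 0 < 1 + D / x := by positivity
    have := Real.log_le_sub_one_of_pos h2
    linarith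
  have hkD : k * (D / x) ≤ 1 / 2 := by
    have h1 : (k : ℝ) ≤ L ^ 4 + 1 := by linarith
    have hDn : 0 ≤ D := by linarith
    rw [← mul_div_assoc, div_le_iff₀ hx0]
    calc (k : ℝ) * D ≤ (L ^ 4 + 1) * L ^ 6 := mul_le_mul h1 hD6 hDn (by positivity)
      _ = L ^ 6 * (L ^ 4 + 1) := by ring
      _ ≤ n := hn
      _ ≤ 1 / 2 * x := by linarith
  have hratio : 1 / 2 ≤ (lx / ly) ^ k := by
    have h1 : 1 - D / x ≤ lx / ly := by
      rw [le_div_iff₀ hly0]
      have h2 : 0 ≤ D / x := div_nonneg (by linarith) hx0.le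
      have h3 : D / x * 1 ≤ D / x * ly := mul_le_mul_of_nonneg_left (by linarith) h2
      linarith
    have hDx1 : D / x ≤ 1 := by
      have h3 : (1 : ℝ) ≤ k := by exact_mod_cast hk0
      have h2 : 0 ≤ D / x := div_nonneg (by linarith) hx0.le
      have h5 : 1 * (D / x) ≤ k * (D / x) := mul_le_mul_of_nonneg_right h3 h2
      linarith
    have h4 : (1 : ℝ) + k * (-(D / x)) ≤ (1 + (-(D / x))) ^ k :=
      one_add_mul_le_pow (by linarith) k
    calc (1 : ℝ) / 2 ≤ 1 + k * (-(D / x)) := by linarith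
      _ ≤ (1 + (-(D / x))) ^ k := h4
      _ ≤ (lx / ly) ^ k := pow_le_pow_left₀ (by linarith) (by linarith) k
  -- the number of the chosen integers
  have hIe := hEXA Ω μ A hM.meas hM.indep I k (θ / ly) R (by positivity) (by linarith) (by
    intro i hi
    rw [hI, mem_filter, mem_Ioo] at hi
    obtain ⟨⟨hi1, hi2⟩, hi3⟩ := hi
    rw [hM.prob i (by omega) hi3]
    have hi1r : (x : ℝ) < i := by exact_mod_cast hi1
    have hi2r : (i : ℝ) < y := by exact_mod_cast hi2
    have hli1 : lx ≤ Real.log i := by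
      rw [hlx]
      exact Real.log_le_log hx0 hi1r.le
    have hli2 : Real.log i ≤ ly := by
      rw [hly]
      exact Real.log_le_log (by linarith) hi2r.le
    constructor
    · exact div_le_div_of_nonneg_left hθ.le (by linarith) hli2
    · rw [hR]
      exact div_le_div_of_nonneg_left hθ.le hlx0 hli1)
  rw [← hMc] at hIe
  have hbet : ∀ ω, bet (Ch A ω) x y = (I.filter fun i => ω ∈ A i).card := by
    intro ω
    unfold bet
    rw [hI, filter_filter]
    congr 1
    apply filter_congr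
    intro i hi
    rw [mem_Ioo] at hi
    constructor
    · intro h
      refine ⟨?_, h⟩
      by_contra hcop
      have h0 := hM.none i (by omega) hcop
      have h1 : ω ∈ A i := h
      rw [h0] at h1
      exact h1
    · rintro ⟨-, h⟩
      exact h
  have hset : {ω | bet (Ch A ω) x y + 1 = J n} = {ω | (I.filter fun i => ω ∈ A i).card = k} := by
    ext ω
    rw [Set.mem_ofPred_eq, Set.mem_ofPred_eq, hbet ω]
    omega
  have hind := (hIND Ω μ A hM.meas hM.indep).2 (y - 1) y (fun S => bet S x y + 1 = J n)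
    (fun S => y ∈ S) (by
      intro S S' h
      have : bet S x y = bet S' x y := by
        unfold bet
        congr 1
        apply filter_congr
        intro i hi
        rw [mem_Ioo] at hi
        exact h i (by omega) (by omega)
      show bet S x y + 1 = J n ↔ bet S' x y + 1 = J n
      rw [this]) (by
      intro S S' h
      exact h y (by omega) le_rfl)
  have hPy : μ.real {ω | y ∈ Ch A ω} = θ / ly := by
    rw [hly, ← hM.prob y (by omega) hyQ]
    rfl
  have hP1 : 1 / 2 * (1 / ((M : ℝ) + 1) * Real.exp (-(4 * (θ * K + 2) ^ 2))) ≤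
      μ.real {ω | bet (Ch A ω) x y + 1 = J n} := by
    rw [hset]
    have hrk : R ^ k * (1 / 2) ≤ (θ / ly) ^ k := by
      have : θ / ly = R * (lx / ly) := by
        rw [hR]
        field_simp
      rw [this, mul_pow]
      gcongr
    calc 1 / 2 * (1 / ((M : ℝ) + 1) * Real.exp (-(4 * (θ * K + 2) ^ 2)))
        ≤ 1 / 2 * (1 / ((M : ℝ) + 1) *
          Real.exp (-(((k : ℝ) - M * R) ^ 2 / (M * R * (1 - R))))) := by gcongr
      _ ≤ 1 / 2 * ((M.choose k : ℝ) * R ^ k * (1 - R) ^ (M - k)) := by gcongr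
      _ = (M.choose k : ℝ) * (R ^ k * (1 / 2)) * (1 - R) ^ (M - k) := by ring
      _ ≤ (M.choose k : ℝ) * (θ / ly) ^ k * (1 - R) ^ (M - k) := by
          have : 0 ≤ 1 - R := by linarith
          gcongr
      _ ≤ _ := hIe
  have hly3 : ly ≤ 3 * L := by
    have h1 : (y : ℝ) ≤ (n : ℝ) ^ 3 := by
      have h2 : D ≤ n := by
        have h3 : L ^ 6 * 1 ≤ L ^ 6 * (L ^ 4 + 1) :=
          mul_le_mul_of_nonneg_left (by linarith) (by positivity)
        linarith
      have h4 : (2 : ℝ) * (n : ℝ) ^ 2 ≤ n * (n : ℝ) ^ 2 :=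
        mul_le_mul_of_nonneg_right hnr (by positivity)
      have h5 : (2 : ℝ) * n ≤ n * n := mul_le_mul_of_nonneg_right hnr (by linarith)
      have h6 : (n : ℝ) ^ 3 = n * (n : ℝ) ^ 2 := by ring
      have h7 : (n : ℝ) ^ 2 = n * n := sq _
      linarith
    have h2 := Real.log_le_log hy0 h1
    rw [Real.log_pow] at h2
    rw [hly, hL]
    exact_mod_cast h2
  have hM6 : (M : ℝ) + 1 ≤ 2 * L ^ 6 := by
    have : (1 : ℝ) ≤ L ^ 6 := one_le_pow₀ (by linarith)
    linarith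
  rw [hind, hPy]
  calc θ * Real.exp (-(4 * (θ * K + 2) ^ 2)) / 12 / L ^ 7
      = 1 / 2 * (1 / (2 * L ^ 6) * Real.exp (-(4 * (θ * K + 2) ^ 2))) * (θ / (3 * L)) := by
        field_simp
        ring
    _ ≤ 1 / 2 * (1 / ((M : ℝ) + 1) * Real.exp (-(4 * (θ * K + 2) ^ 2))) * (θ / ly) := by
        gcongr
    _ ≤ μ.real {ω | bet (Ch A ω) x y + 1 = J n} * (θ / ly) := by gcongr

end Pat

theorem pat : S_BIN → S_EXA → S_IND → S_PAT := by
  intro hBIN hEXA hIND Ω _ μ _ A Q k₀ θ hQ hθ hM K hK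
  have hlog : Tendsto (fun n : ℕ => Real.log n) atTop atTop :=
    Real.tendsto_log_atTop.comp tendsto_natCast_atTop_atTop
  have e1 := hlog.eventually (eventually_ge_atTop (4 * Q / θ + K + 2))
  have e2 := hlog.eventually (eventually_ge_atTop (2 * θ))
  have e3 := hlog.eventually (eventually_ge_atTop ((2 + 2 * Q) * θ))
  have e4 : ∀ᶠ L : ℝ in atTop, L ^ 6 * (L ^ 4 + 1) ≤ Real.exp L := by
    have t1 := Real.tendsto_pow_mul_exp_neg_atTop_nhds_zero 11
    filter_upwards [t1.eventually (gt_mem_nhds (show (0 : ℝ) < 1 by norm_num)),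
      eventually_ge_atTop (2 : ℝ)] with L h1 h2
    have h3 : L ^ 11 ≤ Real.exp L := by
      have h4 : L ^ 11 * Real.exp (-L) * Real.exp L ≤ 1 * Real.exp L :=
        mul_le_mul_of_nonneg_right h1.le (Real.exp_pos L).le
      rwa [mul_assoc, ← Real.exp_add, neg_add_cancel, Real.exp_zero, mul_one, one_mul] at h4
    refine le_trans ?_ h3
    have h5 : (1 : ℝ) ≤ L ^ 4 := one_le_pow₀ (by linarith)
    calc L ^ 6 * (L ^ 4 + 1) ≤ L ^ 6 * (2 * L ^ 4) := by gcongr; linarith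
      _ ≤ L ^ 6 * (L * L ^ 4) := by gcongr
      _ = L ^ 11 := by ring
  have hc : 0 < θ * Real.exp (-(4 * (θ * K + 2) ^ 2)) / 12 := by positivity
  have e5 : ∀ᶠ L : ℝ in atTop, Real.exp (-(1 / 1000 : ℝ) * L) ≤
      θ * Real.exp (-(4 * (θ * K + 2) ^ 2)) / 12 / L ^ 7 := by
    have t1 := Real.tendsto_pow_mul_exp_neg_atTop_nhds_zero 7
    have t2 : Tendsto (fun L : ℝ => L / 1000) atTop atTop :=
      tendsto_id.atTop_div_const (by norm_num)
    have t3 := t1.comp t2
    have hc' : 0 < θ * Real.exp (-(4 * (θ * K + 2) ^ 2)) / 12 / 1000 ^ 7 := by positivity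
    filter_upwards [t3.eventually (gt_mem_nhds hc'), eventually_ge_atTop (1 : ℝ)] with L h1 h2
    rw [le_div_iff₀ (by positivity)]
    have h3 : (L / 1000) ^ 7 * Real.exp (-(L / 1000)) <
        θ * Real.exp (-(4 * (θ * K + 2) ^ 2)) / 12 / 1000 ^ 7 := h1
    have h4 : (L / 1000) ^ 7 * Real.exp (-(L / 1000)) =
        Real.exp (-(1 / 1000 : ℝ) * L) * L ^ 7 / 1000 ^ 7 := by
      rw [div_pow]
      have : -(L / 1000) = -(1 / 1000 : ℝ) * L := by ring
      rw [this]
      ring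
    rw [h4, div_lt_div_iff_of_pos_right (by positivity)] at h3
    exact h3.le
  filter_upwards [e1, e2, e3, hlog.eventually e4, hlog.eventually e5,
    eventually_ge_atTop (max 2 k₀)] with n h1 h2 h3 h4 h5 h6
  intro x hx1 hx2 y hy1 hy2 hyQ
  have hn2 : 2 ≤ n := le_trans (le_max_left _ _) h6
  have hn0 : (0 : ℝ) < n := by
    have : (2 : ℝ) ≤ n := by exact_mod_cast hn2
    linarith
  rw [Real.exp_log hn0] at h4
  have h7 := Pat.point hBIN hEXA hIND μ A Q k₀ θ hQ hθ hM K hK n (Real.log n) rfl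
    (le_trans (le_max_right _ _) h6) hn2 h1 h2 h3 h4 x hx1 hx2 y hy1 hy2 hyQ
  refine le_trans ?_ h7
  refine le_trans (le_of_eq ?_) h5
  rw [Real.rpow_def_of_pos hn0]
  congr 1
  ring

end Pool.Agent.N860.TS
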