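import Mathlib
import Pool.Agent.N860.TS.Stm

/-!
TS/PHL: `φ(k) ≥ c k` for at least 95 percent of the `k`. (helper615)
-/

set_option autoImplicit false

open Finset Filter

namespace Pool.Agent.N860.TS

namespace PHL

/-- the sum of the reciprocals of the prime factors -/
noncomputable def S (k : ℕ) : ℝ := ∑ p ∈ k.primeFactors, (p : ℝ)⁻¹

theorem one_sub {x : ℝ} (h0 : 0 ≤ x) (h1 : x ≤ 1 / 2) : Real.exp (-(2 * x)) ≤ 1 - x := by
  have h2 : 1 + 2 * x ≤ Real.exp (2 * x) := by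
    have := Real.add_one_le_exp (2 * x)
    linarith
  rw [Real.exp_neg, inv_le_iff_one_le_mul₀ (Real.exp_pos _)]
  nlinarith

theorem tot (k : ℕ) : Real.exp (-(2 * S k)) * k ≤ Nat.totient k := by
  have h1 : (Nat.totient k : ℝ) = k * ∏ p ∈ k.primeFactors, (1 - (p : ℝ)⁻¹) := by
    have h2 := Nat.totient_eq_mul_prod_factors k
    have h3 : ((Nat.totient k : ℚ) : ℝ) = ((k * ∏ p ∈ k.primeFactors, (1 - (p : ℚ)⁻¹) : ℚ) : ℝ) := by
      rw [h2]
    push_cast at h3
    exact h3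
  have h4 : Real.exp (-(2 * S k)) = ∏ p ∈ k.primeFactors, Real.exp (-(2 * (p : ℝ)⁻¹)) := by
    rw [← Real.exp_sum]
    congr 1
    unfold S
    rw [Finset.mul_sum, ← Finset.sum_neg_distrib]
  rw [h1, mul_comm, h4]
  refine mul_le_mul_of_nonneg_left (Finset.prod_le_prod (fun p _ => (Real.exp_pos _).le)
    fun p hp => one_sub (by positivity) ?_) (Nat.cast_nonneg k)
  have h5 : (2 : ℝ) ≤ p := by exact_mod_cast (Nat.prime_of_mem_primeFactors hp).two_le
  rw [one_div]
  exact inv_anti₀ (by norm_num) h5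

/-- telescoping bound -/
theorem tele (n : ℕ) (hn : 2 ≤ n) : ∑ m ∈ Ico 2 n, ((m : ℝ)⁻¹) ^ 2 ≤ 1 - 1 / ((n : ℝ) - 1) := by
  induction n, hn using Nat.le_induction with
  | base => norm_num
  | succ n hn ih =>
    rw [Finset.sum_Ico_succ_top hn]
    have h1 : (2 : ℝ) ≤ n := by exact_mod_cast hn
    have h2 : ((n : ℝ)⁻¹) ^ 2 ≤ 1 / ((n : ℝ) - 1) - 1 / (n : ℝ) := by
      have h3 : (0 : ℝ) < n - 1 := by linarith
      have h4 : (0 : ℝ) < n := by linarith
      rw [div_sub_div _ _ h3.ne' h4.ne', inv_pow, inv_eq_one_div,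
        div_le_div_iff₀ (by positivity) (by positivity)]
      nlinarith
    have h5 : ((n + 1 : ℕ) : ℝ) - 1 = n := by
      push_cast
      ring
    rw [h5]
    linarith

theorem total (n : ℕ) : ∑ k ∈ Ico 1 n, S k ≤ n := by
  have h1 : ∀ k ∈ Ico 1 n, S k = ∑ p ∈ Ico 2 n, if p ∣ k ∧ p.Prime then (p : ℝ)⁻¹ else 0 := by
    intro k hk
    rw [Finset.mem_Ico] at hk
    unfold S
    rw [← Finset.sum_filter]
    refine Finset.sum_congr ?_ fun _ _ => rfl
    ext p
    rw [Nat.mem_primeFactors, Finset.mem_filter, Finset.mem_Ico]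
    constructor
    · rintro ⟨h1, h2, h3⟩
      exact ⟨⟨h1.two_le, (Nat.le_of_dvd (by omega) h2).trans_lt hk.2⟩, h2, h1⟩
    · rintro ⟨_, h2, h3⟩
      exact ⟨h3, h2, by omega⟩
  rw [Finset.sum_congr rfl h1, Finset.sum_comm]
  have h2 : ∀ p ∈ Ico 2 n, ∑ k ∈ Ico 1 n, (if p ∣ k ∧ p.Prime then (p : ℝ)⁻¹ else 0) ≤
      n * ((p : ℝ)⁻¹) ^ 2 := by
    intro p hp
    rw [Finset.mem_Ico] at hp
    rw [← Finset.sum_filter, Finset.sum_const, nsmul_eq_mul]
    have h3 : ((Ico 1 n).filter (fun k => p ∣ k ∧ p.Prime)).card ≤ n / p := by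
      rw [← Nat.Ioc_filter_dvd_card_eq_div]
      refine Finset.card_le_card fun k hk => ?_
      rw [Finset.mem_filter, Finset.mem_Ico] at hk
      rw [Finset.mem_filter, Finset.mem_Ioc]
      exact ⟨⟨by omega, by omega⟩, hk.2.1⟩
    have h4 : (((Ico 1 n).filter (fun k => p ∣ k ∧ p.Prime)).card : ℝ) ≤ n * (p : ℝ)⁻¹ := by
      refine le_trans (Nat.cast_le.2 h3) ?_
      rw [← div_eq_mul_inv]
      exact Nat.cast_div_le
    have h5 : (0 : ℝ) ≤ (p : ℝ)⁻¹ := by positivity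
    nlinarith
  refine (Finset.sum_le_sum h2).trans ?_
  rw [← Finset.mul_sum]
  rcases Nat.lt_or_ge n 2 with hn | hn
  · rw [Finset.Ico_eq_empty (by omega), Finset.sum_empty, mul_zero]
    exact Nat.cast_nonneg n
  · have h3 := tele n hn
    have h4 : (0 : ℝ) ≤ 1 / ((n : ℝ) - 1) := by
      have : (2 : ℝ) ≤ n := by exact_mod_cast hn
      exact div_nonneg zero_le_one (by linarith)
    exact mul_le_of_le_one_right (Nat.cast_nonneg n) (by linarith)

end PHL

open PHL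

theorem phl : S_PHL := by
  classical
  refine ⟨Real.exp (-40), Real.exp_pos _, fun n _ => ?_⟩
  have h1 : ∀ k ∈ (Ico 1 n).filter (fun k => (Nat.totient k : ℝ) < Real.exp (-40) * k),
      (20 : ℝ) ≤ S k := by
    intro k hk
    rw [Finset.mem_filter] at hk
    by_contra hcon
    rw [not_le] at hcon
    have h2 := tot k
    have h3 : Real.exp (-40) * k ≤ Real.exp (-(2 * S k)) * k :=
      mul_le_mul_of_nonneg_right (Real.exp_le_exp.2 (by linarith)) (Nat.cast_nonneg k)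
    linarith [hk.2]
  have h2 := Finset.card_nsmul_le_sum _ _ _ h1
  rw [nsmul_eq_mul] at h2
  have h3 : ∑ k ∈ (Ico 1 n).filter (fun k => (Nat.totient k : ℝ) < Real.exp (-40) * k), S k ≤
      ∑ k ∈ Ico 1 n, S k := by
    refine Finset.sum_le_sum_of_subset_of_nonneg (Finset.filter_subset _ _) fun k _ _ => ?_
    unfold S
    positivity
  have h4 := total n
  rw [le_div_iff₀ (by norm_num)]
  exact (h2.trans h3).trans h4

end Pool.Agent.N860.TS
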