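import Pool.Agent.N860.TS.Stm
import Pool.Agent.Helper379.Div3

/-!
# Project TS (helper860), task PHM (helper402): `Q` divides `φ(k)` for almost all `k`
-/

set_option autoImplicit false

namespace Pool.Agent.N860.TS

open Filter Finset
open scoped Topology

namespace PhmAux

/-- a finite set of primes `1` modulo `Q` with a small product of `1 - 1/p` -/
theorem primes (Q : ℕ) (hQ : 1 ≤ Q) (η : ℝ) (hη : 0 < η) : ∃ F : Finset ℕ,
    (∀ p ∈ F, p.Prime ∧ Q ∣ p - 1) ∧ ∏ p ∈ F, (1 - (p : ℝ)⁻¹) ≤ η := by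
  classical
  have : NeZero Q := ⟨by omega⟩
  have h1 := Pool.Agent.Helper379.Div3.not_summable_inv_primes_mod (q := Q) (a := 1) isUnit_one
  rw [not_summable_iff_tendsto_nat_atTop_of_nonneg (fun n => by split_ifs <;> positivity)] at h1
  obtain ⟨N, hN⟩ := (h1.eventually_ge_atTop (-Real.log η)).exists
  refine ⟨(range N).filter fun n : ℕ => n.Prime ∧ (n : ZMod Q) = 1, fun p hp => ?_, ?_⟩
  · rw [mem_filter] at hp
    obtain ⟨-, hp1, hp2⟩ := hp
    refine ⟨hp1, ?_⟩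
    have h2 : ((p : ℕ) : ZMod Q) = ((1 : ℕ) : ZMod Q) := by rw [hp2, Nat.cast_one]
    rw [ZMod.natCast_eq_natCast_iff] at h2
    exact (Nat.modEq_iff_dvd' hp1.one_lt.le).1 h2.symm
  · have h3 : ∏ p ∈ (range N).filter (fun n : ℕ => n.Prime ∧ (n : ZMod Q) = 1), (1 - (p : ℝ)⁻¹) ≤
        ∏ p ∈ (range N).filter (fun n : ℕ => n.Prime ∧ (n : ZMod Q) = 1), Real.exp (-(1 / (p : ℝ))) := by
      refine prod_le_prod (fun p hp => ?_) fun p hp => ?_
      · have h4 : (1 : ℝ) ≤ p := by exact_mod_cast (mem_filter.1 hp).2.1.one_lt.le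
        have := inv_le_one_of_one_le₀ h4
        linarith
      · have := Real.add_one_le_exp (-(1 / (p : ℝ)))
        rw [one_div] at this ⊢
        linarith
    refine h3.trans ?_
    rw [← Real.exp_sum, sum_neg_distrib, sum_filter]
    calc Real.exp (-∑ a ∈ range N, if a.Prime ∧ (a : ZMod Q) = 1 then 1 / (a : ℝ) else 0)
        ≤ Real.exp (Real.log η) := Real.exp_le_exp.2 (by linarith)
      _ = η := Real.exp_log hη

end PhmAux

/-- PHM -/
theorem phm : S_PHM := by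
  classical
  intro Q hQ ε hε
  obtain ⟨F, hF, hFη⟩ := PhmAux.primes Q hQ (ε / 2) (by positivity)
  obtain ⟨m, hm⟩ : ∃ m : ℕ, m = ∏ p ∈ F, p := ⟨_, rfl⟩
  have hm0 : m ≠ 0 := by
    rw [hm, prod_ne_zero_iff]
    exact fun p hp => (hF p hp).1.ne_zero
  have hφ : (Nat.totient m : ℝ) = m * ∏ p ∈ F, (1 - (p : ℝ)⁻¹) := by
    have h1 := Nat.totient_eq_mul_prod_factors m
    rw [hm, Nat.primeFactors_prod (fun p hp => (hF p hp).1)] at h1
    rw [hm]
    have h2 := congrArg (fun x : ℚ => (x : ℝ)) h1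
    push_cast at h2 ⊢
    exact h2
  have hφ2 : (Nat.totient m : ℝ) ≤ m * (ε / 2) := by
    rw [hφ]
    exact mul_le_mul_of_nonneg_left hFη (Nat.cast_nonneg _)
  have hmpos : (0 : ℝ) < m := by exact_mod_cast Nat.pos_of_ne_zero hm0
  have hev : ∀ᶠ n : ℕ in atTop, (Nat.totient m : ℝ) / (ε / 2) ≤ n :=
    tendsto_natCast_atTop_atTop.eventually_ge_atTop _
  filter_upwards [hev] with n hn
  have hsub : (Ico 1 n).filter (fun k => ¬ Q ∣ Nat.totient k) ⊆
      (Ico 0 (0 + n)).filter (fun k => m.Coprime k) := by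
    intro k hk
    rw [mem_filter, mem_Ico] at hk
    rw [mem_filter, mem_Ico]
    refine ⟨⟨Nat.zero_le _, by omega⟩, ?_⟩
    rw [hm]
    refine Nat.Coprime.prod_left fun p hp => ?_
    rw [(hF p hp).1.coprime_iff_not_dvd]
    intro hpk
    apply hk.2
    have h1 := Nat.totient_dvd_of_dvd hpk
    rw [Nat.totient_prime (hF p hp).1] at h1
    exact (hF p hp).2.trans h1
  have h1 := (card_le_card hsub).trans (Nat.Ico_filter_coprime_le 0 n hm0)
  have h2 : (((Ico 1 n).filter (fun k => ¬ Q ∣ Nat.totient k)).card : ℝ) ≤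
      Nat.totient m * ((n / m : ℕ) + 1) := by exact_mod_cast h1
  have h3 : ((n / m : ℕ) : ℝ) ≤ (n : ℝ) / m := Nat.cast_div_le
  rw [div_le_iff₀ (by positivity)] at hn
  have h4 : (Nat.totient m : ℝ) * ((n : ℝ) / m) ≤ n * (ε / 2) := by
    rw [mul_div_assoc', div_le_iff₀ hmpos]
    calc (Nat.totient m : ℝ) * n ≤ (m * (ε / 2)) * n := mul_le_mul_of_nonneg_right hφ2 (Nat.cast_nonneg _)
      _ = n * (ε / 2) * m := by ring
  calc (((Ico 1 n).filter (fun k => ¬ Q ∣ Nat.totient k)).card : ℝ)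
      ≤ Nat.totient m * ((n / m : ℕ) + 1) := h2
    _ ≤ Nat.totient m * ((n : ℝ) / m + 1) := by gcongr
    _ = Nat.totient m * ((n : ℝ) / m) + Nat.totient m := by ring
    _ ≤ n * (ε / 2) + n * (ε / 2) := add_le_add h4 hn
    _ = ε * n := by ring

end Pool.Agent.N860.TS
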