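import Pool.Agent.N860.TS.Stm

/-!
# Project TS, REC: all steps together
-/

set_option autoImplicit false

namespace Pool.Agent.N860.TS.RECaux

open MeasureTheory Finset

section
variable {Ω : Type} [MeasurableSpace Ω] (μ : Measure Ω) (A : ℕ → Set Ω)

/-- the probability of a property of the random set -/
noncomputable def pr (P : Set ℕ → Prop) : ℝ := μ.real {ω | P (Ch A ω)}

/-- the mean of `1_D ∏ (1 - δ 1_{v ∈ S})` -/
noncomputable def EE (δ : ℝ) (V : Finset ℕ) (D : Set ℕ → Prop) : ℝ :=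
  ∑ B ∈ V.powerset, (1 - δ) ^ B.card * pr μ A (fun S => D S ∧ ∀ v ∈ V, (v ∈ S ↔ v ∈ B))

theorem pr_congr {P P' : Set ℕ → Prop} (h : ∀ S, P S ↔ P' S) : pr μ A P = pr μ A P' := by
  unfold pr
  congr 1
  ext ω
  exact h _

theorem EE_insert (δ : ℝ) {V : Finset ℕ} {v : ℕ} (hv : v ∉ V) (D : Set ℕ → Prop) :
    EE μ A δ (insert v V) D = EE μ A δ V (fun S => D S ∧ v ∉ S) +
      (1 - δ) * EE μ A δ V (fun S => D S ∧ v ∈ S) := by
  unfold EE
  rw [Finset.sum_powerset_insert hv, Finset.mul_sum]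
  congr 1
  · refine Finset.sum_congr rfl fun B hB => ?_
    have hvB : v ∉ B := fun h => hv (Finset.mem_powerset.1 hB h)
    congr 1
    refine pr_congr μ A fun S => ?_
    rw [Finset.forall_mem_insert]
    simp only [hvB, iff_false]
    tauto
  · refine Finset.sum_congr rfl fun B hB => ?_
    have hvB : v ∉ B := fun h => hv (Finset.mem_powerset.1 hB h)
    rw [Finset.card_insert_of_notMem hvB, pow_succ]
    have e : pr μ A (fun S => D S ∧ ∀ v_1 ∈ insert v V, (v_1 ∈ S ↔ v_1 ∈ insert v B)) =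
        pr μ A (fun S => (D S ∧ v ∈ S) ∧ ∀ v ∈ V, (v ∈ S ↔ v ∈ B)) := by
      refine pr_congr μ A fun S => ?_
      rw [Finset.forall_mem_insert]
      have h1 : (∀ x ∈ V, (x ∈ S ↔ x ∈ insert v B)) ↔ ∀ x ∈ V, (x ∈ S ↔ x ∈ B) := by
        refine forall_congr' fun x => forall_congr' fun hx => ?_
        have hxv : x ≠ v := fun h => hv (h ▸ hx)
        rw [Finset.mem_insert]
        simp only [hxv, false_or]
      rw [h1]
      simp only [Finset.mem_insert_self, iff_true]
      tauto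
    rw [e]
    ring

theorem EE_prod [IsProbabilityMeasure μ] (hA : ∀ k, MeasurableSet (A k))
    (hi : ProbabilityTheory.iIndepSet A μ) (δ : ℝ) (V : Finset ℕ) :
    EE μ A δ V (fun _ => True) = ∏ v ∈ V, (1 - δ * μ.real (A v)) := by
  have hi' := (ProbabilityTheory.iIndepSet_iff_iIndep A μ).1 hi
  have key : ∀ B ∈ V.powerset, (1 - δ) ^ B.card *
      pr μ A (fun S => True ∧ ∀ v ∈ V, (v ∈ S ↔ v ∈ B)) =
      (∏ v ∈ B, (1 - δ) * μ.real (A v)) * ∏ v ∈ V \ B, (1 - μ.real (A v)) := by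
    intro B hB
    classical
    have hBV := Finset.mem_powerset.1 hB
    have e1 : {ω | True ∧ ∀ v ∈ V, (v ∈ Ch A ω ↔ v ∈ B)} =
        ⋂ v ∈ V, (if v ∈ B then A v else (A v)ᶜ) := by
      ext ω
      simp only [Set.mem_ofPred_eq, true_and, Set.mem_iInter, Ch]
      refine forall_congr' fun v => forall_congr' fun _ => ?_
      by_cases h : v ∈ B
      · simp only [h, iff_true, if_true]
      · simp only [h, iff_false, if_false, Set.mem_compl_iff]
    have e2 := hi'.meas_biInter (S := V) (s := fun v => if v ∈ B then A v else (A v)ᶜ) (by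
      intro v _
      have h0 : MeasurableSet[MeasurableSpace.generateFrom {A v}] (A v) :=
        MeasurableSpace.measurableSet_generateFrom rfl
      by_cases h : v ∈ B
      · simp only [h, if_true]
        exact h0
      · simp only [h, if_false]
        exact h0.compl)
    have e3 : pr μ A (fun S => True ∧ ∀ v ∈ V, (v ∈ S ↔ v ∈ B)) =
        ∏ v ∈ V, μ.real (if v ∈ B then A v else (A v)ᶜ) := by
      unfold pr
      rw [e1, measureReal_def, e2, ENNReal.toReal_prod]
      rfl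
    have e4 : ∏ v ∈ V, μ.real (if v ∈ B then A v else (A v)ᶜ) =
        (∏ v ∈ B, μ.real (A v)) * ∏ v ∈ V \ B, (1 - μ.real (A v)) := by
      rw [← Finset.prod_sdiff hBV, mul_comm]
      congr 1
      · refine Finset.prod_congr rfl fun v hv => ?_
        rw [if_pos hv]
      · refine Finset.prod_congr rfl fun v hv => ?_
        rw [if_neg (Finset.mem_sdiff.1 hv).2, probReal_compl_eq_one_sub (hA v)]
    rw [e3, e4, Finset.prod_mul_distrib, Finset.prod_const, mul_assoc]
  unfold EE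
  rw [Finset.sum_congr rfl key, ← Finset.prod_add]
  refine Finset.prod_congr rfl fun v _ => ?_
  ring

theorem main [IsProbabilityMeasure μ] (hstep : S_STEP) (hdb : S_DB) (hmb : S_MB)
    (hind : S_IND)
    (hA : ∀ k, MeasurableSet (A k)) (hi : ProbabilityTheory.iIndepSet A μ)
    (N X Q j w : ℕ) (Z : ℕ → ℕ) (δ : ℝ) (hδ : 0 ≤ δ) (hδ1 : δ ≤ 1) (V : Finset ℕ) :
    (∀ v ∈ V, Par N X j w Z v) → (∀ v ∈ V, ∀ v' ∈ V, v < v' → v + j ≤ v') →
    (∀ v ∈ V, ∀ x y : ℕ, N < x → x < X → Z x ≤ y → y ≤ Z x + w → y % Q = v % Q →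
      δ ≤ μ.real {ω | bet (Ch A ω) x y + 1 = j ∧ y ∈ Ch A ω}) →
    ∀ D : Set ℕ → Prop, Dep 0 N D →
      pr μ A (fun S => D S ∧ ∀ v ∈ V, Bad N X Q j w Z v S) ≤ EE μ A δ V D := by
  induction V using Finset.induction_on_max with
  | empty =>
    intro _ _ _ D _
    unfold EE
    simp only [Finset.powerset_empty, Finset.sum_singleton, Finset.card_empty, pow_zero, one_mul]
    exact le_of_eq (pr_congr μ A fun S => by simp)
  | insert v V0 hmax ih =>
    intro hP hsep hpr D hD
    have hv : v ∉ V0 := fun h => lt_irrefl v (hmax v h)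
    have ih' := ih (fun v' h => hP v' (Finset.mem_insert_of_mem h))
      (fun a ha b hb => hsep a (Finset.mem_insert_of_mem ha) b (Finset.mem_insert_of_mem hb))
      (fun v' h => hpr v' (Finset.mem_insert_of_mem h))
    have hPv := hP v (Finset.mem_insert_self _ _)
    have hW : MeasurableSet {ω | ∀ v' ∈ V0, Bad N X Q j w Z v' (Ch A ω)} := by
      have e : {ω | ∀ v' ∈ V0, Bad N X Q j w Z v' (Ch A ω)} =
          ⋂ v' ∈ V0, {ω | Bad N X Q j w Z v' (Ch A ω)} := by
        ext ω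
        simp only [Set.mem_ofPred_eq, Set.mem_iInter]
      rw [e]
      exact Finset.measurableSet_biInter _ fun v' _ => hmb Ω A hA N X Q j w Z v'
    have hs := hstep Ω μ A hA hi N X Q j w Z v δ hPv hδ hδ1
      (hpr v (Finset.mem_insert_self _ _)) D (fun S => ∀ v' ∈ V0, Bad N X Q j w Z v' S) hD hW
      (hdb N X Q j w Z V0 v hPv fun v' h =>
        ⟨hP v' (Finset.mem_insert_of_mem h), hsep v' (Finset.mem_insert_of_mem h) v
          (Finset.mem_insert_self _ _) (hmax v' h)⟩)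
    have hvN := hPv.vN
    have hD1 : Dep 0 N (fun S => D S ∧ v ∉ S) := fun S S' h => by
      have h1 := hD S S' h
      have h2 := h v (Nat.zero_le _) hvN
      show (D S ∧ v ∉ S) ↔ (D S' ∧ v ∉ S')
      rw [h1, h2]
    have hD2 : Dep 0 N (fun S => D S ∧ v ∈ S) := fun S S' h => by
      have h1 := hD S S' h
      have h2 := h v (Nat.zero_le _) hvN
      show (D S ∧ v ∈ S) ↔ (D S' ∧ v ∈ S')
      rw [h1, h2]
    have i1 := ih' _ hD1
    have i2 := ih' _ hD2
    -- the splitting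
    have hDm : MeasurableSet {ω | D (Ch A ω)} := (hind Ω μ A hA hi).1 0 N D hD
    have hsplit : μ.real {ω | D (Ch A ω) ∧ ∀ v' ∈ V0, Bad N X Q j w Z v' (Ch A ω)} =
        pr μ A (fun S => (D S ∧ v ∉ S) ∧ ∀ v' ∈ V0, Bad N X Q j w Z v' S) +
        pr μ A (fun S => (D S ∧ v ∈ S) ∧ ∀ v' ∈ V0, Bad N X Q j w Z v' S) := by
      unfold pr
      have hm := measureReal_inter_add_sdiff (μ := μ)
        (s := {ω | D (Ch A ω) ∧ ∀ v' ∈ V0, Bad N X Q j w Z v' (Ch A ω)}) (t := A v) (hA v)
      rw [← hm, add_comm]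
      congr 1
      · congr 1
        ext ω
        simp only [Set.mem_sdiff, Set.mem_ofPred_eq, Ch]
        tauto
      · congr 1
        ext ω
        simp only [Set.mem_inter_iff, Set.mem_ofPred_eq, Ch]
        tauto
    have e1 : pr μ A (fun S => D S ∧ ∀ v' ∈ insert v V0, Bad N X Q j w Z v' S) =
        μ.real {ω | D (Ch A ω) ∧ (∀ v' ∈ V0, Bad N X Q j w Z v' (Ch A ω)) ∧
          Bad N X Q j w Z v (Ch A ω)} := by
      unfold pr
      congr 1
      ext ω
      simp only [Set.mem_ofPred_eq, Finset.forall_mem_insert]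
      tauto
    have e2 : μ.real {ω | D (Ch A ω) ∧ (∀ v' ∈ V0, Bad N X Q j w Z v' (Ch A ω)) ∧
          v ∈ Ch A ω} =
        pr μ A (fun S => (D S ∧ v ∈ S) ∧ ∀ v' ∈ V0, Bad N X Q j w Z v' S) := by
      unfold pr
      congr 1
      ext ω
      simp only [Set.mem_ofPred_eq]
      tauto
    rw [EE_insert μ A δ hv, e1]
    rw [e2, hsplit] at hs
    have i2' := mul_le_mul_of_nonneg_left i2 (sub_nonneg.2 hδ1)
    linarith

end

end Pool.Agent.N860.TS.RECaux

namespace Pool.Agent.N860.TS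

open RECaux

/-- **REC** -/
theorem rec : S_IND → S_STEP → S_DB → S_MB → S_REC := by
  intro hind hstep hdb hmb Ω _ μ _ A hA hi N X Q j w Z V δ hP hsep hδ hδ1 hpr
  have h := main μ A hstep hdb hmb hind hA hi N X Q j w Z δ hδ hδ1 V hP hsep hpr (fun _ => True)
    (fun _ _ _ => Iff.rfl)
  rw [EE_prod μ A hA hi] at h
  refine le_trans (le_of_eq ?_) h
  unfold pr
  congr 1
  ext ω
  simp only [Set.mem_ofPred_eq, true_and]

end Pool.Agent.N860.TS
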