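import Pool.Agent.N860.TS.Stm

/-!
Project TS (helper860), part STEP (helper324): one step of the exploration.
-/

set_option autoImplicit false

namespace Pool.Agent.N860.TS

open MeasureTheory Filter Finset
open scoped Topology

namespace StepAux

theorem cnt_mono (S : Set ℕ) {a b : ℕ} (h : a ≤ b) : cnt S a ≤ cnt S b := by
  classical
  unfold cnt
  exact Finset.card_le_card (Finset.filter_subset_filter _ (Finset.range_subset_range.2 h))

theorem cnt_succ (S : Set ℕ) {x : ℕ} (h : x ∈ S) : cnt S (x + 1) = cnt S x + 1 := by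
  classical
  unfold cnt
  rw [Finset.range_add_one, Finset.filter_insert, if_pos h, Finset.card_insert_of_notMem]
  simp

theorem cnt_split (S : Set ℕ) {x y : ℕ} (h : x < y) : cnt S y = cnt S (x + 1) + bet S x y := by
  classical
  unfold cnt bet
  rw [← Finset.card_union_of_disjoint]
  · rw [← Finset.filter_union]
    congr 2
    ext k
    simp only [Finset.mem_range, Finset.mem_union, Finset.mem_Ioo]
    omega
  · refine Finset.disjoint_filter_filter ?_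
    rw [Finset.disjoint_left]
    intro k hk hk'
    simp only [Finset.mem_range, Finset.mem_Ioo] at hk hk'
    omega

theorem St_lt {j v x x' : ℕ} {S : Set ℕ} (h : St j v x S) (h' : St j v x' S) : ¬ x < x' := by
  intro hlt
  obtain ⟨h1, h2⟩ := h
  obtain ⟨h1', h2'⟩ := h'
  have e1 := cnt_mono S (show x + 1 ≤ x' from hlt)
  have e2 := cnt_succ S h1'
  omega

theorem St_unique {j v x x' : ℕ} {S : Set ℕ} (h : St j v x S) (h' : St j v x' S) : x = x' := by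
  rcases lt_trichotomy x x' with h1 | h1 | h1
  · exact absurd h1 (St_lt h h')
  · exact h1
  · exact absurd h1 (St_lt h' h)

/-- the property of `u` in `Gp` -/
def Pg (Q w z u : ℕ) (S : Set ℕ) : Prop := z ≤ u ∧ u ≤ z + w ∧ Q ∣ u ∧ u - 1 ∈ S ∧ u + 1 ∈ S

theorem Gp_iff (Q w z : ℕ) (S : Set ℕ) : Gp Q w z S ↔ ∃ u, Pg Q w z u S := Iff.rfl

theorem dep_Pg {Q w z u x : ℕ} (h : z + w + 1 ≤ x) : Dep 0 x (Pg Q w z u) := by
  intro S S' hS
  unfold Pg
  constructor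
  · rintro ⟨h1, h2, h3, h4, h5⟩
    exact ⟨h1, h2, h3, (hS _ (by omega) (by omega)).1 h4, (hS _ (by omega) (by omega)).1 h5⟩
  · rintro ⟨h1, h2, h3, h4, h5⟩
    exact ⟨h1, h2, h3, (hS _ (by omega) (by omega)).2 h4, (hS _ (by omega) (by omega)).2 h5⟩

theorem dep_mono {a b : ℕ} {P : Set ℕ → Prop} (h : Dep 0 a P) (hab : a ≤ b) : Dep 0 b P :=
  fun S S' hS => h S S' (fun k h1 h2 => hS k h1 (h2.trans hab))

theorem dep_bet {x y j : ℕ} (h : x < y) :
    Dep (x + 1) y (fun S => bet S x y + 1 = j ∧ y ∈ S) := by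
  classical
  intro S S' hS
  have e : bet S x y = bet S' x y := by
    unfold bet
    congr 1
    refine Finset.filter_congr ?_
    intro k hk
    rw [Finset.mem_Ioo] at hk
    exact hS k (by omega) (by omega)
  have e' := hS y (by omega) le_rfl
  simp only [e, e']

/-- the exploration starts well at `x`, and `v` is chosen, and `u` is the least one -/
def F (D W : Set ℕ → Prop) (Q j w : ℕ) (Z : ℕ → ℕ) (v x u : ℕ) (S : Set ℕ) : Prop :=
  D S ∧ (W S ∧ St j v x S) ∧ v ∈ S ∧ Pg Q w (Z x - v) u S ∧ ∀ u' < u, ¬ Pg Q w (Z x - v) u' S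

/-- the exploration starts well at `x` -/
def E (D W : Set ℕ → Prop) (Q j w : ℕ) (Z : ℕ → ℕ) (v x : ℕ) (S : Set ℕ) : Prop :=
  D S ∧ (W S ∧ St j v x S) ∧ Gp Q w (Z x - v) S

theorem F_unique {D W : Set ℕ → Prop} {Q j w : ℕ} {Z : ℕ → ℕ} {v x u x' u' : ℕ} {S : Set ℕ}
    (h : F D W Q j w Z v x u S) (h' : F D W Q j w Z v x' u' S) : x = x' ∧ u = u' := by
  obtain ⟨_, ⟨_, h1⟩, _, h2, h3⟩ := h
  obtain ⟨_, ⟨_, h1'⟩, _, h2', h3'⟩ := h'
  have e := St_unique h1 h1'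
  subst e
  refine ⟨rfl, ?_⟩
  rcases lt_trichotomy u u' with h4 | h4 | h4
  · exact absurd h2 (h3' u h4)
  · exact h4
  · exact absurd h2' (h3 u' h4)

theorem exists_F {D W : Set ℕ → Prop} {Q j w : ℕ} {Z : ℕ → ℕ} {v x : ℕ} {S : Set ℕ}
    (h : E D W Q j w Z v x S) (hv : v ∈ S) : ∃ u, F D W Q j w Z v x u S := by
  classical
  obtain ⟨h1, h2, h3⟩ := h
  have h3' : ∃ u, Pg Q w (Z x - v) u S := h3
  exact ⟨Nat.find h3', h1, h2, hv, Nat.find_spec h3', fun u' hu' => Nat.find_min h3' hu'⟩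

theorem dep_F {N X Q j w : ℕ} {Z : ℕ → ℕ} {v x u : ℕ} {D W : Set ℕ → Prop} (hP : Par N X j w Z v)
    (hD : Dep 0 N D) (h1 : N < x) (h2 : x < X) (hW : Dep 0 x (fun S => W S ∧ St j v x S)) :
    Dep 0 x (F D W Q j w Z v x u) := by
  have hv := hP.vN
  have hl := hP.low x h1 h2
  have hu := hP.up x h1 h2
  have hz : Z x - v + w + 1 ≤ x := by omega
  intro S S' hS
  have e1 := dep_mono hD h1.le S S' hS
  have e2 := hW S S' hS
  simp only at e2
  have e3 := hS v (by omega) (by omega)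
  have e4 : ∀ u, (Pg Q w (Z x - v) u S ↔ Pg Q w (Z x - v) u S') := fun u => dep_Pg hz S S' hS
  unfold F
  rw [e1, e2, e3]
  simp only [e4]

theorem dep_E {N X Q j w : ℕ} {Z : ℕ → ℕ} {v x : ℕ} {D W : Set ℕ → Prop} (hP : Par N X j w Z v)
    (hD : Dep 0 N D) (h1 : N < x) (h2 : x < X) (hW : Dep 0 x (fun S => W S ∧ St j v x S)) :
    Dep 0 x (E D W Q j w Z v x) := by
  have hv := hP.vN
  have hl := hP.low x h1 h2
  have hu := hP.up x h1 h2
  have hz : Z x - v + w + 1 ≤ x := by omega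
  intro S S' hS
  have e1 := dep_mono hD h1.le S S' hS
  have e2 := hW S S' hS
  simp only at e2
  have e4 : ∀ u, (Pg Q w (Z x - v) u S ↔ Pg Q w (Z x - v) u S') := fun u => dep_Pg hz S S' hS
  unfold E
  rw [e1, e2, Gp_iff, Gp_iff]
  simp only [e4]

theorem F_suc {N X Q j w : ℕ} {Z : ℕ → ℕ} {v x u : ℕ} {D W : Set ℕ → Prop} (hP : Par N X j w Z v)
    (h1 : N < x) (h2 : x < X) {S : Set ℕ} (hF : F D W Q j w Z v x u S)
    (hB : bet S x (u + v) + 1 = j ∧ u + v ∈ S) : Suc v S := by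
  obtain ⟨_, ⟨_, h3, h3'⟩, h4, ⟨h5, h6, h7, h8, h9⟩, _⟩ := hF
  obtain ⟨hB1, hB2⟩ := hB
  have hl := hP.low x h1 h2
  have hu := hP.up x h1 h2
  have hc := cnt_split S (show x < u + v by omega)
  exact ⟨h4, u, by omega, h8, h9, hB2, by omega⟩

end StepAux

open StepAux in
theorem step : S_IND → S_STEP := by
  intro hIND Ω _ μ _ A hA hI N X Q j w Z v δ hP hδ0 hδ1 hB D W hD hW hWS
  classical
  obtain ⟨hM, hPr⟩ := hIND Ω μ A hA hI
  have hDm : MeasurableSet {ω | D (Ch A ω)} := hM 0 N D hD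
  -- index set
  obtain ⟨I, hIdef⟩ : ∃ I : Finset (ℕ × ℕ), I = Ioo N X ×ˢ range X := ⟨_, rfl⟩
  have hIx : ∀ i ∈ I, N < i.1 ∧ i.1 < X := by
    intro i hi
    rw [hIdef, Finset.mem_product, Finset.mem_Ioo] at hi
    exact hi.1
  obtain ⟨SF, hSF⟩ : ∃ SF : ℕ × ℕ → Set Ω,
      SF = fun i => {ω | F D W Q j w Z v i.1 i.2 (Ch A ω)} := ⟨_, rfl⟩
  obtain ⟨SB, hSB⟩ : ∃ SB : ℕ × ℕ → Set Ω,
      SB = fun i => {ω | F D W Q j w Z v i.1 i.2 (Ch A ω) ∧
        (bet (Ch A ω) i.1 (i.2 + v) + 1 = j ∧ i.2 + v ∈ Ch A ω)} := ⟨_, rfl⟩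
  obtain ⟨G, hG⟩ : ∃ G : Set Ω, G = ⋃ x ∈ Ioo N X, {ω | E D W Q j w Z v x (Ch A ω)} := ⟨_, rfl⟩
  obtain ⟨H, hH⟩ : ∃ H : Set Ω, H = {ω | D (Ch A ω) ∧ W (Ch A ω)} := ⟨_, rfl⟩
  have hSFm : ∀ i ∈ I, MeasurableSet (SF i) := by
    intro i hi
    obtain ⟨h1, h2⟩ := hIx i hi
    rw [hSF]
    exact hM 0 i.1 _ (dep_F hP hD h1 h2 (hWS i.1 h1 h2))
  have hGm : MeasurableSet G := by
    rw [hG]
    refine Finset.measurableSet_biUnion _ ?_
    intro x hx
    rw [Finset.mem_Ioo] at hx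
    exact hM 0 x _ (dep_E hP hD hx.1 hx.2 (hWS x hx.1 hx.2))
  have hHm : MeasurableSet H := by
    rw [hH]
    exact hDm.inter hW
  have key : ∀ i ∈ I, MeasurableSet (SB i) ∧ δ * μ.real (SF i) ≤ μ.real (SB i) := by
    intro i hi
    obtain ⟨h1, h2⟩ := hIx i hi
    have hl := hP.low i.1 h1 h2
    have hu := hP.up i.1 h1 h2
    by_cases hr : Z i.1 - v ≤ i.2 ∧ i.2 ≤ Z i.1 - v + w ∧ Q ∣ i.2
    · obtain ⟨hr1, hr2, hr3⟩ := hr
      have hlt : i.1 < i.2 + v := by omega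
      have hd := dep_F (Q := Q) (u := i.2) hP hD h1 h2 (hWS i.1 h1 h2)
      have hd' := dep_bet (j := j) hlt
      constructor
      · have := (hM 0 i.1 _ hd).inter (hM (i.1 + 1) (i.2 + v) _ hd')
        rw [hSB]
        exact this
      · have e := hPr i.1 (i.2 + v) _ _ hd hd'
        have e' := hB i.1 (i.2 + v) h1 h2 (by omega) (by omega) (by
          rw [Nat.add_mod, Nat.mod_eq_zero_of_dvd hr3, zero_add, Nat.mod_mod])
        rw [hSB, hSF]
        simp only at e ⊢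
        rw [e, mul_comm]
        exact mul_le_mul_of_nonneg_left e' measureReal_nonneg
    · have hFf : SF i = ∅ := by
        rw [hSF]
        ext ω
        simp only [Set.mem_ofPred_eq, Set.mem_empty_iff_false, iff_false]
        rintro ⟨_, _, _, ⟨a1, a2, a3, _⟩, _⟩
        exact hr ⟨a1, a2, a3⟩
      have hBf : SB i = ∅ := by
        rw [hSB]
        ext ω
        simp only [Set.mem_ofPred_eq, Set.mem_empty_iff_false, iff_false]
        rintro ⟨⟨_, _, _, ⟨a1, a2, a3, _⟩, _⟩, _⟩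
        exact hr ⟨a1, a2, a3⟩
      rw [hFf, hBf]
      simp
  have hdisjF : Set.PairwiseDisjoint (I : Set (ℕ × ℕ)) SF := by
    intro i _ i' _ hne
    rw [Function.onFun, Set.disjoint_left]
    intro ω h1 h2
    rw [hSF] at h1 h2
    obtain ⟨e1, e2⟩ := F_unique h1 h2
    exact hne (Prod.ext e1 e2)
  have hSBF : ∀ i, SB i ⊆ SF i := by
    intro i ω h
    rw [hSB] at h
    rw [hSF]
    exact h.1
  have hdisjB : Set.PairwiseDisjoint (I : Set (ℕ × ℕ)) SB := by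
    intro i hi i' hi' hne
    exact Set.disjoint_of_subset (hSBF i) (hSBF i') (hdisjF hi hi' hne)
  obtain ⟨T, hT⟩ : ∃ T : Set Ω, T = ⋃ i ∈ I, SB i := ⟨_, rfl⟩
  have hTm : MeasurableSet T := by
    rw [hT]
    exact Finset.measurableSet_biUnion _ (fun i hi => (key i hi).1)
  -- the measure of T
  have hTlow : δ * μ.real (G ∩ A v) ≤ μ.real T := by
    have h1 : μ.real (G ∩ A v) ≤ μ.real (⋃ i ∈ I, SF i) := by
      refine measureReal_mono ?_ (measure_ne_top μ _)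
      rintro ω ⟨h1, h2⟩
      rw [hG, Set.mem_iUnion₂] at h1
      obtain ⟨x, hx, h3⟩ := h1
      have hx' := Finset.mem_Ioo.1 hx
      obtain ⟨u, hu⟩ := exists_F (h3 : E D W Q j w Z v x (Ch A ω)) h2
      rw [Set.mem_iUnion₂]
      refine ⟨(x, u), ?_, ?_⟩
      · rw [hIdef, Finset.mem_product]
        refine ⟨hx, ?_⟩
        have hl := hP.low x hx'.1 hx'.2
        have hup := hP.up x hx'.1 hx'.2
        have hu2 := hu.2.2.2.1.2.1
        rw [Finset.mem_range]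
        show u < X
        omega
      · rw [hSF]
        exact hu
    have h2 : μ.real (⋃ i ∈ I, SF i) = ∑ i ∈ I, μ.real (SF i) :=
      measureReal_biUnion_finset hdisjF hSFm
    have h3 : μ.real T = ∑ i ∈ I, μ.real (SB i) := by
      rw [hT]
      exact measureReal_biUnion_finset hdisjB (fun i hi => (key i hi).1)
    calc δ * μ.real (G ∩ A v) ≤ δ * ∑ i ∈ I, μ.real (SF i) := by
          rw [← h2]
          exact mul_le_mul_of_nonneg_left h1 hδ0
      _ = ∑ i ∈ I, δ * μ.real (SF i) := by rw [Finset.mul_sum]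
      _ ≤ ∑ i ∈ I, μ.real (SB i) := Finset.sum_le_sum (fun i hi => (key i hi).2)
      _ = μ.real T := h3.symm
  have hTG : T ⊆ G := by
    rw [hT, hG]
    intro ω h
    rw [Set.mem_iUnion₂] at h ⊢
    obtain ⟨i, hi, h1⟩ := h
    have h2 := hSBF i h1
    rw [hSF] at h2
    obtain ⟨a1, a2, a3, a4, a5⟩ := h2
    obtain ⟨b1, b2⟩ := hIx i hi
    exact ⟨i.1, Finset.mem_Ioo.2 ⟨b1, b2⟩, a1, a2, i.2, a4⟩
  have hGH : G ⊆ H := by
    rw [hG, hH]
    intro ω h
    rw [Set.mem_iUnion₂] at h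
    obtain ⟨x, hx, h1, h2, h3⟩ := h
    exact ⟨h1, h2.1⟩
  have hBadsub : {ω | D (Ch A ω) ∧ W (Ch A ω) ∧ Bad N X Q j w Z v (Ch A ω)} ⊆ G \ T := by
    rintro ω ⟨h1, h2, ⟨x, hx1, hx2, h3, h4⟩, h5⟩
    refine ⟨?_, ?_⟩
    · rw [hG, Set.mem_iUnion₂]
      exact ⟨x, Finset.mem_Ioo.2 ⟨hx1, hx2⟩, h1, ⟨h2, h3⟩, h4⟩
    · intro h6
      rw [hT, Set.mem_iUnion₂] at h6
      obtain ⟨i, hi, h7⟩ := h6
      obtain ⟨b1, b2⟩ := hIx i hi
      rw [hSB] at h7
      exact h5 (F_suc hP b1 b2 h7.1 h7.2)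
  have e1 : μ.real {ω | D (Ch A ω) ∧ W (Ch A ω) ∧ Bad N X Q j w Z v (Ch A ω)} ≤
      μ.real G - μ.real T := by
    have := measureReal_mono (μ := μ) hBadsub
    have e := measureReal_sdiff (μ := μ) hTG hTm
    linarith
  have e2 : μ.real (H ∩ A v) - μ.real (G ∩ A v) ≤ μ.real H - μ.real G := by
    have a1 := measureReal_sdiff (μ := μ) hGH hGm
    have a2 := measureReal_sdiff (μ := μ) (Set.inter_subset_inter_left (A v) hGH)
      (hGm.inter (hA v))
    rw [← a1, ← a2]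
    refine measureReal_mono ?_
    rintro ω ⟨⟨c1, c2⟩, c3⟩
    exact ⟨c1, fun c4 => c3 ⟨c4, c2⟩⟩
  have e3 : 0 ≤ μ.real (H ∩ A v) - μ.real (G ∩ A v) := by
    have := measureReal_mono (μ := μ) (Set.inter_subset_inter_left (A v) hGH)
    linarith
  have e4 : {ω | D (Ch A ω) ∧ W (Ch A ω) ∧ v ∈ Ch A ω} = H ∩ A v := by
    rw [hH]
    ext ω
    simp only [Set.mem_ofPred_eq, Set.mem_inter_iff, Ch]
    tauto
  rw [e4, ← hH]
  have e5 : δ * (μ.real (H ∩ A v) - μ.real (G ∩ A v)) ≤ μ.real (H ∩ A v) - μ.real (G ∩ A v) :=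
    mul_le_of_le_one_left e3 hδ1
  linarith

end Pool.Agent.N860.TS
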