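import Pool.Agent.N860.TS.Stm

/-!
# Many values of `q(n,k)` which are `1` modulo `Q` (part VAL)
-/

set_option autoImplicit false

namespace Pool.Agent.N860.TS

open MeasureTheory Filter Finset
open scoped Topology

/-- `q(n,k)` is symmetric enough: one of the pairs `(k, n-k)`, `(n-k, k)` is generic -/
theorem val_gen {n k : ℕ} (hk : k < n) (hk1 : 1 ≤ k)
    (h1 : ∃ p : ℕ, p.Prime ∧ p ∣ k ∧ (n : ℝ) ^ (51 / 100 : ℝ) < p)
    (h2 : ∃ p : ℕ, p.Prime ∧ p ∣ (n - k) ∧ (n : ℝ) ^ (51 / 100 : ℝ) < p) : Gen n k ∨ Gen n (n - k) := by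
  obtain ⟨p, hp, ⟨a, ha⟩, hp2⟩ := h1
  obtain ⟨r, hr, ⟨b, hb⟩, hr2⟩ := h2
  have ha0 : 1 ≤ a := by
    rcases Nat.eq_zero_or_pos a with h | h
    · rw [h, mul_zero] at ha; omega
    · exact h
  have hb0 : 1 ≤ b := by
    rcases Nat.eq_zero_or_pos b with h | h
    · rw [h, mul_zero] at hb; omega
    · exact h
  have hta : 0 < Nat.totient a := Nat.totient_pos.2 ha0
  by_cases hg : a * Nat.totient b = 2 * b * Nat.totient a
  · right
    refine ⟨b, a, r, p, hr, hp, hr2, hp2, by rw [hb, mul_comm], ?_, ?_⟩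
    · have : n - (n - k) = k := by omega
      rw [this, ha, mul_comm]
    · intro hg2
      have h3 : b * Nat.totient a = 4 * (b * Nat.totient a) := by
        calc b * Nat.totient a = 2 * a * Nat.totient b := hg2
          _ = 2 * (a * Nat.totient b) := by ring
          _ = 2 * (2 * b * Nat.totient a) := by rw [hg]
          _ = 4 * (b * Nat.totient a) := by ring
      have h4 : 0 < b * Nat.totient a := Nat.mul_pos hb0 hta
      omega
  · left
    exact ⟨a, b, p, r, hp, hr, hp2, hr2, by rw [ha, mul_comm], by rw [hb, mul_comm], hg⟩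

theorem val_large : ∀ᶠ n : ℕ in atTop, 100 ≤ n ∧ (2 : ℝ) < (n : ℝ) ^ (51 / 100 : ℝ) ∧
    (100 : ℝ) ≤ (n : ℝ) ^ (1 / 100 : ℝ) := by
  have h : Tendsto (fun n : ℕ => (n : ℝ) ^ (51 / 100 : ℝ)) atTop atTop :=
    (tendsto_rpow_atTop (by norm_num)).comp tendsto_natCast_atTop_atTop
  have h' : Tendsto (fun n : ℕ => (n : ℝ) ^ (1 / 100 : ℝ)) atTop atTop :=
    (tendsto_rpow_atTop (by norm_num)).comp tendsto_natCast_atTop_atTop
  filter_upwards [eventually_ge_atTop 100, h.eventually_gt_atTop 2, h'.eventually_ge_atTop 100] with n h1 h2 h3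
  exact ⟨h1, h2, h3⟩

open Classical in
theorem val (hM : S_MERT) (hP : S_PHM) (hL : S_PHL) (hF : S_FIB) : S_VAL := by
  obtain ⟨c, hc, hL⟩ := hL
  refine ⟨c / 2, by positivity, fun Q hQ => ?_⟩
  filter_upwards [val_large, hM, hP (2 * Q) (by omega) (1 / 100) (by norm_num), hF] with n hn hM hP hF
  obtain ⟨hn1, hn2, hn3⟩ := hn
  have hn0 : (0 : ℝ) < n := by
    have : 0 < n := by omega
    exact_mod_cast this
  have hn100 : (100 : ℝ) ≤ n := by exact_mod_cast hn1
  have hL := hL n (by omega)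
  set I : Finset ℕ := Ico 1 n with hI
  have hIc : (I.card : ℝ) = n - 1 := by
    rw [hI, Nat.card_Ico, Nat.cast_sub (by omega)]; norm_num
  set B1 := I.filter (fun k => ¬ ∃ p : ℕ, p.Prime ∧ p ∣ k ∧ (n : ℝ) ^ (51 / 100 : ℝ) < p) with hB1
  set B2 := I.filter (fun k => ¬ (2 * Q) ∣ Nat.totient k) with hB2
  set B3 := I.filter (fun k => (Nat.totient k : ℝ) < c * k) with hB3
  have c1 : (B1.card : ℝ) ≤ 2 / 5 * n := by
    have h := Finset.card_filter_add_card_filter_not (s := I)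
      (fun k => ∃ p : ℕ, p.Prime ∧ p ∣ k ∧ (n : ℝ) ^ (51 / 100 : ℝ) < p)
    have h' : ((I.filter (fun k => ∃ p : ℕ, p.Prime ∧ p ∣ k ∧ (n : ℝ) ^ (51 / 100 : ℝ) < p)).card : ℝ) +
        (B1.card : ℝ) = (I.card : ℝ) := by exact_mod_cast h
    linarith
  set B := B1 ∪ B2 ∪ B3 with hB
  have cB : (B.card : ℝ) ≤ 46 / 100 * n := by
    have h1 : (B.card : ℝ) ≤ (B1.card : ℝ) + B2.card + B3.card := by
      have h1 := Finset.card_union_le (B1 ∪ B2) B3
      rw [← hB] at h1
      have h2 := Finset.card_union_le B1 B2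
      have : B.card ≤ B1.card + B2.card + B3.card := by omega
      exact_mod_cast this
    linarith
  set B' := B.image (fun k => n - k) with hB'
  have cB' : (B'.card : ℝ) ≤ 46 / 100 * n := by
    have : B'.card ≤ B.card := Finset.card_image_le
    have h2 : (B'.card : ℝ) ≤ B.card := by exact_mod_cast this
    linarith
  set G := I \ (B ∪ B') with hG
  have cG : 7 / 100 * (n : ℝ) ≤ G.card := by
    have h1 := Finset.le_card_sdiff (B ∪ B') I
    rw [← hG] at h1
    have h2 := Finset.card_union_le B B'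
    have h3 : (I.card : ℝ) ≤ (G.card : ℝ) + B.card + B'.card := by
      have : I.card ≤ G.card + B.card + B'.card := by omega
      exact_mod_cast this
    linarith
  -- the properties of the elements of G
  have prop : ∀ k, k ∈ I → k ∉ B → (∃ p : ℕ, p.Prime ∧ p ∣ k ∧ (n : ℝ) ^ (51 / 100 : ℝ) < p) ∧
      (2 * Q) ∣ Nat.totient k ∧ c * k ≤ (Nat.totient k : ℝ) := by
    intro k hk hkB
    rw [hB, Finset.mem_union, Finset.mem_union, hB1, hB2, hB3, Finset.mem_filter, Finset.mem_filter,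
      Finset.mem_filter] at hkB
    push Not at hkB
    obtain ⟨⟨h1, h2⟩, h3⟩ := hkB
    refine ⟨?_, ?_, h3 hk⟩
    · exact h1 hk
    · exact h2 hk
  have propG : ∀ k ∈ G, (1 ≤ k ∧ k < n) ∧ k ∉ B ∧ n - k ∉ B := by
    intro k hk
    rw [hG, Finset.mem_sdiff, Finset.mem_union] at hk
    push Not at hk
    obtain ⟨h1, h2, h3⟩ := hk
    have h1' := Finset.mem_Ico.1 h1
    refine ⟨h1', h2, ?_⟩
    intro h
    apply h3
    rw [hB', Finset.mem_image]
    exact ⟨n - k, h, by omega⟩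
  have symG : ∀ k ∈ G, n - k ∈ G := by
    intro k hk
    obtain ⟨⟨h1, h2⟩, h3, h4⟩ := propG k hk
    rw [hG, Finset.mem_sdiff, Finset.mem_union]
    refine ⟨Finset.mem_Ico.2 ⟨by omega, by omega⟩, ?_⟩
    rintro (h | h)
    · exact h4 h
    · rw [hB', Finset.mem_image] at h
      obtain ⟨l, hl, hl2⟩ := h
      have hlI : l ∈ I := by
        rw [hB, Finset.mem_union, Finset.mem_union, hB1, hB2, hB3, Finset.mem_filter, Finset.mem_filter,
          Finset.mem_filter] at hl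
        rcases hl with (h | h) | h
        · exact h.1
        · exact h.1
        · exact h.1
      have := Finset.mem_Ico.1 hlI
      have : l = k := by omega
      rw [this] at hl
      exact h3 hl
  set G1 := G.filter (fun k => Gen n k) with hG1
  have cG1 : 35 / 1000 * (n : ℝ) ≤ G1.card := by
    have h1 : G ⊆ G1 ∪ G1.image (fun k => n - k) := by
      intro k hk
      obtain ⟨⟨h1, h2⟩, h3, h4⟩ := propG k hk
      have p1 := prop k (Finset.mem_Ico.2 ⟨h1, h2⟩) h3
      have p2 := prop (n - k) (Finset.mem_Ico.2 ⟨by omega, by omega⟩) h4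
      rw [Finset.mem_union]
      rcases val_gen h2 h1 p1.1 p2.1 with h | h
      · left; exact Finset.mem_filter.2 ⟨hk, h⟩
      · right
        rw [Finset.mem_image]
        exact ⟨n - k, Finset.mem_filter.2 ⟨symG k hk, h⟩, by omega⟩
    have h2 := Finset.card_le_card h1
    have h3 := Finset.card_union_le G1 (G1.image (fun k => n - k))
    have h4 : (G1.image (fun k => n - k)).card ≤ G1.card := Finset.card_image_le
    have h5 : (G.card : ℝ) ≤ 2 * G1.card := by
      have : G.card ≤ 2 * G1.card := by omega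
      exact_mod_cast this
    linarith
  refine ⟨G1.image (q n), ?_, ?_⟩
  · have h1 := Finset.card_le_mul_card_image (f := q n) G1 ⌊(n : ℝ) ^ (98 / 100 : ℝ)⌋₊ (by
      intro v hv
      apply Nat.le_floor
      refine le_trans ?_ (hF v)
      apply Nat.cast_le.2
      apply Finset.card_le_card
      intro k hk
      rw [Finset.mem_filter] at hk ⊢
      have hk1 := Finset.mem_filter.1 hk.1
      have := (propG k hk1.1).1
      exact ⟨Finset.mem_Ico.2 this, hk1.2, hk.2⟩)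
    have h2 : (G1.card : ℝ) ≤ (n : ℝ) ^ (98 / 100 : ℝ) * (G1.image (q n)).card := by
      calc (G1.card : ℝ) ≤ ((⌊(n : ℝ) ^ (98 / 100 : ℝ)⌋₊ * (G1.image (q n)).card : ℕ) : ℝ) := by exact_mod_cast h1
        _ = (⌊(n : ℝ) ^ (98 / 100 : ℝ)⌋₊ : ℝ) * (G1.image (q n)).card := by push_cast; ring
        _ ≤ _ := mul_le_mul_of_nonneg_right (Nat.floor_le (Real.rpow_nonneg hn0.le _)) (Nat.cast_nonneg _)
    have h3 : (n : ℝ) = (n : ℝ) ^ (98 / 100 : ℝ) * ((n : ℝ) ^ (1 / 100 : ℝ) * (n : ℝ) ^ (1 / 100 : ℝ)) := by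
      rw [← Real.rpow_add hn0, ← Real.rpow_add hn0]; norm_num
    have h4 : (0 : ℝ) < (n : ℝ) ^ (98 / 100 : ℝ) := Real.rpow_pos_of_pos hn0 _
    have h5 : (n : ℝ) ^ (98 / 100 : ℝ) * (35 / 1000 * ((n : ℝ) ^ (1 / 100 : ℝ) * (n : ℝ) ^ (1 / 100 : ℝ))) ≤
        (n : ℝ) ^ (98 / 100 : ℝ) * (G1.image (q n)).card := by
      calc (n : ℝ) ^ (98 / 100 : ℝ) * (35 / 1000 * ((n : ℝ) ^ (1 / 100 : ℝ) * (n : ℝ) ^ (1 / 100 : ℝ))) =
          35 / 1000 * ((n : ℝ) ^ (98 / 100 : ℝ) * ((n : ℝ) ^ (1 / 100 : ℝ) * (n : ℝ) ^ (1 / 100 : ℝ))) := by ring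
        _ = 35 / 1000 * n := by rw [← h3]
        _ ≤ _ := cG1.trans h2
    have h6 := le_of_mul_le_mul_left h5 h4
    refine le_trans ?_ h6
    nlinarith
  · intro v hv
    rw [Finset.mem_image] at hv
    obtain ⟨k, hk, rfl⟩ := hv
    obtain ⟨hkG, ⟨a, b, p, p', hp, hp', g1, g2, hka, hkb, hne⟩⟩ := Finset.mem_filter.1 hk
    obtain ⟨⟨h1, h2⟩, h3, h4⟩ := propG k hkG
    obtain ⟨-, d1, e1⟩ := prop k (Finset.mem_Ico.2 ⟨h1, h2⟩) h3
    obtain ⟨-, d2, e2⟩ := prop (n - k) (Finset.mem_Ico.2 ⟨by omega, by omega⟩) h4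
    obtain ⟨s, hs⟩ := d1
    obtain ⟨t, ht⟩ := d2
    have ht2 : Nat.totient (n - k) / 2 = Q * t := by
      rw [ht, show 2 * Q * t = 2 * (Q * t) by ring]; omega
    have hq : q n k = Nat.totient k + Q * t + 1 := by unfold q; rw [ht2]
    have hkn : (k : ℝ) ≤ n := by exact_mod_cast h2.le
    have hk0 : (0 : ℝ) ≤ k := Nat.cast_nonneg _
    refine ⟨?_, ?_, ?_, k, h1, ?_, rfl⟩
    · rw [hq]
      push_cast
      have e3 : ((n - k : ℕ) : ℝ) = (n : ℝ) - k := by rw [Nat.cast_sub h2.le]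
      rw [e3, ht] at e2
      push_cast at e2
      nlinarith
    · have l1 : Nat.totient k ≤ k := Nat.totient_le k
      have l2 : Nat.totient (n - k) ≤ n - k := Nat.totient_le _
      unfold q
      omega
    · rw [hq, hs, show 2 * Q * s + Q * t + 1 = 1 + Q * (2 * s + t) by ring, Nat.add_mul_mod_self_left]
    · have g3 : 2 < p' := by exact_mod_cast hn2.trans g2
      have hb0 : 1 ≤ b := by
        rcases Nat.eq_zero_or_pos b with h | h
        · rw [h, zero_mul] at hkb; omega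
        · exact h
      have : p' ≤ n - k := by rw [hkb]; exact Nat.le_mul_of_pos_left _ hb0
      omega

end Pool.Agent.N860.TS
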