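import Pool.Agent.N860.TS.SumB
import Pool.Agent.N860.TS.Bin
import Pool.Agent.N860.TS.Cnt
import Pool.Agent.N860.TS.Db
import Pool.Agent.N860.TS.Exa
import Pool.Agent.N860.TS.Gap
import Pool.Agent.N860.TS.Ind
import Pool.Agent.N860.TS.Mert
import Pool.Agent.N860.TS.Phl
import Pool.Agent.N860.TS.Phm
import Pool.Agent.N860.TS.Step
import Pool.Agent.N860.TS.Fib
import Pool.Agent.N860.TS.Val
import Pool.Agent.N860.TS.Pat
import Pool.Agent.N860.TS.Rec
import Pool.Agent.N860.TS.Start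

set_option autoImplicit false

namespace Pool.Agent.N860.TS

open MeasureTheory Filter Finset
open scoped Topology

theorem final (Ω : Type) [MeasurableSpace Ω] (μ : Measure Ω)
    [IsProbabilityMeasure μ] (A : ℕ → Set Ω) (Q k₀ : ℕ) (θ : ℝ) (hQ : 1 ≤ Q) (hθ : 0 < θ) (hM : Model μ A Q k₀ θ) :
    ∀ᵐ ω ∂μ, ∀ᶠ n : ℕ in atTop, ∃ T : Finset ℕ, (n : ℝ) ^ (1 / 500 : ℝ) ≤ T.card ∧
      (∀ k ∈ T, Sol (Ch A ω) n k) ∧ Set.InjOn (q n) T :=
  many (val mert phm phl fib) (sumB (pat bin exa ind) (rec ind (step ind) db (mb ind))) (start cntlaw (gap ind))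
    Ω μ A Q k₀ θ hQ hθ hM

end Pool.Agent.N860.TS
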