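import Pool.Agent.N860.TS.Stm

set_option autoImplicit false

namespace Pool.Agent.N860.TS

open MeasureTheory Filter Finset
open scoped Topology

theorem sep : S_SEP := by
  intro V J hJ
  classical
  -- some residue class modulo `J` has many elements
  have hmap : ∀ v ∈ V, v % J ∈ range J := fun v _ => mem_range.2 (Nat.mod_lt _ (by omega))
  obtain ⟨r, hr, hr2⟩ : ∃ r ∈ range J, V.card ≤ J * (V.filter (fun v => v % J = r)).card := by
    by_contra hcon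
    push Not at hcon
    have h1 : V.card = ∑ r ∈ range J, (V.filter (fun v => v % J = r)).card :=
      card_eq_sum_card_fiberwise hmap
    have h2 : J * V.card < J * V.card := by
      calc J * V.card = ∑ r ∈ range J, J * (V.filter (fun v => v % J = r)).card := by
            rw [← mul_sum, ← h1]
        _ < ∑ r ∈ range J, V.card := by
            apply sum_lt_sum_of_nonempty
            · exact nonempty_range_iff.2 (by omega)
            · intro r hr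
              exact hcon r hr
        _ = J * V.card := by simp
    exact lt_irrefl _ h2
  refine ⟨V.filter (fun v => v % J = r), filter_subset _ _, hr2, ?_⟩
  intro a ha b hb hab
  rw [mem_filter] at ha hb
  have h1 : a % J = b % J := by rw [ha.2, hb.2]
  have h2 : (b - a) % J = 0 := Nat.sub_mod_eq_zero_of_mod_eq h1.symm
  have h3 : J ∣ b - a := Nat.dvd_of_mod_eq_zero h2
  have h4 : J ≤ b - a := Nat.le_of_dvd (by omega) h3
  omega

/-- SUMB: the failure probability for every large separated family -/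
def S_SUMB : Prop := ∀ (Ω : Type) [MeasurableSpace Ω] (μ : Measure Ω) [IsProbabilityMeasure μ] (A : ℕ → Set Ω)
  (Q k₀ : ℕ) (θ : ℝ), 1 ≤ Q → 0 < θ → Model μ A Q k₀ θ → ∀ K : ℝ, 0 < K → ∀ c : ℝ, 0 < c →
  ∀ᶠ n : ℕ in atTop, ∀ V : Finset ℕ, (n : ℝ) ^ (1 / 200 : ℝ) ≤ (J n : ℝ) * V.card →
    (∀ v ∈ V, c * n ≤ v ∧ v ≤ 2 * n ∧ v % Q = 1 % Q) → (∀ a ∈ V, ∀ b ∈ V, a < b → a + J n ≤ b) →
    μ.real {ω | ∀ v ∈ V, Bad (2 * n) (n ^ 2) Q (J n) (g K n) (Y Q θ n) v (Ch A ω)} ≤ 1 / (n : ℝ) ^ 3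

/-- Borel-Cantelli -/
lemma bc {Ω : Type} [MeasurableSpace Ω] (μ : Measure Ω) [IsProbabilityMeasure μ] (E : ℕ → Set Ω) (b : ℕ → ℝ)
    (hb : Summable b) (h : ∀ᶠ n in atTop, μ.real (E n) ≤ b n) : ∀ᵐ ω ∂μ, ∀ᶠ n : ℕ in atTop, ω ∉ E n := by
  obtain ⟨N, hN⟩ := eventually_atTop.1 h
  have hs : ∑' n, μ (E (n + N)) ≠ ⊤ := by
    have h1 : Summable (fun n => b (n + N)) := (summable_nat_add_iff N).2 hb
    have h2 : ∀ n, μ (E (n + N)) ≤ ENNReal.ofReal (b (n + N)) := by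
      intro n
      have h3 := hN (n + N) (by omega)
      rw [measureReal_def] at h3
      exact (ENNReal.le_ofReal_iff_toReal_le (measure_ne_top _ _) (ENNReal.toReal_nonneg.trans h3)).2 h3
    refine ne_top_of_le_ne_top ?_ (ENNReal.tsum_le_tsum h2)
    have h4 : ∀ n, 0 ≤ b (n + N) := fun n => measureReal_nonneg.trans (hN (n + N) (by omega))
    rw [← ENNReal.ofReal_tsum_of_nonneg h4 h1]
    exact ENNReal.ofReal_ne_top
  have h5 := ae_eventually_notMem (μ := μ) (s := fun n => E (n + N)) hs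
  filter_upwards [h5] with ω hω
  obtain ⟨M, hM⟩ := eventually_atTop.1 hω
  refine eventually_atTop.2 ⟨M + N, fun n hn => ?_⟩
  have := hM (n - N) (by omega)
  rwa [Nat.sub_add_cancel (by omega)] at this

open Classical in
lemma nth_of_cnt (S : Set ℕ) (y v : ℕ) (hy : y ∈ S) (h : cnt S y + 1 = v) : Nat.nth (· ∈ S) (v - 1) = y := by
  have h1 : cnt S y = Nat.count (· ∈ S) y := by
    rw [Nat.count_eq_card_filter_range]
    rfl
  have h2 : v - 1 = Nat.count (· ∈ S) y := by omega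
  rw [h2]
  exact Nat.nth_count hy

/-- `r ≥ n^(1/500)`, `m ≥ n^(1/200)/J`, `r m ≤ n^(1/100)/J` -/
lemma sizes : ∀ᶠ n : ℕ in atTop, ∃ r m : ℕ, (n : ℝ) ^ (1 / 500 : ℝ) ≤ r ∧ r ≤ n ∧
    (n : ℝ) ^ (1 / 200 : ℝ) ≤ (J n : ℝ) * m ∧ (J n : ℝ) * (r * m : ℕ) ≤ (n : ℝ) ^ (1 / 100 : ℝ) := by
  have hJ : ∀ᶠ n : ℕ in atTop, (J n : ℝ) ≤ (n : ℝ) ^ (1 / 1000 : ℝ) := by
    have h1 : (fun x : ℝ => Real.log x ^ 4) =o[atTop] fun x : ℝ => x ^ (1 / 1000 : ℝ) := by
      have := isLittleO_log_rpow_rpow_atTop (s := 1 / 1000) 4 (by norm_num)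
      simpa using this
    have h2 := (h1.bound (show (0 : ℝ) < 1 / 2 by norm_num))
    have h3 : Tendsto (fun n : ℕ => (n : ℝ) ^ (1 / 1000 : ℝ)) atTop atTop :=
      (tendsto_rpow_atTop (by norm_num)).comp tendsto_natCast_atTop_atTop
    filter_upwards [tendsto_natCast_atTop_atTop.eventually h2, h3.eventually_ge_atTop 2] with n hn hn2
    have h4 : Real.log (n : ℝ) ^ 4 ≤ 1 / 2 * (n : ℝ) ^ (1 / 1000 : ℝ) := by
      have := hn
      rw [Real.norm_of_nonneg (by positivity), Real.norm_of_nonneg (by positivity)] at this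
      exact this
    have h5 : (J n : ℝ) < Real.log (n : ℝ) ^ 4 + 1 := Nat.ceil_lt_add_one (by positivity)
    linarith
  have h3 : Tendsto (fun n : ℕ => (n : ℝ) ^ (1 / 1000 : ℝ)) atTop atTop :=
    (tendsto_rpow_atTop (by norm_num)).comp tendsto_natCast_atTop_atTop
  filter_upwards [hJ, h3.eventually_ge_atTop 2, eventually_ge_atTop 3] with n hJn hn2 hn3
  have hn0 : (0 : ℝ) < n := by exact_mod_cast (by omega : 0 < n)
  set t : ℝ := (n : ℝ) ^ (1 / 1000 : ℝ) with ht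
  have hpow : ∀ j : ℕ, (n : ℝ) ^ ((j : ℝ) / 1000) = t ^ j := by
    intro j
    rw [ht, ← Real.rpow_natCast, ← Real.rpow_mul hn0.le]
    congr 1
    ring
  have e1 : (n : ℝ) ^ (1 / 500 : ℝ) = t ^ 2 := by
    rw [← hpow 2]; norm_num
  have e2 : (n : ℝ) ^ (1 / 200 : ℝ) = t ^ 5 := by
    rw [← hpow 5]; norm_num
  have e3 : (n : ℝ) ^ (1 / 100 : ℝ) = t ^ 10 := by
    rw [← hpow 10]; norm_num
  have e4 : (n : ℝ) = t ^ 1000 := by
    rw [← hpow 1000]; norm_num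
  have hJ1 : (1 : ℝ) ≤ J n := by
    have : 0 < J n := by
      unfold J
      apply Nat.ceil_pos.2
      have : 0 < Real.log n := Real.log_pos (by exact_mod_cast (by omega : 1 < n))
      positivity
    exact_mod_cast this
  refine ⟨⌈t ^ 2⌉₊, ⌈t ^ 5⌉₊, ?_, ?_, ?_, ?_⟩
  · rw [e1]; exact Nat.le_ceil _
  · apply Nat.ceil_le.2
    rw [e4]
    exact pow_le_pow_right₀ (by linarith) (by norm_num)
  · rw [e2]
    have := Nat.le_ceil (t ^ 5)
    nlinarith [pow_pos (show (0:ℝ) < t by linarith) 5]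
  · rw [e3]
    have h6 : ((⌈t ^ 2⌉₊ : ℕ) : ℝ) ≤ t ^ 3 := by
      have := Nat.ceil_lt_add_one (show (0 : ℝ) ≤ t ^ 2 by positivity)
      have h7 : t ^ 2 + 1 ≤ t ^ 3 := by nlinarith
      linarith
    have h8 : ((⌈t ^ 5⌉₊ : ℕ) : ℝ) ≤ t ^ 6 := by
      have := Nat.ceil_lt_add_one (show (0 : ℝ) ≤ t ^ 5 by positivity)
      have h9 : (1 : ℝ) ≤ t ^ 5 := one_le_pow₀ (by linarith)
      have h7 : t ^ 5 + 1 ≤ t ^ 6 := by nlinarith
      linarith
    push_cast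
    calc (J n : ℝ) * (((⌈t ^ 2⌉₊ : ℕ) : ℝ) * ((⌈t ^ 5⌉₊ : ℕ) : ℝ)) ≤ t * (t ^ 3 * t ^ 6) := by
          gcongr
      _ = t ^ 10 := by ring

open Classical in
/-- disjoint groups inside a large finite set -/
lemma groups (W : Finset ℕ) (r m : ℕ) (h : r * m ≤ W.card) :
    ∃ U : ℕ → Finset ℕ, (∀ i < r, U i ⊆ W ∧ (U i).card = m) ∧
      ∀ i < r, ∀ j < r, i ≠ j → Disjoint (U i) (U j) := by
  have hc : Fintype.card (Fin r × Fin m) ≤ Fintype.card {x // x ∈ W} := by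
    simpa using h
  obtain ⟨e⟩ := Function.Embedding.nonempty_of_card_le hc
  refine ⟨fun i => if hi : i < r then univ.image (fun j : Fin m => (e (⟨i, hi⟩, j)).1) else ∅, ?_, ?_⟩
  · intro i hi
    simp only [hi, dif_pos]
    refine ⟨?_, ?_⟩
    · intro x hx
      rw [mem_image] at hx
      obtain ⟨j, -, rfl⟩ := hx
      exact (e _).2
    · rw [card_image_of_injective]
      · simp
      · intro a b hab
        have := e.injective (Subtype.ext hab)
        simpa using this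
  · intro i hi j hj hij
    simp only [hi, hj, dif_pos]
    rw [disjoint_left]
    intro x hx hx2
    rw [mem_image] at hx hx2
    obtain ⟨a, -, rfl⟩ := hx
    obtain ⟨b, -, hb⟩ := hx2
    have := e.injective (Subtype.ext hb)
    simp only [Prod.mk.injEq, Fin.mk.injEq] at this
    exact hij this.1.symm

/-- the solutions `k` for `n` -/
def Sol (S : Set ℕ) (n k : ℕ) : Prop := 1 ≤ k ∧ k + 2 < n ∧ Suc (q n k) S

theorem many (hVAL : S_VAL) (hSUMB : S_SUMB) (hSTART : S_START) (Ω : Type) [MeasurableSpace Ω] (μ : Measure Ω)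
    [IsProbabilityMeasure μ] (A : ℕ → Set Ω) (Q k₀ : ℕ) (θ : ℝ) (hQ : 1 ≤ Q) (hθ : 0 < θ) (hM : Model μ A Q k₀ θ) :
    ∀ᵐ ω ∂μ, ∀ᶠ n : ℕ in atTop, ∃ T : Finset ℕ, (n : ℝ) ^ (1 / 500 : ℝ) ≤ T.card ∧
      (∀ k ∈ T, Sol (Ch A ω) n k) ∧ Set.InjOn (q n) T := by
  classical
  obtain ⟨c, hc, hV⟩ := hVAL
  obtain ⟨K, hK, hSt⟩ := hSTART Ω μ A Q k₀ θ hQ hθ hM
  have hB := hSUMB Ω μ A Q k₀ θ hQ hθ hM K hK c hc
  -- the choice of the groups
  have hgood : ∀ᶠ n : ℕ in atTop, ∃ (r : ℕ) (U : ℕ → Finset ℕ), (n : ℝ) ^ (1 / 500 : ℝ) ≤ r ∧ r ≤ n ∧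
      (∀ i < r, ∀ v ∈ U i, c * n ≤ v ∧ v ≤ 2 * n ∧ ∃ k, 1 ≤ k ∧ k + 2 < n ∧ q n k = v) ∧
      (∀ i < r, ∀ j < r, i ≠ j → Disjoint (U i) (U j)) ∧
      (∀ i < r, μ.real {ω | ∀ v ∈ U i, Bad (2 * n) (n ^ 2) Q (J n) (g K n) (Y Q θ n) v (Ch A ω)} ≤
        1 / (n : ℝ) ^ 3) := by
    filter_upwards [hV Q hQ, sizes, hB, eventually_ge_atTop 3] with n hVn hs hBn hn3
    obtain ⟨V, hV1, hV2⟩ := hVn
    obtain ⟨r, m, hr, hrn, hm, hrm⟩ := hs
    have hJ1 : 1 ≤ J n := by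
      unfold J
      apply Nat.ceil_pos.2
      have : 0 < Real.log n := Real.log_pos (by exact_mod_cast (by omega : 1 < n))
      positivity
    obtain ⟨W, hWV, hWc, hWs⟩ := sep V (J n) hJ1
    have hcard : r * m ≤ W.card := by
      have h1 : (J n : ℝ) * (r * m : ℕ) ≤ (J n : ℝ) * W.card := by
        refine hrm.trans (hV1.trans ?_)
        exact_mod_cast hWc
      have h2 : J n * (r * m) ≤ J n * W.card := by exact_mod_cast h1
      exact Nat.le_of_mul_le_mul_left h2 (by omega)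
    obtain ⟨U, hU1, hU2⟩ := groups W r m hcard
    refine ⟨r, U, hr, hrn, ?_, hU2, ?_⟩
    · intro i hi v hv
      obtain ⟨h1, h2, -, h4⟩ := hV2 v (hWV ((hU1 i hi).1 hv))
      exact ⟨h1, h2, h4⟩
    · intro i hi
      refine hBn (U i) ?_ ?_ ?_
      · rw [(hU1 i hi).2]
        exact hm
      · intro v hv
        obtain ⟨h1, h2, h3, -⟩ := hV2 v (hWV ((hU1 i hi).1 hv))
        exact ⟨h1, h2, h3⟩
      · intro a ha b hb hab
        exact hWs a ((hU1 i hi).1 ha) b ((hU1 i hi).1 hb) hab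
  obtain ⟨n₀, hn₀⟩ := eventually_atTop.1 hgood
  choose! r U hgr using hn₀
  -- the bad events
  have hbc := bc μ (fun n => ⋃ i ∈ range (r n), {ω | ∀ v ∈ U n i, Bad (2 * n) (n ^ 2) Q (J n) (g K n) (Y Q θ n) v
    (Ch A ω)}) (fun n => 1 / (n : ℝ) ^ 2) (Real.summable_one_div_nat_pow.2 (by norm_num)) (by
      filter_upwards [eventually_ge_atTop n₀, eventually_ge_atTop 1] with n hn hn1
      have hn0 : (0 : ℝ) < n := by exact_mod_cast (by omega : 0 < n)
      obtain ⟨-, hrn, -, -, h5⟩ := hgr n hn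
      calc μ.real (⋃ i ∈ range (r n), {ω | ∀ v ∈ U n i, Bad (2 * n) (n ^ 2) Q (J n) (g K n) (Y Q θ n) v (Ch A ω)})
          ≤ ∑ i ∈ range (r n), μ.real {ω | ∀ v ∈ U n i, Bad (2 * n) (n ^ 2) Q (J n) (g K n) (Y Q θ n) v (Ch A ω)} :=
            measureReal_biUnion_finset_le _ _
        _ ≤ ∑ i ∈ range (r n), 1 / (n : ℝ) ^ 3 :=
            sum_le_sum (fun i hi => h5 i (mem_range.1 hi))
        _ = (r n : ℝ) * (1 / (n : ℝ) ^ 3) := by simp
        _ ≤ n * (1 / (n : ℝ) ^ 3) := by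
            have : (r n : ℝ) ≤ n := by exact_mod_cast hrn
            gcongr
        _ = 1 / (n : ℝ) ^ 2 := by field_simp)
  filter_upwards [hbc, hSt c hc] with ω h1 h2
  filter_upwards [h1, h2, eventually_ge_atTop n₀] with n hn1 hn2 hn
  obtain ⟨hr, -, hv, hdis, -⟩ := hgr n hn
  -- a solution in every group
  have hex : ∀ i < r n, ∃ k, 1 ≤ k ∧ k + 2 < n ∧ q n k ∈ U n i ∧ Suc (q n k) (Ch A ω) := by
    intro i hi
    have h3 : ¬ ∀ v ∈ U n i, Bad (2 * n) (n ^ 2) Q (J n) (g K n) (Y Q θ n) v (Ch A ω) := by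
      intro hall
      apply hn1
      rw [Set.mem_iUnion₂]
      exact ⟨i, mem_range.2 hi, hall⟩
    push Not at h3
    obtain ⟨v, hvU, hvB⟩ := h3
    obtain ⟨h4, h5, k, hk1, hk2, hk3⟩ := hv i hi v hvU
    obtain ⟨x, hx1, hx2, hx3, hx4⟩ := hn2 v h4 h5
    refine ⟨k, hk1, hk2, by rw [hk3]; exact hvU, ?_⟩
    rw [hk3]
    by_contra hns
    exact hvB ⟨⟨x, hx1, hx2, hx3, hx4⟩, hns⟩
  choose! k hk1 hk2 hk3 hk4 using hex
  have hinj : ∀ i < r n, ∀ j < r n, q n (k i) = q n (k j) → i = j := by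
    intro i hi j hj hij
    by_contra hne
    have := disjoint_left.1 (hdis i hi j hj hne) (hk3 i hi)
    rw [hij] at this
    exact this (hk3 j hj)
  refine ⟨(range (r n)).image k, ?_, ?_, ?_⟩
  · rw [card_image_of_injOn]
    · rw [card_range]; exact hr
    · intro i hi j hj hij
      rw [mem_coe, mem_range] at hi hj
      exact hinj i hi j hj (by rw [hij])
  · intro x hx
    rw [mem_image] at hx
    obtain ⟨i, hi, rfl⟩ := hx
    rw [mem_range] at hi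
    exact ⟨hk1 i hi, hk2 i hi, hk4 i hi⟩
  · intro x hx y hy hxy
    rw [mem_coe, mem_image] at hx hy
    obtain ⟨i, hi, rfl⟩ := hx
    obtain ⟨j, hj, rfl⟩ := hy
    rw [mem_range] at hi hj
    rw [hinj i hi j hj hxy]

end Pool.Agent.N860.TS
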