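import Pool.Agent.N860.TS.Stm

/-!
Project TS, part START: almost surely all explorations start well.
-/

set_option autoImplicit false

namespace Pool.Agent.N860.TS

open MeasureTheory Filter Finset
open scoped Topology

namespace StartAux

open Classical in
lemma cnt_succ (S : Set ℕ) (x : ℕ) : cnt S (x + 1) = cnt S x + if x ∈ S then 1 else 0 := by
  unfold cnt
  rw [range_add_one, filter_insert]
  split_ifs with h
  · rw [card_insert_of_notMem]
    simp
  · rfl

lemma cnt_mono (S : Set ℕ) {a b : ℕ} (h : a ≤ b) : cnt S a ≤ cnt S b := by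
  classical
  unfold cnt
  exact card_le_card (filter_subset_filter _ (range_subset_range.2 h))

lemma find (S : Set ℕ) {a b m : ℕ} (h0 : cnt S (a + 1) < m) (h1 : m ≤ cnt S b) :
    ∃ x, a < x ∧ x < b ∧ x ∈ S ∧ cnt S (x + 1) = m := by
  classical
  have hex : ∃ x, m ≤ cnt S (x + 1) := ⟨b, h1.trans (cnt_mono S (Nat.le_succ b))⟩
  have hs := Nat.find_spec hex
  set x := Nat.find hex with hx
  have hlt : cnt S x < m := by
    rcases Nat.eq_zero_or_pos x with h | h
    · rw [h]
      have : cnt S 0 = 0 := by simp [cnt]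
      omega
    · have h2 := Nat.find_min hex (m := x - 1) (by omega)
      rw [Nat.sub_add_cancel h] at h2
      omega
  have hsx := cnt_succ S x
  have hmem : x ∈ S := by
    by_contra hc
    rw [if_neg hc] at hsx
    omega
  rw [if_pos hmem] at hsx
  refine ⟨x, ?_, ?_, hmem, by omega⟩
  · by_contra hc
    have := cnt_mono S (show x + 1 ≤ a + 1 by omega)
    omega
  · by_contra hc
    have := cnt_mono S (show b ≤ x by omega)
    omega

lemma logpow (k : ℕ) {a : ℝ} (ha : 0 < a) : ∀ᶠ n : ℕ in atTop, (Real.log n) ^ k ≤ a * n := by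
  have h := (Real.isLittleO_pow_log_id_atTop (n := k)).def ha
  have h2 := (tendsto_natCast_atTop_atTop (R := ℝ)).eventually h
  filter_upwards [h2] with n hn
  simp only [id, Real.norm_eq_abs, Nat.abs_cast] at hn
  exact (le_abs_self _).trans hn

lemma J_le (n : ℕ) : (J n : ℝ) ≤ (Real.log n) ^ 4 + 1 :=
  (Nat.ceil_lt_add_one (by positivity)).le

lemma J_ge (n : ℕ) : (Real.log n) ^ 4 ≤ (J n : ℝ) := Nat.le_ceil _

end StartAux

open StartAux

theorem start : S_CNT → S_GAP → S_START := by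
  intro hCNT hGAP Ω _ μ _ A Q k₀ θ hQ hθ hM
  obtain ⟨K₁, hK₁, hgap⟩ := hGAP Ω μ A Q k₀ θ hQ hθ hM
  obtain ⟨c₁, C₁, hc₁, hcnt⟩ := hCNT Ω μ A Q k₀ θ hQ hθ hM
  refine ⟨27 * K₁, by positivity, ?_⟩
  intro c hc
  filter_upwards [hgap, hcnt] with ω h1 h2
  set S := Ch A ω with hS
  obtain ⟨z₀, hz₀⟩ := eventually_atTop.1 h1
  have hQ0 : (0 : ℝ) < Q := by exact_mod_cast hQ
  have hφ : (1 : ℝ) ≤ Nat.totient Q := by exact_mod_cast Nat.totient_pos.2 hQ
  have hφQ : (Nat.totient Q : ℝ) ≤ Q := by exact_mod_cast Nat.totient_le Q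
  have t1 : Tendsto (fun n : ℕ => 2 * n + 1) atTop atTop :=
    tendsto_atTop_mono (fun n => by simp only [id]; omega) tendsto_id
  have t2 : Tendsto (fun n : ℕ => n ^ 2) atTop atTop :=
    tendsto_atTop_mono (fun n => by simp only [id]; nlinarith [Nat.zero_le n, sq_nonneg n]) tendsto_id
  have tl : Tendsto (fun n : ℕ => Real.log n) atTop atTop :=
    Real.tendsto_log_atTop.comp tendsto_natCast_atTop_atTop
  have hL : ∀ᶠ n : ℕ in atTop, 12 * |C₁| / c + 1 + |θ| * (z₀ + 1) + 1 ≤ Real.log n :=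
    tl.eventually_ge_atTop _
  filter_upwards [t1.eventually h2, t2.eventually h2, hL, logpow 4 (a := c / 8) (by positivity),
    eventually_ge_atTop (⌈8 / c⌉₊ + 2), logpow 1 (a := c₁ / 8) (by positivity),
    logpow 5 (a := θ / (8 * Q)) (by positivity), logpow 1 (a := θ / (8 * Q)) (by positivity)]
    with n e1 e2 e3 e4 e5 e6 e7 e8
  intro v hv1 hv2
  have hn2 : 2 ≤ n := by omega
  have hnr : (2 : ℝ) ≤ n := by exact_mod_cast hn2
  have hlog0 : 0 < Real.log n := Real.log_pos (by linarith)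
  have hcn : 8 / c ≤ n := by
    have h3 : (⌈8 / c⌉₊ : ℝ) ≤ n := by exact_mod_cast (by omega : ⌈8 / c⌉₊ ≤ n)
    exact (Nat.le_ceil _).trans h3
  have hcn' : 8 ≤ c * n := by
    rw [div_le_iff₀ hc] at hcn
    linarith
  have hJ : (J n : ℝ) ≤ c * n / 4 := by
    have := J_le n
    linarith
  have hA0 : 0 ≤ |C₁| / c := by positivity
  have hA1 : 12 * |C₁| / c = 12 * (|C₁| / c) := by ring
  have hT0 : (0 : ℝ) ≤ |θ| * (z₀ + 1) := by positivity
  have hlog1 : 1 ≤ Real.log n := by
    rw [hA1] at e3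
    linarith
  -- the count below `2n + 1`
  have hlow : (cnt S (2 * n + 1) : ℝ) ≤ c * n / 2 := by
    have h3 := e1.2
    push_cast at h3
    have hlt : Real.log n ≤ Real.log (2 * (n : ℝ) + 1) :=
      Real.log_le_log (by linarith) (by linarith)
    have hpos : 0 < Real.log (2 * (n : ℝ) + 1) := by linarith
    refine h3.trans ?_
    have h4 : C₁ * ((2 * (n : ℝ) + 1) / Real.log (2 * (n : ℝ) + 1))
        ≤ |C₁| * ((3 * (n : ℝ)) / Real.log (2 * (n : ℝ) + 1)) := by
      apply mul_le_mul (le_abs_self _) _ (by positivity) (abs_nonneg _)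
      apply div_le_div_of_nonneg_right _ hpos.le
      linarith
    refine h4.trans ?_
    rw [← mul_div_assoc, div_le_iff₀ hpos]
    have h5 : 12 * |C₁| / c ≤ Real.log (2 * (n : ℝ) + 1) := by linarith
    rw [div_le_iff₀ hc] at h5
    have h6 : 0 ≤ |C₁| := abs_nonneg _
    nlinarith
  have hup : (2 * n : ℝ) + 1 ≤ cnt S (n ^ 2) := by
    refine le_trans ?_ e2.1
    push_cast
    rw [Real.log_pow]
    push_cast
    rw [← mul_div_assoc, le_div_iff₀ (by positivity)]
    rw [pow_one] at e6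
    nlinarith
  have hvJ : (J n : ℝ) ≤ v := by linarith
  have hvJ' : J n ≤ v := by exact_mod_cast hvJ
  obtain ⟨x, hx1, hx2, hx3, hx4⟩ := find S (a := 2 * n) (b := n ^ 2) (m := v - J n) (by
      have h3 : (cnt S (2 * n + 1) : ℝ) < ((v - J n : ℕ) : ℝ) := by
        rw [Nat.cast_sub hvJ']
        linarith
      exact_mod_cast h3) (by
      have h3 : 2 * n + 1 ≤ cnt S (n ^ 2) := by exact_mod_cast hup
      omega)
  refine ⟨x, hx1, hx2, ⟨hx3, by omega⟩, ?_⟩
  have hxr : (2 : ℝ) * n < x := by exact_mod_cast hx1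
  have hxr2 : (x : ℝ) ≤ (n : ℝ) ^ 2 := by exact_mod_cast hx2.le
  have hlx : Real.log n ≤ Real.log x := Real.log_le_log (by linarith) (by linarith)
  have hlx2 : Real.log x ≤ 2 * Real.log n := by
    have := Real.log_le_log (by linarith) hxr2
    rw [Real.log_pow] at this
    exact_mod_cast this
  set E : ℝ := (J n : ℝ) * Real.log x * Q / (Nat.totient Q * θ) with hE
  have hJ0 : (0 : ℝ) ≤ J n := Nat.cast_nonneg _
  have hE0 : 0 ≤ E := by
    rw [hE]
    have : 0 ≤ Real.log x := by linarith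
    positivity
  have hElow : (z₀ : ℝ) + 1 ≤ E := by
    have h3 : (J n : ℝ) * Real.log n / θ ≤ E := by
      rw [hE, div_le_div_iff₀ hθ (by positivity)]
      have h4 : (J n : ℝ) * Real.log n ≤ (J n : ℝ) * Real.log x :=
        mul_le_mul_of_nonneg_left hlx hJ0
      have h5 : 0 ≤ (J n : ℝ) * Real.log x := le_trans (by positivity) h4
      have h6 : (J n : ℝ) * Real.log n * Nat.totient Q ≤ (J n : ℝ) * Real.log x * Q :=
        mul_le_mul h4 hφQ (by positivity) h5
      nlinarith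
    refine le_trans ?_ h3
    rw [le_div_iff₀ hθ]
    have h4 := J_ge n
    have h5 : 1 ≤ (Real.log n) ^ 4 := one_le_pow₀ hlog1
    have h6 : |θ| * (z₀ + 1) ≤ Real.log n := by
      rw [hA1] at e3
      linarith
    rw [abs_of_pos hθ] at h6
    have h9 : Real.log n ≤ (J n : ℝ) * Real.log n := by nlinarith
    linarith
  have hEup : E ≤ n := by
    have h3 : E ≤ ((Real.log n) ^ 4 + 1) * (2 * Real.log n) * Q / θ := by
      have h4 : E ≤ (J n : ℝ) * Real.log x * Q / θ := by
        rw [hE]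
        have h5 : (0 : ℝ) ≤ (J n : ℝ) * Real.log x * Q := by
          have : 0 ≤ Real.log x := by linarith
          positivity
        apply div_le_div_of_nonneg_left h5 hθ
        nlinarith
      refine h4.trans ?_
      apply div_le_div_of_nonneg_right _ hθ.le
      apply mul_le_mul_of_nonneg_right _ hQ0.le
      exact mul_le_mul (J_le n) hlx2 (by linarith) (by positivity)
    refine h3.trans ?_
    rw [div_le_iff₀ hθ]
    have h6 : (Real.log n) ^ 5 * (8 * Q) ≤ θ * n := by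
      have := mul_le_mul_of_nonneg_right e7 (show (0 : ℝ) ≤ 8 * Q by positivity)
      have h7 : θ / (8 * Q) * n * (8 * Q) = θ * n := by field_simp
      linarith
    have h8 : Real.log n * (8 * Q) ≤ θ * n := by
      rw [pow_one] at e8
      have := mul_le_mul_of_nonneg_right e8 (show (0 : ℝ) ≤ 8 * Q by positivity)
      have h7 : θ / (8 * Q) * n * (8 * Q) = θ * n := by field_simp
      linarith
    have h9 : ((Real.log n) ^ 4 + 1) * (2 * Real.log n) * Q
        = ((Real.log n) ^ 5 * (8 * Q) + Real.log n * (8 * Q)) / 4 := by ring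
    rw [h9]
    nlinarith
  have hYx : Y Q θ n x = x + ⌈E⌉₊ := rfl
  set z := Y Q θ n x - v with hz
  have hzE : (E : ℝ) ≤ z := by
    have h3 : (E : ℝ) ≤ ⌈E⌉₊ := Nat.le_ceil _
    have h4 : ⌈E⌉₊ ≤ z := by
      rw [hz, hYx]
      omega
    have h5 : (⌈E⌉₊ : ℝ) ≤ z := by exact_mod_cast h4
    linarith
  have hz0 : z₀ ≤ z := by
    have : (z₀ : ℝ) ≤ z := by linarith
    exact_mod_cast this
  have hz1 : (1 : ℝ) ≤ z := by
    have : (0 : ℝ) ≤ z₀ := Nat.cast_nonneg _
    linarith
  have hzup : (z : ℝ) ≤ (n : ℝ) ^ 3 := by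
    have h3 : (z : ℝ) ≤ x + ⌈E⌉₊ := by
      have : z ≤ x + ⌈E⌉₊ := by rw [hz, hYx]; omega
      exact_mod_cast this
    have h4 : (⌈E⌉₊ : ℝ) ≤ E + 1 := (Nat.ceil_lt_add_one hE0).le
    have h5 : (z : ℝ) ≤ (n : ℝ) ^ 2 + n + 1 := by linarith
    refine h5.trans ?_
    have h6 : (n : ℝ) ^ 3 = (n : ℝ) ^ 2 * n := by ring
    nlinarith
  have hlz : Real.log z ≤ 3 * Real.log n := by
    have := Real.log_le_log (by linarith) hzup
    rw [Real.log_pow] at this
    exact_mod_cast this
  have hlz0 : 0 ≤ Real.log z := Real.log_nonneg hz1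
  obtain ⟨u, hu1, hu2, hu3, hu4, hu5⟩ := hz₀ z hz0
  refine ⟨u, hu1, ?_, hu3, hu4, hu5⟩
  have h3 : (Real.log z) ^ 3 ≤ 27 * (Real.log n) ^ 3 := by
    have := pow_le_pow_left₀ hlz0 hlz 3
    have h4 : (3 * Real.log n) ^ 3 = 27 * (Real.log n) ^ 3 := by ring
    linarith
  have h4 : (u : ℝ) ≤ z + g (27 * K₁) n := by
    have h5 : 27 * K₁ * (Real.log n) ^ 3 ≤ g (27 * K₁) n := Nat.le_ceil _
    have h6 := mul_le_mul_of_nonneg_left h3 hK₁.le
    linarith
  exact_mod_cast h4

end Pool.Agent.N860.TS
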