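import Mathlib
import Pool.Agent.N860.TS.Stm

/-!
# Project TS, part SUM (helper75): the failure probabilities are summable
-/

set_option autoImplicit false

namespace Pool.Agent.N860.TS

open MeasureTheory Filter Finset
open scoped Topology

namespace SumAux

theorem ev (C r : ℝ) (hr : 0 < r) (m : ℕ) :
    ∀ᶠ n : ℕ in atTop, C * (Real.log n) ^ m ≤ (n : ℝ) ^ r := by
  have h1 := (isLittleO_log_rpow_rpow_atTop (m : ℝ) hr).bound
    (show (0 : ℝ) < 1 / (|C| + 1) by positivity)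
  have h2 := (tendsto_natCast_atTop_atTop (R := ℝ)).eventually h1
  filter_upwards [h2] with n hn
  rw [Real.rpow_natCast, Real.norm_eq_abs, Real.norm_eq_abs,
    abs_of_nonneg (Real.rpow_nonneg (Nat.cast_nonneg n) r)] at hn
  have h3 : C * (Real.log n) ^ m ≤ |C| * |(Real.log n) ^ m| := by
    rw [← abs_mul]
    exact le_abs_self _
  have h4 : |C| * |(Real.log n) ^ m| ≤ |C| * (1 / (|C| + 1) * (n : ℝ) ^ r) :=
    mul_le_mul_of_nonneg_left hn (abs_nonneg _)
  have h5 : |C| * (1 / (|C| + 1)) ≤ 1 := by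
    rw [mul_one_div, div_le_one (by positivity)]
    linarith
  have h6 : |C| * (1 / (|C| + 1) * (n : ℝ) ^ r) ≤ (n : ℝ) ^ r := by
    rw [← mul_assoc]
    calc _ ≤ 1 * (n : ℝ) ^ r :=
          mul_le_mul_of_nonneg_right h5 (Real.rpow_nonneg (Nat.cast_nonneg n) r)
      _ = _ := one_mul _
  linarith

theorem cop {Q v : ℕ} (h : v % Q = 1 % Q) : Nat.Coprime v Q := by
  have h1 : v ≡ 1 [MOD Q] := h
  have h2 := h1.gcd_eq
  rw [Nat.coprime_iff_gcd_eq_one, h2]
  exact Nat.gcd_one_left Q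

/-- the conditions on the parameters -/
theorem par {Q : ℕ} {θ K c : ℝ} (hQ : 1 ≤ Q) (hθ : 0 < θ) (hK : 0 < K) (n v : ℕ)
    (hn : 3 ≤ n) (hv : c * n ≤ v) (hv2 : v ≤ 2 * n)
    (hF : (4 * (Q / (Nat.totient Q * θ)) + K + 6) * (Real.log n) ^ 5 < c * n) :
    Par (2 * n) (n ^ 2) (J n) (g K n) (Y Q θ n) v := by
  have hn' : (3 : ℝ) ≤ n := by exact_mod_cast hn
  have hL : 1 ≤ Real.log n := by
    rw [Real.le_log_iff_exp_le (by linarith)]
    have := Real.exp_one_lt_d9
    linarith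
  obtain ⟨L, hLd⟩ : ∃ L : ℝ, L = Real.log n := ⟨_, rfl⟩
  rw [← hLd] at hL hF
  obtain ⟨a, ha⟩ : ∃ a : ℝ, a = Q / (Nat.totient Q * θ) := ⟨_, rfl⟩
  have hφ : 0 < Nat.totient Q := Nat.totient_pos.2 hQ
  have hφ' : (0 : ℝ) < Nat.totient Q := by exact_mod_cast hφ
  have hQ' : (0 : ℝ) < Q := by exact_mod_cast hQ
  have ha0 : 0 < a := by
    rw [ha]
    positivity
  rw [← ha] at hF
  have hp3 : 1 ≤ L ^ 3 := one_le_pow₀ hL
  have hp4 : 1 ≤ L ^ 4 := one_le_pow₀ hL
  have hp5 : 1 ≤ L ^ 5 := one_le_pow₀ hL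
  have h35 : L ^ 3 ≤ L ^ 5 := pow_le_pow_right₀ hL (by norm_num)
  have h45 : L ^ 4 ≤ L ^ 5 := pow_le_pow_right₀ hL (by norm_num)
  have h15 : L ≤ L ^ 5 := by
    calc L = L ^ 1 := (pow_one L).symm
      _ ≤ L ^ 5 := pow_le_pow_right₀ hL (by norm_num)
  have hJ1 : 1 ≤ J n := by
    unfold J
    rw [Nat.one_le_ceil_iff, ← hLd]
    linarith
  have hJ2 : (J n : ℝ) < L ^ 4 + 1 := by
    unfold J
    rw [← hLd]
    exact Nat.ceil_lt_add_one (by linarith)
  have hg : (g K n : ℝ) < K * L ^ 3 + 1 := by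
    unfold g
    rw [← hLd]
    exact Nat.ceil_lt_add_one (by positivity)
  have hJ0 : (1 : ℝ) ≤ J n := by exact_mod_cast hJ1
  have key : ∀ x : ℕ, 2 * n < x → x < n ^ 2 →
      x < Y Q θ n x ∧ Y Q θ n x + g K n + 1 < x + v := by
    intro x hx1 hx2
    have hx1' : (1 : ℝ) < x := by
      have : 1 < x := by omega
      exact_mod_cast this
    have hx2' : (x : ℝ) ≤ (n : ℝ) ^ 2 := by exact_mod_cast hx2.le
    have hlx : 0 < Real.log x := Real.log_pos hx1'
    have hlx2 : Real.log x ≤ 2 * L := by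
      have h1 := Real.log_le_log (by linarith) hx2'
      rw [Real.log_pow] at h1
      rw [hLd]
      exact_mod_cast h1
    have hE : (J n : ℝ) * Real.log x * Q / (Nat.totient Q * θ) = J n * Real.log x * a := by
      rw [ha]
      ring
    have hpos : 0 < (J n : ℝ) * Real.log x * a := by positivity
    unfold Y
    rw [hE]
    have h1 : 1 ≤ ⌈(J n : ℝ) * Real.log x * a⌉₊ := Nat.one_le_ceil_iff.2 hpos
    have h2 : (⌈(J n : ℝ) * Real.log x * a⌉₊ : ℝ) < (J n : ℝ) * Real.log x * a + 1 :=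
      Nat.ceil_lt_add_one hpos.le
    refine ⟨by omega, ?_⟩
    have h3 : (J n : ℝ) * Real.log x ≤ (2 * L ^ 4) * (2 * L) :=
      mul_le_mul (by linarith) hlx2 hlx.le (by positivity)
    have h4 : (J n : ℝ) * Real.log x * a ≤ 4 * a * L ^ 5 := by
      calc (J n : ℝ) * Real.log x * a ≤ (2 * L ^ 4) * (2 * L) * a :=
            mul_le_mul_of_nonneg_right h3 ha0.le
        _ = 4 * a * L ^ 5 := by ring
    have h5 : K * L ^ 3 ≤ K * L ^ 5 := mul_le_mul_of_nonneg_left h35 hK.le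
    have h6 : (⌈(J n : ℝ) * Real.log x * a⌉₊ : ℝ) + g K n + 1 < v := by
      have h7 : (4 * a + K + 6) * L ^ 5 = 4 * a * L ^ 5 + K * L ^ 5 + 6 * L ^ 5 := by ring
      linarith
    have h7 : ⌈(J n : ℝ) * Real.log x * a⌉₊ + g K n + 1 < v := by exact_mod_cast h6
    omega
  refine ⟨hv2, hJ1, ?_, ?_, key⟩
  · have h1 : (J n : ℝ) < v := by
      have h7 : (4 * a + K + 6) * L ^ 5 = 4 * a * L ^ 5 + K * L ^ 5 + 6 * L ^ 5 := by ring
      have h8 : 0 < 4 * a * L ^ 5 := by positivity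
      have h9 : 0 < K * L ^ 5 := by positivity
      linarith
    have h2 : J n < v := by exact_mod_cast h1
    exact h2.le
  · intro x hx1 hx2
    have := (key x hx1 hx2).1
    omega

end SumAux

open SumAux

theorem sum : S_IND → S_PAT → S_REC → S_SUM := by
  intro _ hPAT hREC Ω _ μ _ A Q k₀ θ hQ hθ hM K hK c hc V hV
  have hE1 := hPAT Ω μ A Q k₀ θ hQ hθ hM K hK
  obtain ⟨E, hE⟩ : ∃ E : ℕ → Set Ω, E = fun n => {ω | ∀ v ∈ V n,
    Bad (2 * n) (n ^ 2) Q (J n) (g K n) (Y Q θ n) v (Ch A ω)} := ⟨_, rfl⟩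
  have hφ : 0 < Nat.totient Q := Nat.totient_pos.2 hQ
  have hφ' : (0 : ℝ) < Nat.totient Q := by exact_mod_cast hφ
  have hQ' : (0 : ℝ) < Q := by exact_mod_cast hQ
  have hF1 := ev ((4 * (Q / (Nat.totient Q * θ)) + K + 6) * (2 / c)) 1 one_pos 5
  have hF2 := ev (8 / θ) (9 / 1000) (by norm_num) 6
  obtain ⟨m, hm⟩ := exists_nat_ge (((k₀ : ℝ) + 2) / c)
  have hmain : ∀ᶠ n : ℕ in atTop, μ.real (E n) ≤ 1 / (n : ℝ) ^ 2 := by
    filter_upwards [hV, hE1, hF1, hF2, eventually_ge_atTop 3, eventually_ge_atTop m] with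
      n hVn hPn hF1n hF2n hn3 hnm
    obtain ⟨hV1, hV2, hV3⟩ := hVn
    have hn' : (3 : ℝ) ≤ n := by exact_mod_cast hn3
    have hn0 : (0 : ℝ) < n := by linarith
    have hL : 1 ≤ Real.log n := by
      rw [Real.le_log_iff_exp_le (by linarith)]
      have := Real.exp_one_lt_d9
      linarith
    obtain ⟨L, hLd⟩ : ∃ L : ℝ, L = Real.log n := ⟨_, rfl⟩
    have hL' : 1 ≤ L := by rw [hLd]; exact hL
    have hL0 : 0 < L := by linarith
    have hF : (4 * (Q / (Nat.totient Q * θ)) + K + 6) * (Real.log n) ^ 5 < c * n := by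
      rw [Real.rpow_one] at hF1n
      obtain ⟨T, hT⟩ : ∃ T : ℝ, T = (4 * (Q / (Nat.totient Q * θ)) + K + 6) *
        (Real.log n) ^ 5 := ⟨_, rfl⟩
      have hT0 : 0 < T := by
        rw [hT, ← hLd]
        positivity
      have h1 : T * (2 / c) ≤ n := by
        rw [hT]
        calc _ = (4 * (Q / (Nat.totient Q * θ)) + K + 6) * (2 / c) * (Real.log n) ^ 5 := by ring
          _ ≤ n := hF1n
      rw [← hT]
      have h2 : T * (2 / c) * c ≤ n * c := mul_le_mul_of_nonneg_right h1 hc.le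
      have h3 : T * (2 / c) * c = 2 * T := by
        field_simp
      linarith
    have hcn : (k₀ : ℝ) + 2 ≤ c * n := by
      have h1 : ((k₀ : ℝ) + 2) / c ≤ n := hm.trans (by exact_mod_cast hnm)
      rw [div_le_iff₀ hc] at h1
      linarith
    have hpar : ∀ v ∈ V n, Par (2 * n) (n ^ 2) (J n) (g K n) (Y Q θ n) v := fun v hv =>
      par hQ hθ hK n v hn3 (hV2 v hv).1 (hV2 v hv).2.1 hF
    obtain ⟨δ, hδ⟩ : ∃ δ : ℝ, δ = (n : ℝ) ^ (-(1 / 1000 : ℝ)) := ⟨_, rfl⟩
    have hδ0 : 0 < δ := by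
      rw [hδ]
      exact Real.rpow_pos_of_pos hn0 _
    have hδ1 : δ ≤ 1 := by
      rw [hδ]
      exact Real.rpow_le_one_of_one_le_of_nonpos (by linarith) (by norm_num)
    have h1 := hREC Ω μ A hM.meas hM.indep (2 * n) (n ^ 2) Q (J n) (g K n) (Y Q θ n) (V n) δ hpar
      hV3 hδ0.le hδ1 (by
        intro v hv x y hx1 hx2 hy1 hy2 hy3
        rw [hδ]
        refine hPn x hx1 hx2 y hy1 hy2 (cop ?_)
        rw [hy3]
        exact (hV2 v hv).2.2)
    have h2 : μ.real (E n) ≤ ∏ v ∈ V n, (1 - δ * μ.real (A v)) := by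
      rw [hE]
      exact h1
    refine h2.trans ?_
    have hpA : ∀ v ∈ V n, θ / (2 * L) ≤ μ.real (A v) := by
      intro v hv
      have hvc := (hV2 v hv).1
      have hv2 : (2 : ℝ) ≤ v := by
        have : (0 : ℝ) ≤ k₀ := Nat.cast_nonneg _
        linarith
      have hvk : k₀ ≤ v := by
        have : (k₀ : ℝ) ≤ v := by linarith
        exact_mod_cast this
      rw [hM.prob v hvk (cop (hV2 v hv).2.2)]
      have hlv : 0 < Real.log v := Real.log_pos (by linarith)
      have hvn : (v : ℝ) ≤ 2 * n := by exact_mod_cast (hV2 v hv).2.1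
      have hlv2 : Real.log v ≤ 2 * L := by
        have h3 : (v : ℝ) ≤ (n : ℝ) ^ 2 := by nlinarith
        have h4 := Real.log_le_log (by linarith) h3
        rw [Real.log_pow] at h4
        rw [hLd]
        exact_mod_cast h4
      exact div_le_div_of_nonneg_left hθ.le hlv hlv2
    have h3 : ∏ v ∈ V n, (1 - δ * μ.real (A v)) ≤
        ∏ v ∈ V n, Real.exp (-(δ * (θ / (2 * L)))) := by
      refine Finset.prod_le_prod (fun v hv => ?_) (fun v hv => ?_)
      · have h4 : μ.real (A v) ≤ 1 := measureReal_le_one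
        have h5 : δ * μ.real (A v) ≤ 1 * 1 :=
          mul_le_mul hδ1 h4 measureReal_nonneg (by norm_num)
        linarith
      · have h4 := Real.add_one_le_exp (-(δ * (θ / (2 * L))))
        have h5 := mul_le_mul_of_nonneg_left (hpA v hv) hδ0.le
        linarith
    refine h3.trans ?_
    rw [Finset.prod_const, ← Real.exp_nat_mul]
    -- the number of the elements
    have hJ2 : (J n : ℝ) ≤ 2 * L ^ 4 := by
      have h4 : (J n : ℝ) < L ^ 4 + 1 := by
        unfold J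
        rw [← hLd]
        exact Nat.ceil_lt_add_one (by positivity)
      have h5 : 1 ≤ L ^ 4 := one_le_pow₀ hL'
      linarith
    have hVc : (n : ℝ) ^ (1 / 100 : ℝ) ≤ 2 * L ^ 4 * (V n).card :=
      hV1.trans (mul_le_mul_of_nonneg_right hJ2 (Nat.cast_nonneg _))
    have hpow : (n : ℝ) ^ (9 / 1000 : ℝ) = δ * (n : ℝ) ^ (1 / 100 : ℝ) := by
      rw [hδ, ← Real.rpow_add hn0]
      norm_num
    have h6 : 2 * L ≤ ((V n).card : ℝ) * (δ * (θ / (2 * L))) := by
      rw [← hLd, hpow] at hF2n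
      have h7 : 8 / θ * L ^ 6 ≤ δ * (2 * L ^ 4 * (V n).card) :=
        hF2n.trans (mul_le_mul_of_nonneg_left hVc hδ0.le)
      have h8 : (8 / θ * L ^ 6) * (θ / (4 * L ^ 5)) ≤
          (δ * (2 * L ^ 4 * (V n).card)) * (θ / (4 * L ^ 5)) :=
        mul_le_mul_of_nonneg_right h7 (by positivity)
      have h9 : (8 / θ * L ^ 6) * (θ / (4 * L ^ 5)) = 2 * L := by
        field_simp
        ring
      have h10 : (δ * (2 * L ^ 4 * (V n).card)) * (θ / (4 * L ^ 5)) =
          ((V n).card : ℝ) * (δ * (θ / (2 * L))) := by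
        field_simp
        ring
      rw [h9, h10] at h8
      exact h8
    have h7 : ((V n).card : ℝ) * -(δ * (θ / (2 * L))) ≤ -(2 * L) := by
      have : ((V n).card : ℝ) * -(δ * (θ / (2 * L))) = -(((V n).card : ℝ) * (δ * (θ / (2 * L)))) := by
        ring
      rw [this]
      linarith
    refine (Real.exp_le_exp.2 h7).trans ?_
    have h8 : Real.exp (-(2 * L)) = 1 / (n : ℝ) ^ 2 := by
      rw [Real.exp_neg, hLd]
      have h9 : Real.exp (2 * Real.log n) = (n : ℝ) ^ 2 := by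
        rw [mul_comm, Real.exp_mul, Real.exp_log hn0]
        exact_mod_cast Real.rpow_natCast (n : ℝ) 2
      rw [h9, one_div]
    exact h8.le
  obtain ⟨n₀, hn₀⟩ := eventually_atTop.1 hmain
  classical
  obtain ⟨s, hs⟩ : ∃ s : ℕ → Set Ω, s = fun n => if n₀ ≤ n then E n else ∅ := ⟨_, rfl⟩
  have hsum : ∑' n, μ (s n) ≠ ⊤ := by
    have h1 : Summable (fun n : ℕ => 1 / (n : ℝ) ^ 2) :=
      Real.summable_one_div_nat_pow.2 (by norm_num)
    refine ne_top_of_le_ne_top h1.tsum_ofReal_ne_top (ENNReal.tsum_le_tsum fun n => ?_)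
    rw [hs]
    dsimp only
    split_ifs with h
    · have h2 := hn₀ n h
      rw [ENNReal.le_ofReal_iff_toReal_le (measure_ne_top μ _) (by positivity)]
      exact h2
    · simp
  have h1 := ae_eventually_notMem hsum
  filter_upwards [h1] with ω hω
  filter_upwards [hω, eventually_ge_atTop n₀] with n hn hn2
  rw [hs] at hn
  dsimp only at hn
  rw [if_pos hn2, hE] at hn
  by_contra hcon
  apply hn
  intro v hv
  by_contra hb
  exact hcon ⟨v, hv, hb⟩

end Pool.Agent.N860.TS
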