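import Pool.Agent.N860.TS.Main
import Pool.Agent.N860.TS.Sum

set_option autoImplicit false

/-! Variant of `Sum.lean` (helper75) for all families at once. -/

namespace Pool.Agent.N860.TS

open MeasureTheory Filter Finset
open scoped Topology
open SumAux

theorem sumB : S_PAT → S_REC → S_SUMB := by
  intro hPAT hREC Ω _ μ _ A Q k₀ θ hQ hθ hM K hK c hc
  have hE1 := hPAT Ω μ A Q k₀ θ hQ hθ hM K hK
  have hφ : 0 < Nat.totient Q := Nat.totient_pos.2 hQ
  have hφ' : (0 : ℝ) < Nat.totient Q := by exact_mod_cast hφ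
  have hQ' : (0 : ℝ) < Q := by exact_mod_cast hQ
  have hF1 := ev ((4 * (Q / (Nat.totient Q * θ)) + K + 6) * (2 / c)) 1 one_pos 5
  have hF2 := ev (12 / θ) (4 / 1000) (by norm_num) 6
  obtain ⟨m, hm⟩ := exists_nat_ge (((k₀ : ℝ) + 2) / c)
  have hmain : ∀ᶠ n : ℕ in atTop, ∀ V : Finset ℕ, (n : ℝ) ^ (1 / 200 : ℝ) ≤ (J n : ℝ) * V.card →
    (∀ v ∈ V, c * n ≤ v ∧ v ≤ 2 * n ∧ v % Q = 1 % Q) → (∀ a ∈ V, ∀ b ∈ V, a < b → a + J n ≤ b) →
    μ.real {ω | ∀ v ∈ V, Bad (2 * n) (n ^ 2) Q (J n) (g K n) (Y Q θ n) v (Ch A ω)} ≤ 1 / (n : ℝ) ^ 3 := by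
    filter_upwards [hE1, hF1, hF2, eventually_ge_atTop 3, eventually_ge_atTop m] with
      n hPn hF1n hF2n hn3 hnm
    intro V hV1 hV2 hV3
    have hn' : (3 : ℝ) ≤ n := by exact_mod_cast hn3
    have hn0 : (0 : ℝ) < n := by linarith
    have hL : 1 ≤ Real.log n := by
      rw [Real.le_log_iff_exp_le (by linarith)]
      have := Real.exp_one_lt_d9
      linarith
    obtain ⟨L, hLd⟩ : ∃ L : ℝ, L = Real.log n := ⟨_, rfl⟩
    have hL' : 1 ≤ L := by rw [hLd]; exact hL
    have hL0 : 0 < L := by linarith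
    have hF : (4 * (Q / (Nat.totient Q * θ)) + K + 6) * (Real.log n) ^ 5 < c * n := by
      rw [Real.rpow_one] at hF1n
      obtain ⟨T, hT⟩ : ∃ T : ℝ, T = (4 * (Q / (Nat.totient Q * θ)) + K + 6) *
        (Real.log n) ^ 5 := ⟨_, rfl⟩
      have hT0 : 0 < T := by
        rw [hT, ← hLd]
        positivity
      have h1 : T * (2 / c) ≤ n := by
        rw [hT]
        calc _ = (4 * (Q / (Nat.totient Q * θ)) + K + 6) * (2 / c) * (Real.log n) ^ 5 := by ring
          _ ≤ n := hF1n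
      rw [← hT]
      have h2 : T * (2 / c) * c ≤ n * c := mul_le_mul_of_nonneg_right h1 hc.le
      have h3 : T * (2 / c) * c = 2 * T := by
        field_simp
      linarith
    have hcn : (k₀ : ℝ) + 2 ≤ c * n := by
      have h1 : ((k₀ : ℝ) + 2) / c ≤ n := hm.trans (by exact_mod_cast hnm)
      rw [div_le_iff₀ hc] at h1
      linarith
    have hpar : ∀ v ∈ V, Par (2 * n) (n ^ 2) (J n) (g K n) (Y Q θ n) v := fun v hv =>
      par hQ hθ hK n v hn3 (hV2 v hv).1 (hV2 v hv).2.1 hF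
    obtain ⟨δ, hδ⟩ : ∃ δ : ℝ, δ = (n : ℝ) ^ (-(1 / 1000 : ℝ)) := ⟨_, rfl⟩
    have hδ0 : 0 < δ := by
      rw [hδ]
      exact Real.rpow_pos_of_pos hn0 _
    have hδ1 : δ ≤ 1 := by
      rw [hδ]
      exact Real.rpow_le_one_of_one_le_of_nonpos (by linarith) (by norm_num)
    have h1 := hREC Ω μ A hM.meas hM.indep (2 * n) (n ^ 2) Q (J n) (g K n) (Y Q θ n) (V) δ hpar
      hV3 hδ0.le hδ1 (by
        intro v hv x y hx1 hx2 hy1 hy2 hy3
        rw [hδ]
        refine hPn x hx1 hx2 y hy1 hy2 (cop ?_)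
        rw [hy3]
        exact (hV2 v hv).2.2)
    refine h1.trans ?_
    have hpA : ∀ v ∈ V, θ / (2 * L) ≤ μ.real (A v) := by
      intro v hv
      have hvc := (hV2 v hv).1
      have hv2 : (2 : ℝ) ≤ v := by
        have : (0 : ℝ) ≤ k₀ := Nat.cast_nonneg _
        linarith
      have hvk : k₀ ≤ v := by
        have : (k₀ : ℝ) ≤ v := by linarith
        exact_mod_cast this
      rw [hM.prob v hvk (cop (hV2 v hv).2.2)]
      have hlv : 0 < Real.log v := Real.log_pos (by linarith)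
      have hvn : (v : ℝ) ≤ 2 * n := by exact_mod_cast (hV2 v hv).2.1
      have hlv2 : Real.log v ≤ 2 * L := by
        have h3 : (v : ℝ) ≤ (n : ℝ) ^ 2 := by nlinarith
        have h4 := Real.log_le_log (by linarith) h3
        rw [Real.log_pow] at h4
        rw [hLd]
        exact_mod_cast h4
      exact div_le_div_of_nonneg_left hθ.le hlv hlv2
    have h3 : ∏ v ∈ V, (1 - δ * μ.real (A v)) ≤
        ∏ v ∈ V, Real.exp (-(δ * (θ / (2 * L)))) := by
      refine Finset.prod_le_prod (fun v hv => ?_) (fun v hv => ?_)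
      · have h4 : μ.real (A v) ≤ 1 := measureReal_le_one
        have h5 : δ * μ.real (A v) ≤ 1 * 1 :=
          mul_le_mul hδ1 h4 measureReal_nonneg (by norm_num)
        linarith
      · have h4 := Real.add_one_le_exp (-(δ * (θ / (2 * L))))
        have h5 := mul_le_mul_of_nonneg_left (hpA v hv) hδ0.le
        linarith
    refine h3.trans ?_
    rw [Finset.prod_const, ← Real.exp_nat_mul]
    -- the number of the elements
    have hJ2 : (J n : ℝ) ≤ 2 * L ^ 4 := by
      have h4 : (J n : ℝ) < L ^ 4 + 1 := by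
        unfold J
        rw [← hLd]
        exact Nat.ceil_lt_add_one (by positivity)
      have h5 : 1 ≤ L ^ 4 := one_le_pow₀ hL'
      linarith
    have hVc : (n : ℝ) ^ (1 / 200 : ℝ) ≤ 2 * L ^ 4 * (V).card :=
      hV1.trans (mul_le_mul_of_nonneg_right hJ2 (Nat.cast_nonneg _))
    have hpow : (n : ℝ) ^ (4 / 1000 : ℝ) = δ * (n : ℝ) ^ (1 / 200 : ℝ) := by
      rw [hδ, ← Real.rpow_add hn0]
      norm_num
    have h6 : 3 * L ≤ ((V).card : ℝ) * (δ * (θ / (2 * L))) := by
      rw [← hLd, hpow] at hF2n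
      have h7 : 12 / θ * L ^ 6 ≤ δ * (2 * L ^ 4 * (V).card) :=
        hF2n.trans (mul_le_mul_of_nonneg_left hVc hδ0.le)
      have h8 : (12 / θ * L ^ 6) * (θ / (4 * L ^ 5)) ≤
          (δ * (2 * L ^ 4 * (V).card)) * (θ / (4 * L ^ 5)) :=
        mul_le_mul_of_nonneg_right h7 (by positivity)
      have h9 : (12 / θ * L ^ 6) * (θ / (4 * L ^ 5)) = 3 * L := by
        field_simp
        ring
      have h10 : (δ * (2 * L ^ 4 * (V).card)) * (θ / (4 * L ^ 5)) =
          ((V).card : ℝ) * (δ * (θ / (2 * L))) := by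
        field_simp
        ring
      rw [h9, h10] at h8
      exact h8
    have h7 : ((V).card : ℝ) * -(δ * (θ / (2 * L))) ≤ -(3 * L) := by
      have : ((V).card : ℝ) * -(δ * (θ / (2 * L))) = -(((V).card : ℝ) * (δ * (θ / (2 * L)))) := by
        ring
      rw [this]
      linarith
    refine (Real.exp_le_exp.2 h7).trans ?_
    have h8 : Real.exp (-(3 * L)) = 1 / (n : ℝ) ^ 3 := by
      rw [Real.exp_neg, hLd]
      have h9 : Real.exp (3 * Real.log n) = (n : ℝ) ^ 3 := by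
        rw [mul_comm, Real.exp_mul, Real.exp_log hn0]
        exact_mod_cast Real.rpow_natCast (n : ℝ) 3
      rw [h9, one_div]
    exact h8.le
  exact hmain

end Pool.Agent.N860.TS
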